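import Mathlib

/-!
For a prime `n` every residue class modulo `n` contains integers `0 < m < 2 n ^ 2` of both
parities of the number of prime factors.
-/

set_option autoImplicit false

namespace Pool.Agent.Lib.MP_da4d09_nt.PL

namespace AAux

open ArithmeticFunction

/-- A product of two numbers below `k` and a power of `k - 1` in a prescribed interval. -/
theorem exists_prod (k : ℕ) (hk : 3 ≤ k) (W : ℝ) (hW : (k : ℝ) ≤ W) :
    ∃ l1 l2 j : ℕ, 0 < l1 ∧ l1 < k ∧ 0 < l2 ∧ l2 < k ∧
      (1 - 2 / (k : ℝ)) * W < (l1 * l2 * (k - 1) ^ j : ℕ) ∧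
      ((l1 * l2 * (k - 1) ^ j : ℕ) : ℝ) < W := by
  have hk0 : (0 : ℝ) < k := by exact_mod_cast (by omega : 0 < k)
  have hk3 : (3 : ℝ) ≤ k := by exact_mod_cast hk
  have hL : (1 : ℝ) < ((k - 1 : ℕ) : ℝ) := by exact_mod_cast (by omega : 1 < k - 1)
  have hLk : ((k - 1 : ℕ) : ℝ) = (k : ℝ) - 1 := by
    rw [Nat.cast_sub (by omega)]
    simp
  obtain ⟨j, hj1, hj2⟩ := exists_nat_pow_near (x := W / k) (y := ((k - 1 : ℕ) : ℝ))
    ((one_le_div hk0).2 hW) hL
  have hP : (0 : ℝ) < ((k - 1 : ℕ) : ℝ) ^ j := by positivity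
  set P : ℝ := ((k - 1 : ℕ) : ℝ) ^ j with hPdef
  set w : ℝ := W / P with hw
  have hwW : w * P = W := by
    rw [hw]
    field_simp
  have hw1 : (k : ℝ) ≤ w := by
    rw [le_div_iff₀ hk0] at hj1
    rw [hw, le_div_iff₀ hP]
    linarith
  have hw2 : w < (k : ℝ) * ((k - 1 : ℕ) : ℝ) := by
    rw [div_lt_iff₀ hk0, pow_succ] at hj2
    rw [hw, div_lt_iff₀ hP]
    calc W < P * ((k - 1 : ℕ) : ℝ) * k := hj2
      _ = _ := by ring
  -- the second factor
  set l2 : ℕ := ⌈w / k⌉₊ with hl2
  have h1 : 1 ≤ w / k := (one_le_div hk0).2 hw1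
  have h2 : w / k ≤ (l2 : ℝ) := Nat.le_ceil _
  have h3 : (l2 : ℝ) < w / k + 1 := Nat.ceil_lt_add_one (by linarith)
  have h4 : 1 ≤ (l2 : ℝ) := h1.trans h2
  have hl2pos : 0 < l2 := by exact_mod_cast lt_of_lt_of_le zero_lt_one h4
  have hl2k : l2 < k := by
    have h5 : l2 ≤ k - 1 := by
      rw [hl2, Nat.ceil_le, div_le_iff₀ hk0]
      linarith [hw2]
    omega
  have hl2R : (0 : ℝ) < l2 := by exact_mod_cast hl2pos
  -- `l2 < 2 w / k`
  have h6 : (l2 : ℝ) < 2 * (w / k) := by linarith
  -- the first factor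
  set c : ℕ := ⌈w / l2⌉₊ with hc
  have h7 : w / l2 ≤ (k : ℝ) := by
    rw [div_le_iff₀ hl2R]
    rw [div_le_iff₀ hk0] at h2
    linarith
  have h8 : 1 < w / l2 := by
    rw [lt_div_iff₀ hl2R]
    have e : 2 * (w / k) = w * (2 / k) := by ring
    have h9 : w * (2 / (k : ℝ)) ≤ w * 1 := by
      apply mul_le_mul_of_nonneg_left _ (by linarith)
      rw [div_le_iff₀ hk0]
      linarith
    linarith
  have h10 : c ≤ k := by
    rw [hc, Nat.ceil_le]
    exact h7
  have h11 : 1 < c := by
    rw [hc, Nat.lt_ceil]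
    exact_mod_cast h8
  have h12 : w / l2 ≤ (c : ℝ) := Nat.le_ceil _
  have h13 : (c : ℝ) < w / l2 + 1 := Nat.ceil_lt_add_one (by linarith)
  have e1 : ((c - 1 : ℕ) : ℝ) = (c : ℝ) - 1 := by
    rw [Nat.cast_sub h11.le]
    simp
  refine ⟨c - 1, l2, j, by omega, by omega, hl2pos, hl2k, ?_, ?_⟩
  · rw [Nat.cast_mul, Nat.cast_mul, Nat.cast_pow, ← hPdef, e1, ← hwW, ← mul_assoc]
    apply mul_lt_mul_of_pos_right _ hP
    have h14 : w ≤ (c : ℝ) * l2 := by
      rwa [div_le_iff₀ hl2R] at h12
    have e2 : (1 - 2 / (k : ℝ)) * w = w - 2 * (w / k) := by ring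
    rw [e2]
    nlinarith
  · rw [Nat.cast_mul, Nat.cast_mul, Nat.cast_pow, ← hPdef, e1, ← hwW]
    apply mul_lt_mul_of_pos_right _ hP
    have h15 : ((c : ℝ) - 1) < w / l2 := by linarith
    rwa [lt_div_iff₀ hl2R] at h15

section

variable {n : ℕ} [hn : Fact n.Prime]

/-- The Liouville function on the residue classes. -/
def F (g : ZMod n) : ℤ := liouville g.val

theorem liouville_eq {m : ℕ} (hm : m ≠ 0) : liouville m = 1 ∨ liouville m = -1 := by
  rw [liouville_apply hm]
  exact neg_one_pow_eq_or ℤ _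

theorem liouville_sq {m : ℕ} (hm : m ≠ 0) : liouville m * liouville m = 1 := by
  rcases liouville_eq hm with h | h <;> rw [h] <;> norm_num

theorem val_ne {g : ZMod n} (hg : g ≠ 0) : g.val ≠ 0 := by
  rwa [Ne, ZMod.val_eq_zero]

theorem F_sq {g : ZMod n} (hg : g ≠ 0) : F g * F g = 1 := liouville_sq (val_ne hg)

variable {a : ZMod n} {κ : ℤ}

/-- the relation of the values at `g` and `a / g` -/
theorem F_mul (ha : a ≠ 0)
    (H : ∀ m : ℕ, 0 < m → m < 2 * n ^ 2 → (m : ZMod n) = a → liouville m = κ) {g : ZMod n}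
    (hg : g ≠ 0) : F g * F (a * g⁻¹) = κ := by
  have h1 : a * g⁻¹ ≠ 0 := mul_ne_zero ha (inv_ne_zero hg)
  unfold F
  rw [← liouville_apply_mul]
  apply H
  · exact Nat.mul_pos (Nat.pos_of_ne_zero (val_ne hg)) (Nat.pos_of_ne_zero (val_ne h1))
  · have h2 := ZMod.val_lt g
    have h3 := ZMod.val_lt (a * g⁻¹)
    have h4 : g.val * (a * g⁻¹).val ≤ n * n := Nat.mul_le_mul h2.le h3.le
    have h5 : 0 < n := hn.out.pos
    nlinarith [Nat.mul_pos h5 h5]
  · rw [Nat.cast_mul, ZMod.natCast_zmod_val, ZMod.natCast_zmod_val]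
    field_simp

/-- the relation of the values at `g` and `k g` -/
theorem F_rel (ha : a ≠ 0)
    (H : ∀ m : ℕ, 0 < m → m < 2 * n ^ 2 → (m : ZMod n) = a → liouville m = κ) {g : ZMod n}
    (hg : g ≠ 0) {k : ℕ} (hk : (k : ZMod n) ≠ 0) (hlt : k * g.val < 2 * n) :
    F ((k : ZMod n) * g) = liouville k * F g := by
  have hk0 : k ≠ 0 := by
    rintro rfl
    simp at hk
  have hkg : (k : ZMod n) * g ≠ 0 := mul_ne_zero hk hg
  have h1 : a * ((k : ZMod n) * g)⁻¹ ≠ 0 := mul_ne_zero ha (inv_ne_zero hkg)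
  have h2 := F_mul ha H hkg
  have h3 : liouville k * F g * F (a * ((k : ZMod n) * g)⁻¹) = κ := by
    unfold F
    rw [← liouville_apply_mul, ← liouville_apply_mul]
    apply H
    · exact Nat.mul_pos (Nat.mul_pos (Nat.pos_of_ne_zero hk0) (Nat.pos_of_ne_zero (val_ne hg)))
        (Nat.pos_of_ne_zero (val_ne h1))
    · have h4 := ZMod.val_lt (a * ((k : ZMod n) * g)⁻¹)
      have hn0 : 0 < n := hn.out.pos
      calc k * g.val * (a * ((k : ZMod n) * g)⁻¹).val ≤
          k * g.val * n := Nat.mul_le_mul_left _ h4.le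
        _ < 2 * n * n := Nat.mul_lt_mul_of_pos_right hlt hn0
        _ = 2 * n ^ 2 := by ring
    · rw [Nat.cast_mul, Nat.cast_mul, ZMod.natCast_zmod_val, ZMod.natCast_zmod_val]
      field_simp
  have h5 := F_sq h1
  calc F ((k : ZMod n) * g) = F ((k : ZMod n) * g) *
        (F (a * ((k : ZMod n) * g)⁻¹) * F (a * ((k : ZMod n) * g)⁻¹)) := by rw [h5, mul_one]
    _ = (F ((k : ZMod n) * g) * F (a * ((k : ZMod n) * g)⁻¹)) *
        F (a * ((k : ZMod n) * g)⁻¹) := by ring
    _ = (liouville k * F g * F (a * ((k : ZMod n) * g)⁻¹)) *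
        F (a * ((k : ZMod n) * g)⁻¹) := by rw [h2, h3]
    _ = liouville k * F g *
        (F (a * ((k : ZMod n) * g)⁻¹) * F (a * ((k : ZMod n) * g)⁻¹)) := by ring
    _ = _ := by rw [h5, mul_one]

/-- the numbers for which multiplication is known -/
def Good (n u : ℕ) : Prop :=
  (u : ZMod n) ≠ 0 ∧ ∀ g : ZMod n, g ≠ 0 → F ((u : ZMod n) * g) = liouville u * F g

theorem Good.mul {u v : ℕ} (hu : Good n u) (hv : Good n v) : Good n (u * v) := by
  refine ⟨?_, ?_⟩
  · rw [Nat.cast_mul]
    exact mul_ne_zero hu.1 hv.1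
  · intro g hg
    rw [Nat.cast_mul, mul_assoc, hu.2 _ (mul_ne_zero hv.1 hg), hv.2 g hg, liouville_apply_mul]
    ring

theorem Good.one : Good n 1 := by
  refine ⟨by simp, ?_⟩
  intro g _
  simp [liouville_apply_one]

theorem Good.pow {u : ℕ} (hu : Good n u) (j : ℕ) : Good n (u ^ j) := by
  induction j with
  | zero =>
    rw [pow_zero]
    exact Good.one
  | succ j ih =>
    rw [pow_succ]
    exact ih.mul hu

/-- `k` is good for `g` if it is good for `u g` -/
theorem of_mul {u k : ℕ} (hu : Good n u) (hk : (k : ZMod n) ≠ 0) {g : ZMod n} (hg : g ≠ 0)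
    (h : F ((k : ZMod n) * ((u : ZMod n) * g)) = liouville k * F ((u : ZMod n) * g)) :
    F ((k : ZMod n) * g) = liouville k * F g := by
  have hu0 : u ≠ 0 := by
    rintro rfl
    exact hu.1 (by simp)
  have h1 := hu.2 ((k : ZMod n) * g) (mul_ne_zero hk hg)
  have h2 := hu.2 g hg
  have h3 := liouville_sq hu0
  have e : (k : ZMod n) * ((u : ZMod n) * g) = (u : ZMod n) * ((k : ZMod n) * g) := by ring
  rw [e, h1, h2] at h
  calc F ((k : ZMod n) * g) = (liouville u * liouville u) * F ((k : ZMod n) * g) := by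
        rw [h3, one_mul]
    _ = liouville u * (liouville u * F ((k : ZMod n) * g)) := by ring
    _ = liouville u * (liouville k * (liouville u * F g)) := by rw [h]
    _ = (liouville u * liouville u) * (liouville k * F g) := by ring
    _ = _ := by rw [h3, one_mul]

theorem cast_ne {k : ℕ} (h0 : 0 < k) (h : k < n) : (k : ZMod n) ≠ 0 := by
  rw [Ne, ZMod.natCast_eq_zero_iff]
  intro hd
  exact absurd (Nat.le_of_dvd h0 hd) (by omega)

/-- the value of a representative -/
theorem val_eq_of {x : ZMod n} {c : ℕ} (hc : c < n) (h : x = (c : ZMod n)) : x.val = c := by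
  rw [h, ZMod.val_natCast, Nat.mod_eq_of_lt hc]

/-- every `0 < k < n` is good -/
theorem good_all (ha : a ≠ 0)
    (H : ∀ m : ℕ, 0 < m → m < 2 * n ^ 2 → (m : ZMod n) = a → liouville m = κ) :
    ∀ k : ℕ, 0 < k → k < n → Good n k := by
  intro k
  induction k using Nat.strong_induction_on with
  | _ k ih =>
  intro hk0 hkn
  have hkz := cast_ne hk0 hkn
  refine ⟨hkz, ?_⟩
  intro g hg
  rcases Nat.lt_or_ge k 3 with hk3 | hk3
  · -- `k ≤ 2`
    apply F_rel ha H hg hkz
    have h1 := ZMod.val_lt g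
    have h2 : k * g.val ≤ 2 * g.val := Nat.mul_le_mul_right _ (by omega)
    omega
  -- `k ≥ 3`
  set X : ℕ := g.val with hX
  have hXn : X < n := ZMod.val_lt g
  have hXpos : 0 < X := Nat.pos_of_ne_zero (val_ne hg)
  have hgX : g = (X : ZMod n) := by rw [hX, ZMod.natCast_zmod_val]
  have hn0 : (0 : ℝ) < n := by exact_mod_cast hn.out.pos
  have hkR : (0 : ℝ) < k := by exact_mod_cast hk0
  obtain ⟨j, h, hh0, hhk, hdist⟩ := Real.exists_int_int_abs_mul_sub_le ((X : ℝ) / n)
    (n := k - 1) (by omega)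
  have e1 : (((k - 1 : ℕ) : ℝ) + 1) = k := by
    rw [Nat.cast_sub (by omega)]
    simp
  rw [e1] at hdist
  obtain ⟨h, rfl⟩ : ∃ h' : ℕ, h = h' := ⟨h.toNat, by omega⟩
  have hh0' : 0 < h := by exact_mod_cast hh0
  have hhk' : h < k := by omega
  have hgood : Good n h := ih h hhk' hh0' (by omega)
  -- the distance in integers
  have hd : ((k : ℤ) * |(h : ℤ) * X - j * n|) ≤ n := by
    have h1 : |((h : ℤ) : ℝ) * (X / n) - j| = |((h : ℝ) * X - j * n)| / n := by
      rw [← abs_of_pos hn0, ← abs_div, abs_of_pos hn0]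
      congr 1
      field_simp
      push_cast
      ring
    rw [h1, div_le_div_iff₀ hn0 hkR] at hdist
    have h2 : (k : ℝ) * |((h : ℝ) * X - j * n)| ≤ n := by linarith
    have h3 : (((k : ℤ) * |(h : ℤ) * X - j * n| : ℤ) : ℝ) ≤ ((n : ℤ) : ℝ) := by
      push_cast
      exact h2
    exact_mod_cast h3
  have hne : (h : ℤ) * X - j * n ≠ 0 := by
    intro h0
    apply mul_ne_zero hgood.1 hg
    rw [hgX]
    have h2 : (((h : ℤ) * X - j * n : ℤ) : ZMod n) = 0 := by rw [h0]; simp
    push_cast at h2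
    rw [ZMod.natCast_self, mul_zero, sub_zero] at h2
    exact h2
  rcases lt_or_gt_of_ne hne with hneg | hpos
  · -- the product is slightly less than a multiple of `n`
    obtain ⟨δ, hδ⟩ : ∃ δ : ℕ, (δ : ℤ) = j * n - (h : ℤ) * X :=
      ⟨(j * n - (h : ℤ) * X).toNat, by omega⟩
    have hδpos : 0 < δ := by omega
    rw [abs_of_neg hneg] at hd
    have hkδ : k * δ ≤ n := by
      have : (k : ℤ) * δ ≤ n := by rw [hδ]; linarith
      exact_mod_cast this
    have hδR : (0 : ℝ) < δ := by exact_mod_cast hδpos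
    obtain ⟨l1, l2, i, hl1, hl1k, hl2, hl2k, hlow, hup⟩ := exists_prod k hk3 ((n : ℝ) / δ) (by
      rw [le_div_iff₀ hδR]
      exact_mod_cast hkδ)
    set u : ℕ := l1 * l2 * (k - 1) ^ i with hu
    have hugood : Good n u := ((ih l1 hl1k hl1 (by omega)).mul (ih l2 hl2k hl2 (by omega))).mul
      ((ih (k - 1) (by omega) (by omega) (by omega)).pow i)
    have huδ : u * δ < n := by
      rw [lt_div_iff₀ hδR] at hup
      exact_mod_cast hup
    have hlow' : (k - 2) * n < k * (u * δ) := by
      have h1 : (1 - 2 / (k : ℝ)) * (n / δ) = ((k : ℝ) - 2) * n / (k * δ) := by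
        field_simp
      rw [h1, div_lt_iff₀ (by positivity)] at hlow
      have h2 : (((k - 2) * n : ℕ) : ℝ) < ((k * (u * δ) : ℕ) : ℝ) := by
        push_cast [Nat.cast_sub (by omega : 2 ≤ k)]
        calc ((k : ℝ) - 2) * n < u * (k * δ) := hlow
          _ = _ := by ring
      exact_mod_cast h2
    apply of_mul (hugood.mul hgood) hkz hg
    apply F_rel ha H (mul_ne_zero (hugood.mul hgood).1 hg) hkz
    have hval : ((((u * h : ℕ)) : ZMod n) * g).val = n - u * δ := by
      apply val_eq_of (by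
        have : 0 < u * δ := Nat.mul_pos (by
          rcases Nat.eq_zero_or_pos u with h0 | h0
          · exact absurd hugood.1 (by rw [h0]; simp)
          · exact h0) hδpos
        omega)
      have h2 : ((n - u * δ : ℕ) : ZMod n) = (((n : ℤ) - u * δ : ℤ) : ZMod n) := by
        rw [← Int.cast_natCast, Nat.cast_sub huδ.le]
        push_cast
        rfl
      rw [h2, hδ, hgX]
      push_cast
      rw [ZMod.natCast_self]
      ring
    rw [hval, Nat.mul_sub]
    have h3 : (k - 2) * n = k * n - 2 * n := Nat.sub_mul k 2 n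
    have h4 : 2 * n ≤ k * n := Nat.mul_le_mul_right n (by omega)
    omega
  · -- the product is slightly greater than a multiple of `n`
    obtain ⟨c, hc⟩ : ∃ c : ℕ, (c : ℤ) = (h : ℤ) * X - j * n :=
      ⟨((h : ℤ) * X - j * n).toNat, by omega⟩
    rw [abs_of_pos hpos, ← hc] at hd
    have hkc : k * c ≤ n := by exact_mod_cast hd
    apply of_mul hgood hkz hg
    apply F_rel ha H (mul_ne_zero hgood.1 hg) hkz
    have hcn : c < n := by
      have : 1 * c < k * c := by
        apply Nat.mul_lt_mul_of_pos_right (by omega)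
        omega
      omega
    have hval : ((h : ZMod n) * g).val = c := by
      apply val_eq_of hcn
      have h2 : ((c : ℕ) : ZMod n) = (((c : ℕ) : ℤ) : ZMod n) := by simp
      rw [h2, hc, hgX]
      push_cast
      rw [ZMod.natCast_self]
      ring
    rw [hval]
    have := hn.out.pos
    omega

/-- multiplicativity -/
theorem F_mul_all (ha : a ≠ 0)
    (H : ∀ m : ℕ, 0 < m → m < 2 * n ^ 2 → (m : ZMod n) = a → liouville m = κ)
    {x y : ZMod n} (hx : x ≠ 0) (hy : y ≠ 0) : F (x * y) = F x * F y := by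
  have h1 := (good_all ha H x.val (Nat.pos_of_ne_zero (val_ne hx)) (ZMod.val_lt x)).2 y hy
  rw [ZMod.natCast_zmod_val] at h1
  exact h1

/-- no prime below `n` is a square modulo `n` -/
theorem not_square (ha : a ≠ 0)
    (H : ∀ m : ℕ, 0 < m → m < 2 * n ^ 2 → (m : ZMod n) = a → liouville m = κ) {q : ℕ}
    (hq : q.Prime) (hqn : q < n) : ¬ IsSquare (q : ZMod n) := by
  rintro ⟨y, hy⟩
  have hq0 := cast_ne hq.pos hqn
  have hy0 : y ≠ 0 := by
    rintro rfl
    rw [mul_zero] at hy
    exact hq0 hy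
  have h1 := F_mul_all ha H hy0 hy0
  rw [← hy, F_sq hy0] at h1
  unfold F at h1
  rw [ZMod.val_natCast, Nat.mod_eq_of_lt hqn, liouville_apply hq.ne_zero,
    cardFactors_apply_prime hq] at h1
  norm_num at h1

end

/-- For a prime `n > 5` some prime below `n` is a square modulo `n`. -/
theorem exists_square {n : ℕ} [hn : Fact n.Prime] (h5 : 5 < n) :
    ∃ q : ℕ, q.Prime ∧ q < n ∧ IsSquare (q : ZMod n) := by
  have hn2 : n ≠ 2 := by omega
  have hodd : n % 2 = 1 := Nat.odd_iff.1 (hn.out.odd_of_ne_two hn2)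
  by_cases h8 : n % 8 = 1 ∨ n % 8 = 7
  · refine ⟨2, Nat.prime_two, by omega, ?_⟩
    have := (ZMod.exists_sq_eq_two_iff hn2).2 h8
    exact_mod_cast this
  push Not at h8
  have hcase : n % 8 = 3 ∨ n % 8 = 5 := by omega
  rcases hcase with h3 | h3
  · -- `n + 1 = 4 * odd`
    obtain ⟨c, hc⟩ : ∃ c, n + 1 = 4 * c := ⟨(n + 1) / 4, by omega⟩
    have hc1 : c ≠ 1 := by omega
    have hcodd : c % 2 = 1 := by omega
    obtain ⟨q, hq, hqc⟩ := Nat.exists_prime_and_dvd hc1
    have hq2 : q ≠ 2 := by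
      rintro rfl
      omega
    have hqle : q ≤ c := Nat.le_of_dvd (by omega) hqc
    haveI : Fact q.Prime := ⟨hq⟩
    have hqn : q < n := by omega
    refine ⟨q, hq, hqn, ?_⟩
    have hn1 : ((n : ℕ) : ZMod q) = -1 := by
      have h1 : (((n + 1 : ℕ)) : ZMod q) = 0 := by
        rw [ZMod.natCast_eq_zero_iff, hc]
        exact hqc.mul_left 4
      push_cast at h1
      exact eq_neg_of_add_eq_zero_left h1
    have hqodd : q % 2 = 1 := Nat.odd_iff.1 (hq.odd_of_ne_two hq2)
    have hq4 : q % 4 = 1 ∨ q % 4 = 3 := by omega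
    rcases hq4 with h4 | h4
    · rw [← ZMod.exists_sq_eq_prime_iff_of_mod_four_eq_one h4 hn2, hn1,
        ZMod.exists_sq_eq_neg_one_iff]
      omega
    · rw [ZMod.exists_sq_eq_prime_iff_of_mod_four_eq_three (by omega) h4 (by omega), hn1,
        ZMod.exists_sq_eq_neg_one_iff]
      omega
  · -- `n - 1 = 4 * odd`
    obtain ⟨c, hc⟩ : ∃ c, n = 4 * c + 1 := ⟨n / 4, by omega⟩
    have hc1 : c ≠ 1 := by omega
    obtain ⟨q, hq, hqc⟩ := Nat.exists_prime_and_dvd hc1
    have hq2 : q ≠ 2 := by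
      rintro rfl
      omega
    have hqle : q ≤ c := Nat.le_of_dvd (by omega) hqc
    haveI : Fact q.Prime := ⟨hq⟩
    refine ⟨q, hq, by omega, ?_⟩
    rw [ZMod.exists_sq_eq_prime_iff_of_mod_four_eq_one (by omega) hq2]
    have hn1 : ((n : ℕ) : ZMod q) = 1 := by
      rw [hc]
      push_cast
      have h1 : ((c : ℕ) : ZMod q) = 0 := (ZMod.natCast_eq_zero_iff c q).2 hqc
      rw [h1]
      ring
    rw [hn1]
    exact ⟨1, by ring⟩

/-- the small primes -/
theorem small {n : ℕ} (hn : n = 2 ∨ n = 3 ∨ n = 5) (a : ℕ) (ha : a < n) (r : ℕ) (hr : r < 2) :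
    ∃ m : ℕ, 0 < m ∧ m < 2 * n ^ 2 ∧ m % n = a ∧ cardFactors m % 2 = r := by
  have e : ∀ m : ℕ, m ≠ 0 → cardFactors m = m.primeFactorsList.length := fun m _ =>
    cardFactors_apply
  rcases hn with rfl | rfl | rfl
  · interval_cases a <;> interval_cases r
    · exact ⟨4, by norm_num, by norm_num, by norm_num, by
        rw [show (4 : ℕ) = 2 ^ 2 by norm_num, cardFactors_apply_prime_pow Nat.prime_two]⟩
    · exact ⟨2, by norm_num, by norm_num, by norm_num, by
        rw [cardFactors_apply_prime Nat.prime_two]⟩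
    · exact ⟨1, by norm_num, by norm_num, by norm_num, by rw [cardFactors_one]⟩
    · exact ⟨3, by norm_num, by norm_num, by norm_num, by
        rw [cardFactors_apply_prime Nat.prime_three]⟩
  · interval_cases a <;> interval_cases r
    · exact ⟨9, by norm_num, by norm_num, by norm_num, by
        rw [show (9 : ℕ) = 3 ^ 2 by norm_num, cardFactors_apply_prime_pow Nat.prime_three]⟩
    · exact ⟨3, by norm_num, by norm_num, by norm_num, by
        rw [cardFactors_apply_prime Nat.prime_three]⟩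
    · exact ⟨1, by norm_num, by norm_num, by norm_num, by rw [cardFactors_one]⟩
    · exact ⟨7, by norm_num, by norm_num, by norm_num, by
        rw [cardFactors_apply_prime (by norm_num)]⟩
    · exact ⟨14, by norm_num, by norm_num, by norm_num, by
        rw [show (14 : ℕ) = 2 * 7 by norm_num, cardFactors_mul (by norm_num) (by norm_num),
          cardFactors_apply_prime Nat.prime_two, cardFactors_apply_prime (by norm_num)]⟩
    · exact ⟨2, by norm_num, by norm_num, by norm_num, by
        rw [cardFactors_apply_prime Nat.prime_two]⟩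
  · interval_cases a <;> interval_cases r
    · exact ⟨10, by norm_num, by norm_num, by norm_num, by
        rw [show (10 : ℕ) = 2 * 5 by norm_num, cardFactors_mul (by norm_num) (by norm_num),
          cardFactors_apply_prime Nat.prime_two, cardFactors_apply_prime Nat.prime_five]⟩
    · exact ⟨5, by norm_num, by norm_num, by norm_num, by
        rw [cardFactors_apply_prime Nat.prime_five]⟩
    · exact ⟨1, by norm_num, by norm_num, by norm_num, by rw [cardFactors_one]⟩
    · exact ⟨11, by norm_num, by norm_num, by norm_num, by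
        rw [cardFactors_apply_prime (by norm_num)]⟩
    · exact ⟨22, by norm_num, by norm_num, by norm_num, by
        rw [show (22 : ℕ) = 2 * 11 by norm_num, cardFactors_mul (by norm_num) (by norm_num),
          cardFactors_apply_prime Nat.prime_two, cardFactors_apply_prime (by norm_num)]⟩
    · exact ⟨2, by norm_num, by norm_num, by norm_num, by
        rw [cardFactors_apply_prime Nat.prime_two]⟩
    · exact ⟨33, by norm_num, by norm_num, by norm_num, by
        rw [show (33 : ℕ) = 3 * 11 by norm_num, cardFactors_mul (by norm_num) (by norm_num),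
          cardFactors_apply_prime Nat.prime_three, cardFactors_apply_prime (by norm_num)]⟩
    · exact ⟨3, by norm_num, by norm_num, by norm_num, by
        rw [cardFactors_apply_prime Nat.prime_three]⟩
    · exact ⟨4, by norm_num, by norm_num, by norm_num, by
        rw [show (4 : ℕ) = 2 ^ 2 by norm_num, cardFactors_apply_prime_pow Nat.prime_two]⟩
    · exact ⟨19, by norm_num, by norm_num, by norm_num, by
        rw [cardFactors_apply_prime (by norm_num)]⟩

end AAux

open AAux ArithmeticFunction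

/-- For a prime `n` every residue class modulo `n` contains an integer `0 < m < 2 n ^ 2` with an
even number of prime factors and one with an odd number of prime factors (with multiplicity). -/
theorem parity_prime (n : ℕ) (hn : n.Prime) (a : ℕ) (r : ℕ) (hr : r < 2) :
    ∃ m : ℕ, 0 < m ∧ m < 2 * n ^ 2 ∧ m ≡ a [MOD n] ∧ cardFactors m % 2 = r := by
  haveI : Fact n.Prime := ⟨hn⟩
  rcases Nat.lt_or_ge 5 n with h5 | h5
  · by_cases ha : (a : ZMod n) = 0
    · -- the class of `0`
      have hna : n ∣ a := (ZMod.natCast_eq_zero_iff a n).1 ha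
      have hmod : ∀ t : ℕ, t * n ≡ a [MOD n] := by
        intro t
        have h1 : a ≡ 0 [MOD n] := (Nat.modEq_zero_iff_dvd).2 hna
        have h2 : t * n ≡ 0 [MOD n] := (Nat.modEq_zero_iff_dvd).2 (Dvd.intro_left t rfl)
        exact h2.trans h1.symm
      interval_cases r
      · refine ⟨2 * n, by omega, by nlinarith, hmod 2, ?_⟩
        rw [cardFactors_mul (by norm_num) hn.ne_zero, cardFactors_apply_prime Nat.prime_two,
          cardFactors_apply_prime hn]
      · refine ⟨1 * n, by omega, by nlinarith, hmod 1, ?_⟩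
        rw [one_mul, cardFactors_apply_prime hn]
    · by_contra hno
      push Not at hno
      obtain ⟨q, hq, hqn, hsq⟩ := exists_square (n := n) h5
      refine not_square (κ := -(-1) ^ r) ha ?_ hq hqn hsq
      intro m hm0 hmn hma
      have h1 := hno m hm0 hmn ((ZMod.natCast_eq_natCast_iff m a n).1 hma)
      rw [liouville_apply hm0.ne']
      rcases Nat.even_or_odd (cardFactors m) with h2 | h2
      · have h3 : r = 1 := by
          have := Nat.even_iff.1 h2
          omega
        rw [h2.neg_one_pow, h3]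
        norm_num
      · have h3 : r = 0 := by
          have := Nat.odd_iff.1 h2
          omega
        rw [h2.neg_one_pow, h3]
        norm_num
  · have hcases : n = 2 ∨ n = 3 ∨ n = 5 := by
      have h2 := hn.two_le
      interval_cases n
      · exact Or.inl rfl
      · exact Or.inr (Or.inl rfl)
      · exact absurd hn (by norm_num)
      · exact Or.inr (Or.inr rfl)
    obtain ⟨m, h1, h2, h3, h4⟩ := small hcases (a % n) (Nat.mod_lt _ hn.pos) r hr
    exact ⟨m, h1, h2, h3, h4⟩

end Pool.Agent.Lib.MP_da4d09_nt.PL
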