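import Mathlib

/-!
Definitions and statements of the modules of the parity version of Linnik's theorem.
`k` is large, `z = 2 ^ (2 ^ k)`, `s = z ^ 16`, and `n` is between `z ^ A` and `z ^ (2 A)`.
-/

set_option autoImplicit false

namespace Pool.Agent.Lib.MP_da4d09_nt.PL

open Finset

/-- `z = 2 ^ (2 ^ k)` -/
def zz (k : ℕ) : ℕ := 2 ^ (2 ^ k)

/-- `s = z ^ 16` -/
def ss (k : ℕ) : ℕ := zz k ^ 16

/-- all prime factors of `m` exceed `z` -/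
def Rough (z m : ℕ) : Prop := 0 < m ∧ ∀ p : ℕ, p.Prime → p ∣ m → z < p

/-- the primes up to `z` -/
def PP (k : ℕ) : Finset ℕ := (Finset.range (zz k + 1)).filter Nat.Prime

/-- the group of residue classes generated by the primes in `(z, s]` -/
def HH (k n : ℕ) : Subgroup (ZMod n)ˣ :=
  Subgroup.closure {u | ∃ q : ℕ, q.Prime ∧ zz k < q ∧ q ≤ ss k ∧ (u : ZMod n) = (q : ZMod n)}

/-- (W) weights of the lower bound sieve -/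
def StW : Prop := ∃ k0 : ℕ, ∀ k ≥ k0, ∃ w : Finset ℕ → ℝ, (∀ D, |w D| ≤ 1) ∧
  (∀ D ∈ (PP k).powerset, w D ≠ 0 → ∏ q ∈ D, q ≤ zz k ^ 15) ∧
  (∀ h : ℕ → ℝ, (∀ q, 0 ≤ h q) → (∀ q, h q ≤ 1) →
    ∑ D ∈ (PP k).powerset, w D * ∏ q ∈ D, h q ≤ ∏ q ∈ PP k, (1 - h q)) ∧
  ∀ h : ℕ → ℝ, (∀ q, 0 ≤ h q) → (∀ q ∈ PP k, h q ≤ 1 / (q : ℝ)) →
    1 / (2 : ℝ) ^ (3 * k) ≤ ∑ D ∈ (PP k).powerset, w D * ∏ q ∈ D, h q

/-- (R) every reduced residue class contains a small rough number -/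
def StR : Prop := ∃ k0 : ℕ, ∀ k ≥ k0, ∀ n g : ℕ, 0 < n → g.Coprime n →
  ∃ v : ℕ, Rough (zz k) v ∧ v ≡ g [MOD n] ∧ v ≤ n * ss k

/-- (F1) Fourier expansion of a counting function -/
def StF1 : Prop := ∀ (n : ℕ) (_ : NeZero n) (B : Finset (ZMod n)) (Y : ℕ),
  |((((Finset.Icc 1 Y).filter fun v : ℕ => (v : ZMod n) ∈ B).card : ℕ) : ℝ) -
      (B.card : ℝ) * Y / n| ≤
    ∑ j ∈ Finset.Ico 1 n, ‖∑ x ∈ B, ZMod.stdAddChar ((j : ZMod n) * x)‖ /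
      (2 * ((min j (n - j) : ℕ) : ℝ))

/-- (F2) the Fourier coefficients of an invariant set -/
def StF2 : Prop := ∀ (n : ℕ) (_ : NeZero n) (B : Finset (ZMod n)) (H : Subgroup (ZMod n)ˣ),
  (∀ h ∈ H, ∀ x ∈ B, (h : ZMod n) * x ∈ B) → ∀ j : ℕ, 1 ≤ j → j < n →
    ‖∑ x ∈ B, ZMod.stdAddChar ((j : ZMod n) * x)‖ ^ 2 * (Nat.card H : ℝ) ≤
      (n : ℝ) * B.card * (Nat.gcd j n : ℕ)

/-- (F3) a sum of greatest common divisors -/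
def StF3 : Prop := ∀ n : ℕ, 0 < n →
  ∑ j ∈ Finset.Ico 1 n, √((Nat.gcd j n : ℕ) : ℝ) / (2 * ((min j (n - j) : ℕ) : ℝ)) ≤
    (n.divisors.card : ℝ) * (1 + Real.log n)

/-- (F) sets which are invariant under a big group are equidistributed -/
def StF : Prop := ∀ (n : ℕ) (_ : NeZero n) (B : Finset (ZMod n)) (H : Subgroup (ZMod n)ˣ),
  (∀ h ∈ H, ∀ x ∈ B, (h : ZMod n) * x ∈ B) → ∀ Y : ℕ,
  |((((Finset.Icc 1 Y).filter fun v : ℕ => (v : ZMod n) ∈ B).card : ℕ) : ℝ) -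
      (B.card : ℝ) * Y / n| ≤
    √((n : ℝ) * B.card / Nat.card H) * (n.divisors.card * (1 + Real.log n))

/-- (C) the group `H` is big -/
def StC : Prop := ∀ A : ℕ, ∃ k0 : ℕ, ∀ k ≥ k0, ∀ n : ℕ, 0 < n → n ≤ zz k ^ (2 * A) →
  n ≤ Nat.card (HH k n) * ss k ^ 2

/-- (S) sets which are invariant under `H` contain small rough numbers -/
def StS : Prop := ∀ A : ℕ, ∃ k0 : ℕ, ∀ k ≥ k0, ∀ n : ℕ, 0 < n → n ≤ zz k ^ (2 * A) →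
  ∀ B : Set (ZMod n)ˣ, B.Nonempty → (∀ h ∈ HH k n, ∀ g ∈ B, h * g ∈ B) →
  ∃ v : ℕ, Rough (zz k) v ∧ v ≤ (Nat.sqrt n + 1) * ss k ^ 5 ∧
    ∃ g ∈ B, (g : ZMod n) = (v : ZMod n)

/-- (G1) the square of a real primitive Gauss sum with values in a field -/
def StG1 : Prop := ∀ (N : ℕ) (_ : NeZero N) (K : Type) (_ : Field K) (χ : DirichletCharacter K N)
  (e : AddChar (ZMod N) K), χ.IsPrimitive → χ.IsQuadratic → e.IsPrimitive →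
  gaussSum χ e ^ 2 = χ (-1) * (N : K)

/-- (G) real characters and squares -/
def StG : Prop := ∀ (n : ℕ), 0 < n → ∀ σ : (ZMod n)ˣ →* ℤˣ, ∃ D : ℤ, D ≠ 0 ∧ |D| ≤ n ∧
  ∀ (p : ℕ) (hp : p.Coprime n), p.Prime → p ≠ 2 → ¬ (p : ℤ) ∣ D ∧
    (IsSquare (D : ZMod p) → σ (ZMod.unitOfCoprime p hp) = 1)

/-- (L1) the powers of a prime in the values of a quadratic polynomial -/
def StL1 : Prop := ∀ (p : ℕ) (D : ℤ) (T M : ℕ), p.Prime →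
  (∀ t ∈ Finset.Ioc T (2 * T), (t : ℤ) ^ 2 - D ≠ 0 ∧ ((t : ℤ) ^ 2 - D).natAbs ≤ M) →
  ∑ t ∈ Finset.Ioc T (2 * T), (((t : ℤ) ^ 2 - D).natAbs.factorization p : ℝ) * Real.log p ≤
    4 * T * (Real.log p / ((p : ℝ) - 1)) + 2 * Real.log M

/-- (L) `t ^ 2 - D` has a big prime factor for some `t` -/
def StL : Prop := ∀ A : ℕ, 20 ≤ A → ∃ k0 : ℕ, ∀ k ≥ k0, ∀ (n : ℕ) (D : ℤ),
  zz k ^ A ≤ n → n ≤ zz k ^ (2 * A) → D ≠ 0 → |D| ≤ n →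
  ∃ (t : ℤ) (p : ℕ), p.Prime ∧ zz k < p ∧ ¬ p ∣ n ∧ (p : ℤ) ∣ t ^ 2 - D ∧ p ≤ n * ss k

/-- (X) if the parity is constant on a residue class, then the Liouville function is a character
on the small rough numbers -/
def StX : Prop := ∀ A : ℕ, ∃ k0 : ℕ, ∀ k ≥ k0, ∀ n : ℕ, 0 < n → n ≤ zz k ^ (2 * A) →
  ∀ (a : ℕ) (κ : ℤ), a.Coprime n →
  (∀ m : ℕ, Rough (zz k) m → m ≡ a [MOD n] → m ≤ n ^ 2 * ss k ^ 12 →
    ArithmeticFunction.liouville m = κ) →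
  ∃ σ : (ZMod n)ˣ →* ℤˣ, ∀ (v : ℕ) (hv : v.Coprime n), Rough (zz k) v → v ≤ n * ss k →
    ((σ (ZMod.unitOfCoprime v hv) : ℤˣ) : ℤ) = ArithmeticFunction.liouville v

/-- (B) both parities occur -/
def StB : Prop := ∀ A : ℕ, 20 ≤ A → ∃ k0 : ℕ, ∀ k ≥ k0, ∀ n : ℕ,
  zz k ^ A ≤ n → n ≤ zz k ^ (2 * A) → ∀ (a : ℕ), a.Coprime n → ∀ κ : ℤ, κ = 1 ∨ κ = -1 →
  ∃ m : ℕ, Rough (zz k) m ∧ m ≡ a [MOD n] ∧ m ≤ n ^ 2 * ss k ^ 12 ∧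
    ArithmeticFunction.liouville m = κ

end Pool.Agent.Lib.MP_da4d09_nt.PL
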