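import Mathlib
import Pool.Agent.Lib.MP_da4d09_nt.PL.Defs

/-!
Parity version of Linnik's theorem, the conclusion: `StX`, `StG`, `StL` imply `StB`, and the
final form of the theorem.
-/

set_option autoImplicit false

namespace Pool.Agent.Lib.MP_da4d09_nt.PL

open Finset

namespace BAux

theorem zz_two_le (k : ℕ) : 2 ≤ zz k := by
  unfold zz
  calc 2 = 2 ^ 1 := by norm_num
    _ ≤ 2 ^ 2 ^ k := Nat.pow_le_pow_right (by norm_num) Nat.one_le_two_pow

theorem zz_succ (k : ℕ) : zz (k + 1) = zz k ^ 2 := by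
  unfold zz
  rw [← pow_mul, pow_succ]

theorem zz_mono {j k : ℕ} (h : j ≤ k) : zz j ≤ zz k := by
  unfold zz
  exact Nat.pow_le_pow_right (by norm_num) (Nat.pow_le_pow_right (by norm_num) h)

theorem lt_zz (k : ℕ) : k < zz k := by
  unfold zz
  calc k < 2 ^ k := Nat.lt_two_pow_self
    _ < 2 ^ 2 ^ k := Nat.lt_two_pow_self

/-- the choice of `k` -/
theorem exists_k (A k0 n : ℕ) (hA : 0 < A) (hn : zz k0 ^ A ≤ n) :
    ∃ k, k0 ≤ k ∧ zz k ^ A ≤ n ∧ n ≤ zz k ^ (2 * A) := by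
  classical
  have hex : ∃ k, n < zz (k + 1) ^ A := by
    refine ⟨n, ?_⟩
    calc n < zz (n + 1) := lt_of_le_of_lt (Nat.le_succ n) (lt_zz (n + 1))
      _ ≤ zz (n + 1) ^ A := Nat.le_self_pow hA.ne' _
  have h1 : n < zz (Nat.find hex + 1) ^ A := Nat.find_spec hex
  have hk0 : k0 ≤ Nat.find hex := by
    by_contra hlt
    push Not at hlt
    have h2 : zz (Nat.find hex + 1) ≤ zz k0 := zz_mono hlt
    have h3 := Nat.pow_le_pow_left h2 A
    omega
  refine ⟨Nat.find hex, hk0, ?_, ?_⟩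
  · rcases Nat.eq_zero_or_pos (Nat.find hex) with h0 | hpos
    · have : k0 = 0 := by omega
      rw [h0]
      rw [this] at hn
      exact hn
    · by_contra hlt
      push Not at hlt
      have h2 : Nat.find hex - 1 < Nat.find hex := by omega
      apply Nat.find_min hex h2
      have e : Nat.find hex - 1 + 1 = Nat.find hex := by omega
      rw [e]
      exact hlt
  · rw [zz_succ, ← pow_mul] at h1
    exact h1.le

theorem liouville_prime {p : ℕ} (hp : p.Prime) : ArithmeticFunction.liouville p = -1 := by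
  rw [ArithmeticFunction.liouville_apply hp.ne_zero,
    ArithmeticFunction.cardFactors_apply_prime hp, pow_one]

theorem liouville_eq (m : ℕ) (hm : 0 < m) :
    ArithmeticFunction.liouville m = 1 ∨ ArithmeticFunction.liouville m = -1 := by
  rw [ArithmeticFunction.liouville_apply hm.ne']
  exact neg_one_pow_eq_or ℤ _

end BAux

open BAux

/-- (B) both parities occur -/
theorem stB (hX : StX) (hG : StG) (hL : StL) : StB := by
  intro A hA
  obtain ⟨k1, h1⟩ := hX A
  obtain ⟨k2, h2⟩ := hL A hA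
  refine ⟨max k1 k2, ?_⟩
  intro k hk n hn1 hn2 a ha κ hκ
  have hk1 : k1 ≤ k := (le_max_left _ _).trans hk
  have hk2 : k2 ≤ k := (le_max_right _ _).trans hk
  have hzpos : 0 < zz k := lt_of_lt_of_le (by norm_num) (zz_two_le k)
  have hpos : 0 < n := lt_of_lt_of_le (pow_pos hzpos A) hn1
  by_contra hno
  push Not at hno
  obtain ⟨σ, hσ⟩ := h1 k hk1 n hpos hn2 a (-κ) ha (by
    intro m hm hma hmb
    have h3 := hno m hm hma hmb
    rcases liouville_eq m hm.1 with h4 | h4 <;> rcases hκ with h5 | h5 <;>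
      rw [h4, h5] at h3 <;> rw [h4, h5] <;> first | exact absurd rfl h3 | norm_num)
  obtain ⟨D, hD0, hDn, hD⟩ := hG n hpos σ
  obtain ⟨t, p, hp, hzp, hpn, hpd, hpb⟩ := h2 k hk2 n D hn1 hn2 hD0 hDn
  have hcop : p.Coprime n := hp.coprime_iff_not_dvd.2 hpn
  have hne2 : p ≠ 2 := by
    have := zz_two_le k
    omega
  obtain ⟨-, hsq⟩ := hD p hcop hp hne2
  have hS : IsSquare (D : ZMod p) := by
    refine ⟨(t : ZMod p), ?_⟩
    have h3 : ((t ^ 2 - D : ℤ) : ZMod p) = 0 := (ZMod.intCast_zmod_eq_zero_iff_dvd _ p).2 hpd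
    push_cast at h3
    rw [sub_eq_zero] at h3
    rw [← h3]
    ring
  have hrough : Rough (zz k) p := by
    refine ⟨hp.pos, fun r hr hrp => ?_⟩
    rw [(Nat.prime_dvd_prime_iff_eq hr hp).1 hrp]
    exact hzp
  have h4 := hσ p hcop hrough hpb
  rw [hsq hS, liouville_prime hp] at h4
  norm_num at h4

/-- The parity version of Linnik's theorem, with the exponent `2 + ε`: every reduced residue class
modulo `n` contains integers `m ≤ n ^ (2 + ε)` with a bounded number of prime factors, all greater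
than `n ^ (1 / C)`, of both parities. -/
theorem parity_linnik (hB : StB) (ε : ℝ) (hε : 0 < ε) :
    ∃ C N : ℕ, ∀ n : ℕ, N ≤ n → ∀ a : ℕ, a.Coprime n → ∀ r : ℕ, r < 2 →
      ∃ m : ℕ, m ≡ a [MOD n] ∧ (m : ℝ) ≤ (n : ℝ) ^ (2 + ε) ∧
        (∀ p : ℕ, p.Prime → p ∣ m → n < p ^ C) ∧
        ArithmeticFunction.cardFactors m ≤ C ∧ ArithmeticFunction.cardFactors m % 2 = r := by
  obtain ⟨e0, he0⟩ := exists_nat_ge (192 / ε)
  set A : ℕ := max 20 e0 with hA
  have hA20 : 20 ≤ A := le_max_left _ _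
  have hAe : 192 / ε ≤ (A : ℝ) := he0.trans (by exact_mod_cast le_max_right _ _)
  obtain ⟨k0, hk0⟩ := hB A hA20
  refine ⟨2 * A * 16, max 1 (zz k0 ^ A), ?_⟩
  intro n hn a ha r hr
  obtain ⟨k, hk, hn1, hn2⟩ := exists_k A k0 n (by omega) ((le_max_right _ _).trans hn)
  have hn0 : 0 < n := lt_of_lt_of_le (by norm_num) ((le_max_left _ _).trans hn)
  obtain ⟨m, hm, hma, hmb, hml⟩ := hk0 k hk n hn1 hn2 a ha ((-1) ^ r) (neg_one_pow_eq_or ℤ r)
  have hz2 := zz_two_le k
  have hz1 : (1 : ℝ) ≤ zz k := by exact_mod_cast le_trans (by norm_num) hz2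
  have hzn : (zz k : ℝ) ^ A ≤ n := by exact_mod_cast hn1
  have hs : ss k ^ 12 = zz k ^ 192 := by
    unfold ss
    rw [← pow_mul]
  have hbound : (m : ℝ) ≤ (n : ℝ) ^ (2 + ε) := by
    have h1 : (m : ℝ) ≤ (n : ℝ) ^ 2 * (zz k : ℝ) ^ 192 := by
      rw [hs] at hmb
      exact_mod_cast hmb
    have hnR : (0 : ℝ) < n := by exact_mod_cast hn0
    have h2 : (zz k : ℝ) ^ 192 ≤ (n : ℝ) ^ ε := by
      have h3 : ((zz k : ℝ) ^ A) ^ ε ≤ (n : ℝ) ^ ε :=
        Real.rpow_le_rpow (by positivity) hzn hε.le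
      refine le_trans ?_ h3
      rw [← Real.rpow_natCast (zz k : ℝ) A, ← Real.rpow_mul (by positivity),
        ← Real.rpow_natCast (zz k : ℝ) 192]
      apply Real.rpow_le_rpow_of_exponent_le hz1
      rw [div_le_iff₀ hε] at hAe
      push_cast
      linarith
    rw [Real.rpow_add hnR]
    refine h1.trans ?_
    have e : (n : ℝ) ^ (2 : ℝ) = (n : ℝ) ^ 2 := by exact_mod_cast Real.rpow_natCast (n : ℝ) 2
    rw [e]
    exact mul_le_mul_of_nonneg_left h2 (by positivity)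
  have hcard : ArithmeticFunction.cardFactors m ≤ 2 * A * 16 := by
    -- `z ^ Ω(m) ≤ m ≤ n ^ 2 s ^ 12 ≤ z ^ (4 A + 192)`
    have h1 : zz k ^ ArithmeticFunction.cardFactors m ≤ m := by
      rw [ArithmeticFunction.cardFactors_apply]
      conv_rhs => rw [← Nat.prod_primeFactorsList hm.1.ne']
      apply List.pow_card_le_prod
      intro q hq
      exact (hm.2 q (Nat.prime_of_mem_primeFactorsList hq)
        (Nat.dvd_of_mem_primeFactorsList hq)).le
    have h2 : m ≤ zz k ^ (4 * A + 192) := by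
      rw [hs] at hmb
      refine hmb.trans ?_
      rw [pow_add]
      apply Nat.mul_le_mul_right
      calc n ^ 2 ≤ (zz k ^ (2 * A)) ^ 2 := Nat.pow_le_pow_left hn2 2
        _ = zz k ^ (4 * A) := by rw [← pow_mul]; congr 1; ring
    have h3 := (Nat.pow_le_pow_iff_right (by omega : 1 < zz k)).1 (h1.trans h2)
    omega
  refine ⟨m, hma, hbound, ?_, hcard, ?_⟩
  · intro p hp hpm
    have h1 := hm.2 p hp hpm
    calc n ≤ zz k ^ (2 * A) := hn2
      _ < p ^ (2 * A) := Nat.pow_lt_pow_left h1 (by omega)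
      _ ≤ p ^ (2 * A * 16) := Nat.pow_le_pow_right hp.pos (by omega)
  · rw [ArithmeticFunction.liouville_apply hm.1.ne'] at hml
    rcases Nat.even_or_odd (ArithmeticFunction.cardFactors m) with h2 | h2
    · rw [h2.neg_one_pow] at hml
      have : r = 0 := by
        interval_cases r
        · rfl
        · norm_num at hml
      rw [this, Nat.even_iff.1 h2]
    · rw [h2.neg_one_pow] at hml
      have : r = 1 := by
        interval_cases r
        · norm_num at hml
        · rfl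
      rw [this, Nat.odd_iff.1 h2]

/-- A given modulus: the theorem of Dirichlet. -/
theorem exists_dirichlet (n : ℕ) (hn : 0 < n) (a : ℕ) (ha : a.Coprime n) (r : ℕ) (hr : r < 2) :
    ∃ m : ℕ, m ≡ a [MOD n] ∧ (∀ p : ℕ, p.Prime → p ∣ m → n < p) ∧
      ArithmeticFunction.cardFactors m ≤ 2 ∧ ArithmeticFunction.cardFactors m % 2 = r := by
  have : NeZero n := ⟨hn.ne'⟩
  obtain ⟨q, hqn, hq, hqa⟩ := Nat.forall_exists_prime_gt_and_modEq n hn.ne' ha
  interval_cases r
  · obtain ⟨q', hqn', hq', hqa'⟩ := Nat.forall_exists_prime_gt_and_modEq n hn.ne'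
      (Nat.coprime_one_left n)
    have hc : ArithmeticFunction.cardFactors (q * q') = 2 := by
      rw [ArithmeticFunction.cardFactors_mul hq.ne_zero hq'.ne_zero,
        ArithmeticFunction.cardFactors_apply_prime hq,
        ArithmeticFunction.cardFactors_apply_prime hq']
    refine ⟨q * q', ?_, ?_, hc.le, by rw [hc]⟩
    · have h1 := hqa.mul hqa'
      rwa [mul_one] at h1
    · intro p hp hpd
      rcases (Nat.Prime.dvd_mul hp).1 hpd with h | h
      · rw [(Nat.prime_dvd_prime_iff_eq hp hq).1 h]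
        exact hqn
      · rw [(Nat.prime_dvd_prime_iff_eq hp hq').1 h]
        exact hqn'
  · have hc : ArithmeticFunction.cardFactors q = 1 :=
      ArithmeticFunction.cardFactors_apply_prime hq
    refine ⟨q, hqa, ?_, by rw [hc]; norm_num, by rw [hc]⟩
    intro p hp hpd
    rw [(Nat.prime_dvd_prime_iff_eq hp hq).1 hpd]
    exact hqn

/-- The parity version of Linnik's theorem for all moduli. -/
theorem parity_linnik_all (hB : StB) (ε : ℝ) (hε : 0 < ε) :
    ∃ C : ℕ, ∀ n : ℕ, 0 < n → ∀ a : ℕ, a.Coprime n → ∀ r : ℕ, r < 2 →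
      ∃ m : ℕ, m ≡ a [MOD n] ∧ (m : ℝ) ≤ C * (n : ℝ) ^ (2 + ε) ∧
        (∀ p : ℕ, p.Prime → p ∣ m → n < p ^ C) ∧
        ArithmeticFunction.cardFactors m ≤ C ∧ ArithmeticFunction.cardFactors m % 2 = r := by
  obtain ⟨C0, N, h0⟩ := parity_linnik hB ε hε
  -- one modulus
  have h1 : ∀ n : ℕ, 0 < n → ∃ C : ℕ, ∀ a : ℕ, a.Coprime n → ∀ r : ℕ, r < 2 →
      ∃ m : ℕ, m ≤ C ∧ m ≡ a [MOD n] ∧ (∀ p : ℕ, p.Prime → p ∣ m → n < p) ∧
        ArithmeticFunction.cardFactors m ≤ 2 ∧ ArithmeticFunction.cardFactors m % 2 = r := by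
    intro n hn
    have h2 : ∀ a r : ℕ, ∃ m : ℕ, a.Coprime n → r < 2 → m ≡ a [MOD n] ∧
        (∀ p : ℕ, p.Prime → p ∣ m → n < p) ∧
        ArithmeticFunction.cardFactors m ≤ 2 ∧ ArithmeticFunction.cardFactors m % 2 = r := by
      intro a r
      by_cases h : a.Coprime n ∧ r < 2
      · obtain ⟨m, hm⟩ := exists_dirichlet n hn a h.1 r h.2
        exact ⟨m, fun _ _ => hm⟩
      · exact ⟨0, fun ha hr => absurd ⟨ha, hr⟩ h⟩
    choose f hf using h2
    refine ⟨∑ a ∈ range n, ∑ r ∈ range 2, f a r, ?_⟩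
    intro a ha r hr
    have ha' : (a % n).Coprime n := (Nat.mod_modEq a n).gcd_eq.trans ha
    obtain ⟨g1, g2, g3, g4⟩ := hf (a % n) r ha' hr
    refine ⟨f (a % n) r, ?_, g1.trans (Nat.mod_modEq a n), g2, g3, g4⟩
    calc f (a % n) r ≤ ∑ r ∈ range 2, f (a % n) r :=
          Finset.single_le_sum (f := fun r => f (a % n) r) (fun _ _ => Nat.zero_le _)
            (mem_range.2 hr)
      _ ≤ ∑ a ∈ range n, ∑ r ∈ range 2, f a r :=
          Finset.single_le_sum (f := fun a => ∑ r ∈ range 2, f a r) (fun _ _ => Nat.zero_le _)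
            (mem_range.2 (Nat.mod_lt _ hn))
  have h3 : ∀ n : ℕ, ∃ C : ℕ, 0 < n → ∀ a : ℕ, a.Coprime n → ∀ r : ℕ, r < 2 →
      ∃ m : ℕ, m ≤ C ∧ m ≡ a [MOD n] ∧ (∀ p : ℕ, p.Prime → p ∣ m → n < p) ∧
        ArithmeticFunction.cardFactors m ≤ 2 ∧ ArithmeticFunction.cardFactors m % 2 = r := by
    intro n
    rcases Nat.eq_zero_or_pos n with h | h
    · exact ⟨0, fun h' => by omega⟩
    · obtain ⟨C, hC⟩ := h1 n h
      exact ⟨C, fun _ => hC⟩
  choose Cf hCf using h3
  set C : ℕ := C0 + 2 + ∑ n ∈ range N, Cf n with hC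
  refine ⟨C, ?_⟩
  intro n hn a ha r hr
  have hn1 : (1 : ℝ) ≤ n := by exact_mod_cast hn
  have hpow : (1 : ℝ) ≤ (n : ℝ) ^ (2 + ε) := Real.one_le_rpow hn1 (by linarith)
  rcases Nat.lt_or_ge n N with hnN | hnN
  · obtain ⟨m, g0, g1, g2, g3, g4⟩ := hCf n hn a ha r hr
    have hle : Cf n ≤ ∑ n ∈ range N, Cf n :=
      Finset.single_le_sum (f := Cf) (fun _ _ => Nat.zero_le _) (mem_range.2 hnN)
    refine ⟨m, g1, ?_, ?_, by omega, g4⟩
    · have hmC : (m : ℝ) ≤ C := by exact_mod_cast (by omega : m ≤ C)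
      have hC0 : (0 : ℝ) ≤ C := by positivity
      nlinarith
    · intro p hp hpm
      exact lt_of_lt_of_le (g2 p hp hpm) (Nat.le_self_pow (by omega) p)
  · obtain ⟨m, g1, g2, g3, g4, g5⟩ := h0 n hnN a ha r hr
    refine ⟨m, g1, ?_, ?_, by omega, g5⟩
    · have hC1 : (1 : ℝ) ≤ C := by exact_mod_cast (by omega : 1 ≤ C)
      nlinarith
    · intro p hp hpm
      exact lt_of_lt_of_le (g3 p hp hpm) (Nat.pow_le_pow_right hp.pos (by omega))

end Pool.Agent.Lib.MP_da4d09_nt.PL
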