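import Mathlib
import Pool.Agent.Lib.MP_da4d09_nt.PL.Defs

/-!
(C) the subgroup generated by the primes in `(z, s]` is big.
-/

set_option autoImplicit false

namespace Pool.Agent.Lib.MP_da4d09_nt.PL

open Finset

namespace CAux

theorem ss_eq (k : ℕ) : ss k = 2 ^ (16 * 2 ^ k) := by
  unfold ss zz
  rw [← pow_mul, mul_comm]

theorem two_le_zz (k : ℕ) : 2 ≤ zz k := by
  unfold zz
  calc 2 = 2 ^ 1 := (pow_one 2).symm
    _ ≤ 2 ^ (2 ^ k) := Nat.pow_le_pow_right (by norm_num) Nat.one_le_two_pow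

theorem two_le_ss (k : ℕ) : 2 ≤ ss k := by
  unfold ss
  calc 2 ≤ zz k := two_le_zz k
    _ = zz k ^ 1 := (pow_one _).symm
    _ ≤ zz k ^ 16 := Nat.pow_le_pow_right (by have := two_le_zz k; omega) (by norm_num)

/-- the number of primes up to `s` -/
theorem pi_bound (k : ℕ) :
    ss k ≤ (((Finset.range (ss k + 1)).filter Nat.Prime).card + 2) * 2 ^ (k + 4) := by
  have hs2 := two_le_ss k
  have h1 := Chebyshev.psi_ge (ss k)
  have h2 := Chebyshev.psi_le_primeCounting_mul_log (ss k)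
  have hcard : Nat.primeCounting (ss k) = ((Finset.range (ss k + 1)).filter Nat.Prime).card := by
    rw [Nat.primeCounting, Nat.primeCounting', Nat.count_eq_card_filter_range]
  rw [hcard] at h2
  set P := ((Finset.range (ss k + 1)).filter Nat.Prime).card
  have hlog : Real.log (ss k : ℝ) = (16 * 2 ^ k) * Real.log 2 := by
    rw [ss_eq, Nat.cast_pow, Real.log_pow]
    push_cast
    ring
  have h3 : Real.log ((ss k : ℝ) + 1) ≤ 2 * Real.log (ss k : ℝ) := by
    have h4 : ((ss k : ℝ) + 1) ≤ (ss k : ℝ) ^ 2 := by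
      have h5 : (2 : ℝ) ≤ (ss k : ℝ) := by exact_mod_cast hs2
      nlinarith
    have h6 := Real.log_le_log (by positivity) h4
    rw [Real.log_pow] at h6
    push_cast at h6
    exact h6
  have h4 : (ss k : ℝ) * Real.log 2 ≤ ((P : ℝ) + 2) * ((16 * 2 ^ k) * Real.log 2) := by
    rw [← hlog]
    nlinarith [h1, h2, h3]
  have hl2 : 0 < Real.log 2 := Real.log_pos (by norm_num)
  have h5 : (ss k : ℝ) ≤ ((P : ℝ) + 2) * (16 * 2 ^ k) := by
    have h6 : (ss k : ℝ) * Real.log 2 ≤ (((P : ℝ) + 2) * (16 * 2 ^ k)) * Real.log 2 := by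
      rw [mul_assoc (((P : ℝ) + 2)) (16 * 2 ^ k) (Real.log 2)]
      exact h4
    exact le_of_mul_le_mul_right h6 hl2
  have h6 : (ss k : ℝ) ≤ (((P + 2) * 2 ^ (k + 4) : ℕ) : ℝ) := by
    push_cast
    rw [pow_add]
    calc (ss k : ℝ) ≤ ((P : ℝ) + 2) * (16 * 2 ^ k) := h5
      _ = ((P : ℝ) + 2) * (2 ^ k * 2 ^ 4) := by ring
  exact_mod_cast h6

/-- the primes in `(z, s]` which do not divide `n` -/
def Q (k n : ℕ) : Finset ℕ :=
  (Finset.range (ss k + 1)).filter fun q => q.Prime ∧ zz k < q ∧ ¬ q ∣ n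

theorem card_big_factors {k n A : ℕ} (hn : 0 < n) (hA : n ≤ zz k ^ (2 * A)) :
    (n.primeFactors.filter fun q => zz k < q).card ≤ 2 * A := by
  set P := n.primeFactors.filter fun q => zz k < q
  have h1 : zz k ^ P.card ≤ ∏ q ∈ P, q := by
    rw [← Finset.prod_const]
    exact Finset.prod_le_prod' fun q hq => (Finset.mem_filter.1 hq).2.le
  have h2 : ∏ q ∈ P, q ≤ n := by
    apply Nat.le_of_dvd hn
    exact (Finset.prod_dvd_prod_of_subset _ _ _ (Finset.filter_subset _ _)).trans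
      (Nat.prod_primeFactors_dvd n)
  exact (Nat.pow_le_pow_iff_right (by have := two_le_zz k; omega)).1 ((h1.trans h2).trans hA)

theorem card_Q {k n A : ℕ} (hn : 0 < n) (hA : n ≤ zz k ^ (2 * A)) :
    ss k ≤ ((Q k n).card + zz k + 2 * A + 3) * 2 ^ (k + 4) := by
  have h1 := pi_bound k
  have h2 : (Finset.range (ss k + 1)).filter Nat.Prime ⊆
      (Q k n ∪ Finset.range (zz k + 1)) ∪ n.primeFactors.filter fun q => zz k < q := by
    intro q hq
    rw [Finset.mem_filter, Finset.mem_range] at hq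
    rw [Finset.mem_union, Finset.mem_union]
    by_cases h3 : q ≤ zz k
    · left; right
      rw [Finset.mem_range]
      omega
    · push Not at h3
      by_cases h4 : q ∣ n
      · right
        rw [Finset.mem_filter, Nat.mem_primeFactors]
        exact ⟨⟨hq.2, h4, hn.ne'⟩, h3⟩
      · left; left
        unfold Q
        rw [Finset.mem_filter, Finset.mem_range]
        exact ⟨hq.1, hq.2, h3, h4⟩
  have h3 := Finset.card_le_card h2
  have h4 := Finset.card_union_le (Q k n ∪ Finset.range (zz k + 1))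
    (n.primeFactors.filter fun q => zz k < q)
  have h5 := Finset.card_union_le (Q k n) (Finset.range (zz k + 1))
  rw [Finset.card_range] at h5
  have h6 := card_big_factors hn hA
  refine h1.trans (Nat.mul_le_mul_right _ ?_)
  omega

theorem two_pow_gt {k A : ℕ} (h : 2 * A + 1 ≤ k) : A + 1 ≤ 2 ^ k := by
  have := Nat.lt_two_pow_self (n := k)
  omega

theorem half_bound {k n A j : ℕ} (hk : 2 * A + 1 ≤ k) (hj : j ≤ A) (hn : 0 < n)
    (hA : n ≤ zz k ^ (2 * A)) : ss k ≤ ((Q k n).card + 1 - j) * 2 ^ (k + 5) := by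
  have h1 := card_Q hn hA
  have h2 : A + 1 ≤ 2 ^ k := two_pow_gt hk
  have h3 : 2 ^ k ≤ zz k := by
    unfold zz
    exact (Nat.lt_two_pow_self (n := 2 ^ k)).le
  have h4 : 2 ^ (k + 8) * zz k < ss k := by
    have h5 : ss k = zz k ^ 15 * zz k := by unfold ss; ring
    rw [h5]
    refine Nat.mul_lt_mul_of_pos_right ?_ (by have := two_le_zz k; omega)
    unfold zz
    rw [← pow_mul]
    apply Nat.pow_lt_pow_right (by norm_num)
    have := Nat.lt_two_pow_self (n := k)
    omega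
  -- the number of primes is at least `z + 2 A + 2 j + 3`
  have h6 : zz k + 2 * A + 2 * j + 3 ≤ (Q k n).card := by
    by_contra h7
    push Not at h7
    have h8 : (Q k n).card + zz k + 2 * A + 3 ≤ 16 * zz k := by omega
    have h9 := h1.trans (Nat.mul_le_mul_right (2 ^ (k + 4)) h8)
    have h10 : 16 * zz k * 2 ^ (k + 4) = 2 ^ (k + 8) * zz k := by
      rw [show k + 8 = (k + 4) + 4 by ring, pow_add 2 (k + 4) 4]
      ring
    omega
  have h7 : (Q k n).card + zz k + 2 * A + 3 ≤ ((Q k n).card + 1 - j) * 2 := by omega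
  calc ss k ≤ _ := h1
    _ ≤ (((Q k n).card + 1 - j) * 2) * 2 ^ (k + 4) := Nat.mul_le_mul_right _ h7
    _ = _ := by rw [show k + 5 = (k + 4) + 1 by ring, pow_succ]; ring

theorem fact_bound {k A j : ℕ} (hk : 2 * A + 1 ≤ k) (hj : j ≤ A) :
    2 ^ ((k + 5) * j) * j.factorial ≤ ss k := by
  have h1 : j.factorial ≤ 2 ^ (A * A) := by
    calc j.factorial ≤ j ^ j := Nat.factorial_le_pow j
      _ ≤ (2 ^ A) ^ j := Nat.pow_le_pow_left (by
          have := Nat.lt_two_pow_self (n := A)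
          omega) _
      _ ≤ (2 ^ A) ^ A := Nat.pow_le_pow_right (by positivity) hj
      _ = 2 ^ (A * A) := by rw [pow_mul]
  have h2 : 2 ^ ((k + 5) * j) ≤ 2 ^ ((k + 5) * A) :=
    Nat.pow_le_pow_right (by norm_num) (Nat.mul_le_mul_left _ hj)
  rw [ss_eq]
  calc 2 ^ ((k + 5) * j) * j.factorial ≤ 2 ^ ((k + 5) * A) * 2 ^ (A * A) :=
        Nat.mul_le_mul h2 h1
    _ = 2 ^ ((k + 5) * A + A * A) := by rw [pow_add]
    _ ≤ 2 ^ (16 * 2 ^ k) := by
      apply Nat.pow_le_pow_right (by norm_num)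
      obtain ⟨b, rfl⟩ : ∃ b, k = A + b := ⟨k - A, by omega⟩
      have h3 : A + 1 ≤ 2 ^ A := Nat.lt_two_pow_self
      have h4 : b + 1 ≤ 2 ^ b := Nat.lt_two_pow_self
      have h5 : (A + 1) * (b + 1) ≤ 2 ^ (A + b) := by
        rw [pow_add]
        exact Nat.mul_le_mul h3 h4
      have h6 : A + 1 ≤ b := by omega
      nlinarith [h5, h6]

theorem H_card {k n j : ℕ} (hn : 0 < n) (hj : ss k ^ j < n) :
    (Q k n).card.choose j ≤ Nat.card (HH k n) := by
  classical
  have : NeZero n := ⟨hn.ne'⟩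
  have hQ : ∀ q ∈ Q k n, q.Prime ∧ zz k < q ∧ q ≤ ss k ∧ q.Coprime n := by
    intro q hq
    unfold Q at hq
    rw [Finset.mem_filter, Finset.mem_range] at hq
    exact ⟨hq.2.1, hq.2.2.1, by omega, (Nat.Prime.coprime_iff_not_dvd hq.2.1).2 hq.2.2.2⟩
  let u : ℕ → (ZMod n)ˣ := fun q => if h : q.Coprime n then ZMod.unitOfCoprime q h else 1
  have hu : ∀ q, q.Coprime n → ((u q : (ZMod n)ˣ) : ZMod n) = q := by
    intro q h
    simp only [u]
    rw [dif_pos h, ZMod.coe_unitOfCoprime]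
  let f : Finset ℕ → (ZMod n)ˣ := fun D => ∏ q ∈ D, u q
  have hf : ∀ D ∈ (Q k n).powersetCard j, f D ∈ HH k n := by
    intro D hD
    rw [Finset.mem_powersetCard] at hD
    apply Subgroup.prod_mem
    intro q hq
    have h1 := hQ q (hD.1 hq)
    exact Subgroup.subset_closure ⟨q, h1.1, h1.2.1, h1.2.2.1, hu q h1.2.2.2⟩
  have hval : ∀ D ∈ (Q k n).powersetCard j, ((f D : (ZMod n)ˣ) : ZMod n) =
      ((∏ q ∈ D, q : ℕ) : ZMod n) := by
    intro D hD
    rw [Finset.mem_powersetCard] at hD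
    simp only [f]
    rw [Units.coe_prod, Nat.cast_prod]
    exact Finset.prod_congr rfl fun q hq => hu q (hQ q (hD.1 hq)).2.2.2
  have hlt : ∀ D ∈ (Q k n).powersetCard j, ∏ q ∈ D, q < n := by
    intro D hD
    rw [Finset.mem_powersetCard] at hD
    refine lt_of_le_of_lt ?_ hj
    rw [← hD.2, ← Finset.prod_const]
    exact Finset.prod_le_prod' fun q hq => (hQ q (hD.1 hq)).2.2.1
  have hinj : Set.InjOn f ((Q k n).powersetCard j : Set (Finset ℕ)) := by
    intro D hD D' hD' h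
    have h1 := hval D hD
    rw [h, hval D' hD'] at h1
    rw [ZMod.natCast_eq_natCast_iff'] at h1
    rw [Nat.mod_eq_of_lt (hlt D hD), Nat.mod_eq_of_lt (hlt D' hD')] at h1
    have hD1 := Finset.mem_powersetCard.1 (Finset.mem_coe.1 hD)
    have hD2 := Finset.mem_powersetCard.1 (Finset.mem_coe.1 hD')
    rw [← Nat.primeFactors_prod (fun q hq => (hQ q (hD1.1 hq)).1), ← h1,
      Nat.primeFactors_prod (fun q hq => (hQ q (hD2.1 hq)).1)]
  have h1 : (((Q k n).powersetCard j).image f).card = (Q k n).card.choose j := by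
    rw [Finset.card_image_of_injOn hinj, Finset.card_powersetCard]
  rw [← h1, ← Set.ncard_coe_finset]
  have h2 : Nat.card (HH k n) = (HH k n : Set (ZMod n)ˣ).ncard := rfl
  rw [h2]
  apply Set.ncard_le_ncard _ (Set.toFinite _)
  intro x hx
  rw [Finset.mem_coe, Finset.mem_image] at hx
  obtain ⟨D, hD, rfl⟩ := hx
  exact hf D hD

end CAux

open CAux

/-- (C) the group `H` is big -/
theorem stC : StC := by
  intro A
  refine ⟨2 * A + 1, fun k hk n hn hA => ?_⟩
  have : NeZero n := ⟨hn.ne'⟩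
  have hs2 := two_le_ss k
  have hH : 1 ≤ Nat.card (HH k n) := Nat.card_pos
  have hex : ∃ i, n ≤ ss k ^ (i + 1) :=
    ⟨n, (Nat.lt_pow_self (by omega : 1 < ss k)).le.trans
      (Nat.pow_le_pow_right (by omega) (Nat.le_succ n))⟩
  classical
  obtain ⟨j, hj, hjmin⟩ : ∃ j, n ≤ ss k ^ (j + 1) ∧ ∀ i < j, ¬ n ≤ ss k ^ (i + 1) :=
    ⟨Nat.find hex, Nat.find_spec hex, fun i hi => Nat.find_min hex hi⟩
  rcases Nat.eq_zero_or_pos j with h0 | h0
  · subst h0
    calc n ≤ ss k ^ (0 + 1) := hj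
      _ ≤ ss k ^ 2 := Nat.pow_le_pow_right (by omega) (by norm_num)
      _ = 1 * ss k ^ 2 := (one_mul _).symm
      _ ≤ _ := Nat.mul_le_mul_right _ hH
  · have h1 : ss k ^ j < n := by
      have h2 := hjmin (j - 1) (by omega)
      rw [Nat.sub_add_cancel h0] at h2
      omega
    have hjA : j ≤ A := by
      have h2 : zz k ^ (16 * j) < zz k ^ (2 * A) := by
        rw [pow_mul]
        exact lt_of_lt_of_le h1 hA
      have h3 := (Nat.pow_lt_pow_iff_right (by have := two_le_zz k; omega)).1 h2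
      omega
    have h2 := H_card hn h1
    have h3 := half_bound hk hjA hn hA
    have h4 := fact_bound hk hjA
    have h5 : ((Q k n).card + 1 - j) ^ j ≤ j.factorial * (Q k n).card.choose j := by
      rw [← Nat.descFactorial_eq_factorial_mul_choose]
      exact Nat.pow_sub_le_descFactorial _ _
    have h6 : ss k ^ j ≤ 2 ^ ((k + 5) * j) * j.factorial * Nat.card (HH k n) := by
      calc ss k ^ j ≤ (((Q k n).card + 1 - j) * 2 ^ (k + 5)) ^ j := Nat.pow_le_pow_left h3 j
        _ = 2 ^ ((k + 5) * j) * ((Q k n).card + 1 - j) ^ j := by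
          rw [mul_pow, ← pow_mul]; ring
        _ ≤ 2 ^ ((k + 5) * j) * (j.factorial * (Q k n).card.choose j) :=
          Nat.mul_le_mul_left _ h5
        _ ≤ 2 ^ ((k + 5) * j) * (j.factorial * Nat.card (HH k n)) :=
          Nat.mul_le_mul_left _ (Nat.mul_le_mul_left _ h2)
        _ = _ := by ring
    have h7 : ss k ^ j ≤ ss k * Nat.card (HH k n) :=
      h6.trans (Nat.mul_le_mul_right _ h4)
    calc n ≤ ss k ^ (j + 1) := hj
      _ = ss k ^ j * ss k := pow_succ _ _
      _ ≤ (ss k * Nat.card (HH k n)) * ss k := Nat.mul_le_mul_right _ h7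
      _ = _ := by ring

end Pool.Agent.Lib.MP_da4d09_nt.PL
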