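import Pool.Agent.Lib.MP_da4d09_nt.PL.Defs

/-!
Sets which are invariant under a big group are equidistributed.
-/

set_option autoImplicit false

namespace Pool.Agent.Lib.MP_da4d09_nt.PL

open Finset

theorem stF (h1 : StF1) (h2 : StF2) (h3 : StF3) : StF := by
  intro n hn B H hH Y
  have hn0 : 0 < n := Nat.pos_of_ne_zero hn.out
  have hH0 : (0 : ℝ) < Nat.card H := by exact_mod_cast Nat.card_pos
  refine (h1 n hn B Y).trans ?_
  have key : ∀ j ∈ Finset.Ico 1 n, ‖∑ x ∈ B, ZMod.stdAddChar ((j : ZMod n) * x)‖ /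
      (2 * ((min j (n - j) : ℕ) : ℝ)) ≤ √((n : ℝ) * B.card / Nat.card H) *
        (√((Nat.gcd j n : ℕ) : ℝ) / (2 * ((min j (n - j) : ℕ) : ℝ))) := by
    intro j hj
    rw [Finset.mem_Ico] at hj
    have e := h2 n hn B H hH j hj.1 hj.2
    have e2 : ‖∑ x ∈ B, ZMod.stdAddChar ((j : ZMod n) * x)‖ ≤
        √((n : ℝ) * B.card / Nat.card H) * √((Nat.gcd j n : ℕ) : ℝ) := by
      rw [← Real.sqrt_mul (by positivity)]
      apply Real.le_sqrt_of_sq_le
      rw [div_mul_eq_mul_div, le_div_iff₀ hH0]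
      exact e
    rw [← mul_div_assoc]
    exact div_le_div_of_nonneg_right e2 (by positivity)
  refine (Finset.sum_le_sum key).trans ?_
  rw [← Finset.mul_sum]
  exact mul_le_mul_of_nonneg_left (h3 n hn0) (Real.sqrt_nonneg _)

end Pool.Agent.Lib.MP_da4d09_nt.PL
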