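import Pool.Agent.Lib.MP_da4d09_nt.PL.Defs

/-!
(F1) Fourier expansion of a counting function modulo `n`.
-/

set_option autoImplicit false

namespace Pool.Agent.Lib.MP_da4d09_nt.PL

open Finset

namespace F1Aux

/-- a geometric sum on the unit circle -/
lemma geom {w : ℂ} (hw : ‖w‖ = 1) (Y : ℕ) :
    ‖∑ v ∈ Icc 1 Y, w ^ v‖ * ‖w - 1‖ ≤ 2 := by
  have h1 : (∑ v ∈ Icc 1 Y, w ^ v) * (w - 1) = w ^ (Y + 1) - w := by
    induction Y with
    | zero => simp
    | succ Y ih =>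
      rw [Finset.sum_Icc_succ_top (by omega), add_mul, ih]
      ring
  rw [← norm_mul, h1]
  calc ‖w ^ (Y + 1) - w‖ ≤ ‖w ^ (Y + 1)‖ + ‖w‖ := norm_sub_le _ _
    _ = 2 := by rw [norm_pow, hw, one_pow]; norm_num

/-- lower bound for the sine -/
lemma sin_lower {n j : ℕ} (h1 : 1 ≤ j) (h2 : j < n) :
    2 * ((min j (n - j) : ℕ) : ℝ) / n ≤ Real.sin (Real.pi * j / n) := by
  have hn : (0 : ℝ) < n := by exact_mod_cast (by omega : 0 < n)
  have hpi := Real.pi_pos
  rcases le_total (2 * j) n with h | h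
  · have h3 : (2 : ℝ) * j ≤ n := by exact_mod_cast h
    have h4 := Real.mul_le_sin (x := Real.pi * j / n) (by positivity) (by
      rw [div_le_div_iff₀ hn (by norm_num)]
      nlinarith)
    have h5 : ((min j (n - j) : ℕ) : ℝ) ≤ j := by exact_mod_cast min_le_left _ _
    calc 2 * ((min j (n - j) : ℕ) : ℝ) / n ≤ 2 * j / n := by gcongr
      _ = 2 / Real.pi * (Real.pi * j / n) := by field_simp
      _ ≤ _ := h4
  · have h3 : (n : ℝ) ≤ 2 * j := by exact_mod_cast h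
    have h6 : (j : ℝ) ≤ n := by exact_mod_cast h2.le
    have h4 := Real.mul_le_sin (x := Real.pi * (n - j) / n)
      (by
        apply div_nonneg _ hn.le
        apply mul_nonneg hpi.le
        linarith) (by
      rw [div_le_div_iff₀ hn (by norm_num)]
      nlinarith)
    have h5 : ((min j (n - j) : ℕ) : ℝ) ≤ n - j := by
      have : ((n - j : ℕ) : ℝ) = n - j := by
        rw [Nat.cast_sub h2.le]
      rw [← this]
      exact_mod_cast min_le_right _ _
    have h7 : Real.sin (Real.pi * (n - j) / n) = Real.sin (Real.pi * j / n) := by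
      rw [← Real.sin_pi_sub]
      congr 1
      field_simp
      ring
    calc 2 * ((min j (n - j) : ℕ) : ℝ) / n ≤ 2 * (n - j) / n := by gcongr
      _ = 2 / Real.pi * (Real.pi * (n - j) / n) := by field_simp
      _ ≤ _ := by rw [← h7]; exact h4

/-- the distance of a root of unity from one -/
lemma dist_lower {n j : ℕ} [NeZero n] (h1 : 1 ≤ j) (h2 : j < n) :
    4 * ((min j (n - j) : ℕ) : ℝ) / n ≤ ‖ZMod.stdAddChar (-(j : ZMod n)) - 1‖ := by
  have hn : (0 : ℝ) < n := by exact_mod_cast (by omega : 0 < n)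
  have e1 : ZMod.stdAddChar (-(j : ZMod n)) =
      Complex.exp (Complex.I * ((-(2 * Real.pi * j / n) : ℝ) : ℂ)) := by
    have h := ZMod.stdAddChar_coe (N := n) (-(j : ℤ))
    push_cast at h
    rw [h]
    congr 1
    push_cast
    ring
  rw [e1, Complex.norm_exp_I_mul_ofReal_sub_one]
  have e2 : -(2 * Real.pi * j / n) / 2 = -(Real.pi * j / n) := by ring
  rw [e2, Real.sin_neg, norm_mul, norm_neg]
  have h3 := sin_lower h1 h2
  have h4 : (0 : ℝ) ≤ 2 * ((min j (n - j) : ℕ) : ℝ) / n := by positivity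
  rw [Real.norm_eq_abs, Real.norm_eq_abs, abs_of_pos (by norm_num : (0 : ℝ) < 2),
    abs_of_nonneg (h4.trans h3)]
  calc 4 * ((min j (n - j) : ℕ) : ℝ) / n = 2 * (2 * ((min j (n - j) : ℕ) : ℝ) / n) := by ring
    _ ≤ _ := by linarith

lemma norm_char {n : ℕ} [NeZero n] (x : ZMod n) : ‖ZMod.stdAddChar x‖ = 1 := by
  obtain ⟨j, rfl⟩ : ∃ j : ℕ, (j : ZMod n) = x := ⟨x.val, ZMod.natCast_zmod_val x⟩
  have h := ZMod.stdAddChar_coe (N := n) (j : ℤ)
  push_cast at h
  rw [h]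
  have : 2 * (Real.pi : ℂ) * Complex.I * (j : ℂ) / (n : ℂ) =
      ((2 * Real.pi * j / n : ℝ) : ℂ) * Complex.I := by
    push_cast
    ring
  rw [this]
  exact Complex.norm_exp_ofReal_mul_I _

lemma sum_char {n j : ℕ} [NeZero n] (h1 : 1 ≤ j) (h2 : j < n) (Y : ℕ) :
    ‖∑ v ∈ Icc 1 Y, ZMod.stdAddChar (-((j : ZMod n) * (v : ZMod n)))‖ ≤
      n / (2 * ((min j (n - j) : ℕ) : ℝ)) := by
  have hn : (0 : ℝ) < n := by exact_mod_cast (by omega : 0 < n)
  have hm : (0 : ℝ) < ((min j (n - j) : ℕ) : ℝ) := by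
    exact_mod_cast (by simp; omega : 0 < min j (n - j))
  set w : ℂ := ZMod.stdAddChar (-(j : ZMod n)) with hw
  have e : ∀ v : ℕ, ZMod.stdAddChar (-((j : ZMod n) * (v : ZMod n))) = w ^ v := by
    intro v
    rw [hw, ← AddChar.map_nsmul_eq_pow]
    congr 1
    rw [nsmul_eq_mul]
    ring
  simp only [e]
  have h3 := dist_lower h1 h2
  rw [← hw] at h3
  have h4 : (0 : ℝ) < 4 * ((min j (n - j) : ℕ) : ℝ) / n := by positivity
  have hw1 : w ≠ 1 := by
    intro h
    rw [h, sub_self, norm_zero] at h3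
    linarith
  have h5 := geom (norm_char (-(j : ZMod n))) Y
  rw [← hw] at h5
  rw [le_div_iff₀ (by positivity)]
  have h6 : ‖∑ v ∈ Icc 1 Y, w ^ v‖ * (4 * ((min j (n - j) : ℕ) : ℝ) / n) ≤ 2 :=
    (mul_le_mul_of_nonneg_left h3 (norm_nonneg _)).trans h5
  have h7 : ‖∑ v ∈ Icc 1 Y, w ^ v‖ * (4 * ((min j (n - j) : ℕ) : ℝ) / n) =
      (‖∑ v ∈ Icc 1 Y, w ^ v‖ * (2 * ((min j (n - j) : ℕ) : ℝ))) * (2 / n) := by ring
  rw [h7] at h6
  have h8 : (‖∑ v ∈ Icc 1 Y, w ^ v‖ * (2 * ((min j (n - j) : ℕ) : ℝ))) * (2 / n) * (n / 2) ≤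
      2 * (n / 2) := mul_le_mul_of_nonneg_right h6 (by positivity)
  have h9 : (‖∑ v ∈ Icc 1 Y, w ^ v‖ * (2 * ((min j (n - j) : ℕ) : ℝ))) * (2 / n) * (n / 2) =
      ‖∑ v ∈ Icc 1 Y, w ^ v‖ * (2 * ((min j (n - j) : ℕ) : ℝ)) := by
    field_simp
  rw [h9] at h8
  linarith

/-- sums over residues -/
lemma sum_zmod {n : ℕ} [NeZero n] (f : ZMod n → ℂ) :
    ∑ j, f j = ∑ j ∈ range n, f (j : ZMod n) := by
  refine Finset.sum_bij' (fun x _ => x.val) (fun j _ => (j : ZMod n)) ?_ ?_ ?_ ?_ ?_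
  · intro x _
    exact mem_range.2 (ZMod.val_lt x)
  · intro j _
    exact mem_univ _
  · intro x _
    exact ZMod.natCast_zmod_val x
  · intro j hj
    exact ZMod.val_cast_of_lt (mem_range.1 hj)
  · intro x _
    rw [ZMod.natCast_zmod_val]

end F1Aux

open F1Aux in
/-- (F1) Fourier expansion of a counting function -/
theorem stF1 : StF1 := by
  intro n hn0 B Y
  have hn : (0 : ℝ) < n := by exact_mod_cast (NeZero.pos n)
  set N : ℕ := ((Icc 1 Y).filter fun v : ℕ => (v : ZMod n) ∈ B).card with hN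
  have h1 : (n : ℂ) * N = ∑ j : ZMod n, (∑ x ∈ B, ZMod.stdAddChar (j * x)) *
      ∑ v ∈ Icc 1 Y, ZMod.stdAddChar (-(j * (v : ZMod n))) := by
    have e1 : ∀ v : ℕ, ∑ j : ZMod n, (∑ x ∈ B, ZMod.stdAddChar (j * x)) *
        ZMod.stdAddChar (-(j * (v : ZMod n))) = if (v : ZMod n) ∈ B then (n : ℂ) else 0 := by
      intro v
      have e2 : ∀ j : ZMod n, (∑ x ∈ B, ZMod.stdAddChar (j * x)) *
          ZMod.stdAddChar (-(j * (v : ZMod n))) =
          ∑ x ∈ B, (ZMod.stdAddChar (j * (x - (v : ZMod n))) : ℂ) := by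
        intro j
        rw [sum_mul]
        refine sum_congr rfl fun x _ => ?_
        rw [← AddChar.map_add_eq_mul]
        congr 1
        ring
      simp only [e2]
      rw [sum_comm]
      have e3 : ∀ x ∈ B, ∑ j : ZMod n, (ZMod.stdAddChar (j * (x - (v : ZMod n))) : ℂ) =
          if x = (v : ZMod n) then (n : ℂ) else 0 := by
        intro x _
        rw [AddChar.sum_mulShift _ (ZMod.isPrimitive_stdAddChar n)]
        simp only [sub_eq_zero, ZMod.card]
        split_ifs <;> simp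
      rw [sum_congr rfl e3, sum_ite_eq' B (v : ZMod n) fun _ => (n : ℂ)]
    simp only [mul_sum]
    rw [sum_comm]
    simp only [e1]
    rw [← sum_filter, sum_const, ← hN, nsmul_eq_mul, mul_comm]
  rw [sum_zmod, range_eq_Ico, sum_eq_sum_Ico_succ_bot (NeZero.pos n)] at h1
  simp only [Nat.cast_zero, zero_mul, neg_zero, AddChar.map_zero_eq_one, sum_const, nsmul_eq_mul,
    mul_one, Nat.card_Icc, Nat.add_sub_cancel, zero_add] at h1
  have h2 : ‖(n : ℂ) * N - B.card * Y‖ ≤ ∑ j ∈ Ico 1 n,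
      ‖∑ x ∈ B, ZMod.stdAddChar ((j : ZMod n) * x)‖ * (n / (2 * ((min j (n - j) : ℕ) : ℝ))) := by
    rw [h1, add_sub_cancel_left]
    refine (norm_sum_le _ _).trans (sum_le_sum fun j hj => ?_)
    rw [norm_mul]
    exact mul_le_mul_of_nonneg_left (sum_char (mem_Ico.1 hj).1 (mem_Ico.1 hj).2 Y) (norm_nonneg _)
  have h3 : ‖(n : ℂ) * N - B.card * Y‖ = |(n : ℝ) * N - B.card * Y| := by
    rw [← Real.norm_eq_abs, ← Complex.norm_real]
    push_cast
    rfl
  rw [h3] at h2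
  have h4 : |(N : ℝ) - (B.card : ℝ) * Y / n| = |(n : ℝ) * N - B.card * Y| / n := by
    rw [eq_div_iff hn.ne', ← abs_of_pos hn, ← abs_mul, abs_of_pos hn]
    congr 1
    field_simp
  rw [h4, div_le_iff₀ hn, sum_mul]
  refine h2.trans (le_of_eq (sum_congr rfl fun j _ => ?_))
  ring

end Pool.Agent.Lib.MP_da4d09_nt.PL
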