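import Pool.Agent.Lib.MP_da4d09_nt.PL.Defs

/-!
Parity version of Linnik's theorem, module F2: the Fourier coefficients of an invariant set.
-/

set_option autoImplicit false

namespace Pool.Agent.Lib.MP_da4d09_nt.PL

open Finset

namespace F2Aux

variable {n : ℕ} [NeZero n]

/-- Fourier coefficients -/
noncomputable def cf (B : Finset (ZMod n)) (t : ZMod n) : ℂ :=
  ∑ x ∈ B, ZMod.stdAddChar (t * x)

theorem cf_smul {B : Finset (ZMod n)} (h : (ZMod n)ˣ) (hB : ∀ x ∈ B, (h : ZMod n) * x ∈ B)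
    (t : ZMod n) : cf B ((h : ZMod n) * t) = cf B t := by
  classical
  have hinj : Function.Injective fun x : ZMod n => (h : ZMod n) * x := fun x y hxy =>
    (Units.mul_right_inj h).1 hxy
  have himg : B.image (fun x => (h : ZMod n) * x) = B := by
    refine eq_of_subset_of_card_le (image_subset_iff.2 hB) ?_
    rw [card_image_of_injective _ hinj]
  have h1 : cf B t = ∑ x ∈ B.image (fun x => (h : ZMod n) * x), ZMod.stdAddChar (t * x) := by
    rw [himg]
    rfl
  rw [h1, sum_image fun x _ y _ hxy => hinj hxy]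
  refine sum_congr rfl fun x _ => ?_
  congr 1
  ring

theorem sum_char (z : ZMod n) :
    ∑ t : ZMod n, (ZMod.stdAddChar (t * z) : ℂ) = if z = 0 then (n : ℂ) else 0 := by
  have h := AddChar.sum_mulShift (R' := ℂ) z (ZMod.isPrimitive_stdAddChar n)
  rw [h, ZMod.card, Nat.cast_ite, Nat.cast_zero]

theorem parseval (B : Finset (ZMod n)) : ∑ t : ZMod n, ‖cf B t‖ ^ 2 = n * B.card := by
  have h1 : ∀ t : ZMod n, ((‖cf B t‖ ^ 2 : ℝ) : ℂ) =
      ∑ x ∈ B, ∑ y ∈ B, (ZMod.stdAddChar (t * (x - y)) : ℂ) := by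
    intro t
    rw [← Complex.normSq_eq_norm_sq, Complex.normSq_eq_conj_mul_self, mul_comm]
    unfold cf
    rw [map_sum, sum_mul_sum]
    refine sum_congr rfl fun x _ => sum_congr rfl fun y _ => ?_
    rw [mul_sub, AddChar.map_sub_eq_div, div_eq_mul_inv]
    congr 1
    rw [← AddChar.map_neg_eq_inv, AddChar.map_neg_eq_conj]
  have h2 : ((∑ t : ZMod n, ‖cf B t‖ ^ 2 : ℝ) : ℂ) = ((n * B.card : ℝ) : ℂ) := by
    rw [Complex.ofReal_sum, sum_congr rfl fun t _ => h1 t, sum_comm]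
    rw [sum_congr rfl fun x _ => sum_comm]
    have h3 : ∀ x ∈ B, ∑ y ∈ B, ∑ t : ZMod n, (ZMod.stdAddChar (t * (x - y)) : ℂ) = n := by
      intro x hx
      rw [sum_congr rfl fun y _ => sum_char (x - y)]
      simp only [sub_eq_zero]
      rw [sum_ite_eq, if_pos hx]
    rw [sum_congr rfl h3, sum_const, nsmul_eq_mul]
    push_cast
    ring
  exact_mod_cast h2

theorem fibre_card (S : Finset (ZMod n)ˣ) (j : ℕ) (t : ZMod n) :
    (S.filter fun h : (ZMod n)ˣ => (h : ZMod n) * (j : ZMod n) = t).card ≤ Nat.gcd j n := by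
  have hn : 0 < n := Nat.pos_of_ne_zero (NeZero.ne n)
  set g := Nat.gcd j n with hg
  have hg0 : 0 < g := Nat.gcd_pos_of_pos_right _ hn
  obtain ⟨m, hm⟩ : g ∣ n := Nat.gcd_dvd_right j n
  obtain ⟨i, hi⟩ : g ∣ j := Nat.gcd_dvd_left j n
  have hm0 : 0 < m := by
    rcases Nat.eq_zero_or_pos m with h | h
    · rw [h, mul_zero] at hm
      omega
    · exact h
  have hco : Nat.Coprime m i := by
    have h1 : Nat.gcd (g * i) (g * m) = g := by rw [← hi, ← hm]
    rw [Nat.gcd_mul_left] at h1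
    have h2 : Nat.gcd i m = 1 := by
      have h3 : g * Nat.gcd i m = g * 1 := by rw [h1, mul_one]
      exact Nat.eq_of_mul_eq_mul_left hg0 h3
    rw [Nat.coprime_iff_gcd_eq_one, Nat.gcd_comm]
    exact h2
  have key' : ∀ a b : ℕ, a * j ≡ b * j [MOD n] → a % m = b % m := by
    intro a b h1
    rw [hi, hm] at h1
    have h2 : g * (a * i) ≡ g * (b * i) [MOD g * m] := by
      convert h1 using 1 <;> ring
    have h3 : a * i ≡ b * i [MOD m] := Nat.ModEq.mul_left_cancel' hg0.ne' h2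
    exact Nat.ModEq.cancel_right_of_coprime hco h3
  have key : ∀ x y : ZMod n, x * (j : ZMod n) = y * (j : ZMod n) → x.val % m = y.val % m := by
    intro x y hxy
    have h1 : ((x.val * j : ℕ) : ZMod n) = ((y.val * j : ℕ) : ZMod n) := by
      push_cast
      rw [ZMod.natCast_zmod_val, ZMod.natCast_zmod_val, hxy]
    rw [ZMod.natCast_eq_natCast_iff] at h1
    exact key' _ _ h1
  rw [← card_range g]
  refine card_le_card_of_injOn (fun h => (h : ZMod n).val / m) ?_ ?_
  · intro h _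
    rw [coe_range, Set.mem_Iio]
    have h1 : (h : ZMod n).val < n := ZMod.val_lt _
    rw [Nat.div_lt_iff_lt_mul hm0, ← hm]
    exact h1
  · intro x hx y hy hxy
    rw [mem_coe, mem_filter] at hx hy
    have h1 := key x y (hx.2.trans hy.2.symm)
    have h2 : (x : ZMod n).val / m = (y : ZMod n).val / m := hxy
    have h3 : (x : ZMod n).val = (y : ZMod n).val := by
      rw [← Nat.div_add_mod (x : ZMod n).val m, ← Nat.div_add_mod (y : ZMod n).val m, h1, h2]
    exact Units.ext (ZMod.val_injective n h3)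

end F2Aux

open F2Aux

/-- (F2) the Fourier coefficients of an invariant set -/
theorem stF2 : StF2 := by
  classical
  intro n _ B H hB j _ _
  set S : Finset (ZMod n)ˣ := univ.filter fun h => h ∈ H with hS
  have hc : Nat.card H = S.card := by
    rw [Nat.card_eq_fintype_card, Fintype.card_subtype]
  have h1 : ∑ h ∈ S, ‖cf B ((h : ZMod n) * (j : ZMod n))‖ ^ 2 = S.card * ‖cf B (j : ZMod n)‖ ^ 2 := by
    rw [← nsmul_eq_mul, ← sum_const]
    refine sum_congr rfl fun h hh => ?_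
    rw [hS, mem_filter] at hh
    rw [cf_smul h (hB h hh.2)]
  have h2 : ∑ h ∈ S, ‖cf B ((h : ZMod n) * (j : ZMod n))‖ ^ 2 ≤
      (Nat.gcd j n : ℕ) * ∑ t : ZMod n, ‖cf B t‖ ^ 2 := by
    rw [← sum_fiberwise S (fun h : (ZMod n)ˣ => (h : ZMod n) * (j : ZMod n)), mul_sum]
    refine sum_le_sum fun t _ => ?_
    have h3 : ∑ h ∈ S.filter (fun h : (ZMod n)ˣ => (h : ZMod n) * (j : ZMod n) = t),
        ‖cf B ((h : ZMod n) * (j : ZMod n))‖ ^ 2 =
        ((S.filter fun h : (ZMod n)ˣ => (h : ZMod n) * (j : ZMod n) = t).card : ℝ) *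
          ‖cf B t‖ ^ 2 := by
      rw [← nsmul_eq_mul, ← sum_const]
      refine sum_congr rfl fun h hh => ?_
      rw [(mem_filter.1 hh).2]
    rw [h3]
    refine mul_le_mul_of_nonneg_right ?_ (by positivity)
    exact_mod_cast fibre_card S j t
  rw [parseval, h1] at h2
  rw [hc]
  change ‖cf B (j : ZMod n)‖ ^ 2 * (S.card : ℝ) ≤ _
  calc ‖cf B (j : ZMod n)‖ ^ 2 * (S.card : ℝ) = S.card * ‖cf B (j : ZMod n)‖ ^ 2 := by ring
    _ ≤ (Nat.gcd j n : ℕ) * ((n : ℝ) * B.card) := h2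
    _ = _ := by ring

end Pool.Agent.Lib.MP_da4d09_nt.PL
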