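import Pool.Agent.Lib.MP_da4d09_nt.PL.Defs

/-!
Module (F3): a sum of greatest common divisors.
-/

set_option autoImplicit false

namespace Pool.Agent.Lib.MP_da4d09_nt.PL

open Finset

namespace F3Aux

theorem term_le {g i : ℕ} (hg : 0 < g) (hi : 0 < i) :
    √(g : ℝ) / ((g * i : ℕ) : ℝ) ≤ 1 / (i : ℝ) := by
  have hg' : (1 : ℝ) ≤ g := by exact_mod_cast hg
  have hi' : (0 : ℝ) < i := by exact_mod_cast hi
  have h1 : √(g : ℝ) ≤ g := by
    rw [Real.sqrt_le_left (by linarith)]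
    nlinarith
  push_cast
  rw [div_le_div_iff₀ (by positivity) hi']
  nlinarith

theorem inner {n d : ℕ} (hd : 0 < d) :
    ∑ j ∈ Ico 1 n, (if d ∣ j then 1 / ((j / d : ℕ) : ℝ) else 0) ≤ 1 + Real.log n := by
  rw [← sum_filter]
  have hinj : Set.InjOn (fun j : ℕ => j / d) ((Ico 1 n).filter fun j => d ∣ j) := by
    intro a ha b hb hab
    have ha' := (mem_filter.1 ha).2
    have hb' := (mem_filter.1 hb).2
    change a / d = b / d at hab
    rw [← Nat.div_mul_cancel ha', hab, Nat.div_mul_cancel hb']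
  have h1 : ∑ j ∈ (Ico 1 n).filter (fun j => d ∣ j), 1 / ((j / d : ℕ) : ℝ) =
      ∑ i ∈ ((Ico 1 n).filter fun j => d ∣ j).image (fun j : ℕ => j / d), 1 / (i : ℝ) := by
    rw [sum_image hinj]
  rw [h1]
  have h2 : ((Ico 1 n).filter fun j => d ∣ j).image (fun j : ℕ => j / d) ⊆ Icc 1 n := by
    intro i hi
    obtain ⟨j, hj, rfl⟩ := mem_image.1 hi
    obtain ⟨hj1, hj2⟩ := mem_filter.1 hj
    obtain ⟨hj3, hj4⟩ := mem_Ico.1 hj1
    rw [mem_Icc]
    exact ⟨Nat.div_pos (Nat.le_of_dvd (by omega) hj2) hd, (Nat.div_le_self j d).trans hj4.le⟩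
  refine (sum_le_sum_of_subset_of_nonneg h2 fun i _ _ => by positivity).trans ?_
  have h3 := harmonic_le_one_add_log n
  rw [harmonic_eq_sum_Icc] at h3
  push_cast at h3
  simpa [one_div] using h3

theorem main {n : ℕ} (hn : 0 < n) :
    ∑ j ∈ Ico 1 n, √((Nat.gcd j n : ℕ) : ℝ) / (j : ℝ) ≤
      (n.divisors.card : ℝ) * (1 + Real.log n) := by
  have h1 : ∀ j ∈ Ico 1 n, √((Nat.gcd j n : ℕ) : ℝ) / (j : ℝ) ≤
      ∑ d ∈ n.divisors, (if d ∣ j then 1 / ((j / d : ℕ) : ℝ) else 0) := by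
    intro j hj
    have hj0 := (mem_Ico.1 hj).1
    have hg : Nat.gcd j n ∈ n.divisors := Nat.mem_divisors.2 ⟨Nat.gcd_dvd_right j n, hn.ne'⟩
    have hgp : 0 < Nat.gcd j n := Nat.gcd_pos_of_pos_right j hn
    refine le_trans ?_ (single_le_sum (f := fun d => if d ∣ j then 1 / ((j / d : ℕ) : ℝ) else 0)
      (fun d _ => ?_) hg)
    · change _ ≤ if Nat.gcd j n ∣ j then 1 / ((j / Nat.gcd j n : ℕ) : ℝ) else 0
      rw [if_pos (Nat.gcd_dvd_left j n)]
      have h2 := Nat.mul_div_cancel' (Nat.gcd_dvd_left j n)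
      have h3 : 0 < j / Nat.gcd j n :=
        Nat.div_pos (Nat.le_of_dvd (by omega) (Nat.gcd_dvd_left j n)) hgp
      have h4 := term_le hgp h3
      rwa [h2] at h4
    · split_ifs
      · positivity
      · exact le_rfl
  refine (sum_le_sum h1).trans ?_
  rw [sum_comm]
  refine (sum_le_sum fun d hd => inner (Nat.pos_of_mem_divisors hd)).trans ?_
  rw [sum_const, nsmul_eq_mul]

theorem refl_sum (n : ℕ) :
    ∑ j ∈ Ico 1 n, √((Nat.gcd j n : ℕ) : ℝ) / ((n - j : ℕ) : ℝ) =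
      ∑ j ∈ Ico 1 n, √((Nat.gcd j n : ℕ) : ℝ) / (j : ℝ) := by
  refine sum_nbij' (fun j => n - j) (fun j => n - j) ?_ ?_ ?_ ?_ ?_
  · intro j hj
    rw [mem_Ico] at hj ⊢
    omega
  · intro j hj
    rw [mem_Ico] at hj ⊢
    omega
  · intro j hj
    rw [mem_Ico] at hj
    change n - (n - j) = j
    omega
  · intro j hj
    rw [mem_Ico] at hj
    change n - (n - j) = j
    omega
  · intro j hj
    rw [mem_Ico] at hj
    change √((Nat.gcd j n : ℕ) : ℝ) / ((n - j : ℕ) : ℝ) =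
      √((Nat.gcd (n - j) n : ℕ) : ℝ) / ((n - j : ℕ) : ℝ)
    have h1 : Nat.gcd (n - j) n = Nat.gcd j n := by
      obtain ⟨k, rfl⟩ := Nat.exists_eq_add_of_le hj.2.le
      rw [Nat.add_sub_cancel_left]
      simp [Nat.gcd_comm]
    rw [h1]

theorem min_le {j n : ℕ} (h1 : 1 ≤ j) (h2 : j < n) (x : ℝ) (hx : 0 ≤ x) :
    x / (2 * ((min j (n - j) : ℕ) : ℝ)) ≤ (x / (j : ℝ) + x / ((n - j : ℕ) : ℝ)) / 2 := by
  have h3 : (0 : ℝ) < j := by exact_mod_cast h1
  have h4 : (0 : ℝ) < ((n - j : ℕ) : ℝ) := by exact_mod_cast (by omega : 0 < n - j)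
  have h5 : 0 ≤ x / (j : ℝ) := by positivity
  have h6 : 0 ≤ x / ((n - j : ℕ) : ℝ) := by positivity
  rcases le_total j (n - j) with h | h
  · rw [min_eq_left h]
    have h7 : x / (2 * (j : ℝ)) = x / (j : ℝ) / 2 := by
      rw [div_div, mul_comm]
    rw [h7]
    linarith
  · rw [min_eq_right h]
    have h7 : x / (2 * ((n - j : ℕ) : ℝ)) = x / ((n - j : ℕ) : ℝ) / 2 := by
      rw [div_div, mul_comm]
    rw [h7]
    linarith

end F3Aux

open F3Aux in
/-- (F3) -/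
theorem stF3 : StF3 := by
  intro n hn
  refine (sum_le_sum fun j hj => min_le (mem_Ico.1 hj).1 (mem_Ico.1 hj).2 _
    (Real.sqrt_nonneg _)).trans ?_
  rw [← sum_div, sum_add_distrib, refl_sum, add_self_div_two]
  exact main hn

end Pool.Agent.Lib.MP_da4d09_nt.PL
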