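import Mathlib
import Pool.Agent.Lib.MP_da4d09_nt.PL.Defs

/-!
(G) real characters and squares: if the discriminant of a real character is a square modulo an odd
prime `p` then the value of the character at `p` is `1` (Gauss sums in characteristic `p`).
-/

set_option autoImplicit false

namespace Pool.Agent.Lib.MP_da4d09_nt.PL

namespace GAux

open DirichletCharacter

/-- Characters with values in the integers are quadratic. -/
theorem quad {N : ℕ} (χ : DirichletCharacter ℤ N) : χ.IsQuadratic := by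
  intro a
  by_cases ha : IsUnit a
  · rcases Int.isUnit_iff.1 (ha.map χ) with h | h
    · exact Or.inr (Or.inl h)
    · exact Or.inr (Or.inr h)
  · exact Or.inl (χ.map_nonunit ha)

/-- The value at a unit. -/
theorem val_unit {N : ℕ} (χ : DirichletCharacter ℤ N) {a : ZMod N} (ha : IsUnit a) :
    χ a = 1 ∨ χ a = -1 := Int.isUnit_iff.1 (ha.map χ)

/-- The values are determined by their images in a field of characteristic different from `2`. -/
theorem eq_one {N : ℕ} (χ : DirichletCharacter ℤ N) {K : Type} [Field K] (h2 : (2 : K) ≠ 0)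
    {a : ZMod N} (ha : IsUnit a) (h : ((χ a : ℤ) : K) = 1) : χ a = 1 := by
  rcases val_unit χ ha with h1 | h1
  · exact h1
  · exfalso
    rw [h1] at h
    push_cast at h
    apply h2
    linear_combination -h

/-- Primitivity does not depend on the ring of values. -/
theorem prim {N : ℕ} [NeZero N] {K : Type} [Field K] (h2 : (2 : K) ≠ 0)
    {χ : DirichletCharacter ℤ N} (hχ : χ.IsPrimitive) :
    DirichletCharacter.IsPrimitive (χ.ringHomComp (Int.castRingHom K)) := by
  set ψ : DirichletCharacter K N := χ.ringHomComp (Int.castRingHom K) with hψ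
  have hd : ψ.conductor ∣ N := conductor_dvd_level ψ
  have h1 := (factorsThrough_iff_ker_unitsMap hd).1 (factorsThrough_conductor ψ)
  have h3 : χ.FactorsThrough ψ.conductor := by
    refine (factorsThrough_iff_ker_unitsMap hd).2 fun x hx => ?_
    have h4 := h1 hx
    rw [MonoidHom.mem_ker] at h4 ⊢
    have h5 : ψ (x : ZMod N) = 1 := by
      rw [← MulChar.coe_toUnitHom, h4, Units.val_one]
    have h6 : χ (x : ZMod N) = 1 := eq_one χ h2 x.isUnit h5
    apply Units.ext
    rw [MulChar.coe_toUnitHom, h6, Units.val_one]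
  have h7 : χ.conductor ≤ ψ.conductor := Nat.sInf_le h3
  rw [(isPrimitive_def _).1 hχ] at h7
  exact le_antisymm (Nat.le_of_dvd (NeZero.pos N) hd) h7

/-- The main step. -/
theorem step (h : StG1) {N p : ℕ} [NeZero N] (hp : p.Prime) (hp2 : p ≠ 2) (hpN : p.Coprime N)
    (χ : DirichletCharacter ℤ N) (hχ : χ.IsPrimitive)
    (hsq : IsSquare ((χ (-1) * N : ℤ) : ZMod p)) : χ (p : ZMod N) = 1 := by
  have : Fact p.Prime := ⟨hp⟩
  have hNp : NeZero ((N : ℕ) : ZMod p) := ⟨by
    rw [Ne, ZMod.natCast_eq_zero_iff]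
    exact fun h0 => hp.one_lt.ne' (Nat.Coprime.eq_one_of_dvd hpN h0)⟩
  obtain ⟨K, _, hK⟩ : ∃ (K : Type) (_ : Field K), ∃ (_ : Algebra (ZMod p) K) (ζ : K),
      IsPrimitiveRoot ζ N :=
    ⟨CyclotomicField N (ZMod p), inferInstance, inferInstance, _,
      IsCyclotomicExtension.zeta_spec N (ZMod p) (CyclotomicField N (ZMod p))⟩
  obtain ⟨_, ζ, hζ⟩ := hK
  have : CharP K p := charP_of_injective_algebraMap (algebraMap (ZMod p) K).injective p
  have h2 : (2 : K) ≠ 0 := by
    intro h0
    have h1 : ((2 : ℕ) : K) = 0 := by exact_mod_cast h0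
    rw [CharP.cast_eq_zero_iff K p] at h1
    exact hp2 ((Nat.prime_dvd_prime_iff_eq hp Nat.prime_two).1 h1)
  have hNK : ((N : ℕ) : K) ≠ 0 := by
    rw [Ne, CharP.cast_eq_zero_iff K p]
    exact fun h0 => hp.one_lt.ne' (Nat.Coprime.eq_one_of_dvd hpN h0)
  set e : AddChar (ZMod N) K := AddChar.zmodChar N ((IsPrimitiveRoot.iff_def ζ N).mp hζ).left
    with hedef
  have he : e.IsPrimitive := AddChar.zmodChar_primitive_of_primitive_root N hζ
  set ψ : DirichletCharacter K N := χ.ringHomComp (Int.castRingHom K) with hψ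
  have hprim : DirichletCharacter.IsPrimitive ψ := prim h2 hχ
  have hquad : ψ.IsQuadratic := (quad χ).comp (Int.castRingHom K)
  have hG := h N inferInstance K inferInstance ψ e hprim hquad he
  set τ := gaussSum ψ e with hτdef
  have hpu : IsUnit ((p : ℕ) : ZMod N) := (ZMod.unitOfCoprime p hpN).isUnit
  have hfrob : τ ^ p = ψ p * τ := hquad.gaussSum_frob p hpu e
  have hD : τ ^ 2 = ((χ (-1) * N : ℤ) : K) := by
    rw [hG, hψ]
    simp
  obtain ⟨y, hy⟩ := hsq
  set Y : K := algebraMap (ZMod p) K y with hY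
  have hDY : τ ^ 2 = Y ^ 2 := by
    rw [hD, hY, ← map_pow, pow_two y, ← hy, map_intCast]
  have hτ0 : τ ≠ 0 := by
    intro h0
    rw [h0] at hD
    have hu : χ (-1) = 1 ∨ χ (-1) = -1 := val_unit χ isUnit_one.neg
    rcases hu with hu | hu <;> rw [hu] at hD <;> push_cast at hD
    · apply hNK
      linear_combination -hD
    · apply hNK
      linear_combination hD
  have hYp : Y ^ p = Y := by rw [hY, ← map_pow, ZMod.pow_card]
  have hpo : Odd p := hp.odd_of_ne_two hp2
  have hτp : τ ^ p = τ := by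
    rcases sq_eq_sq_iff_eq_or_eq_neg.1 hDY with h0 | h0
    · rw [h0, hYp]
    · rw [h0, hpo.neg_pow, hYp]
  have hψp : ψ p = 1 := by
    refine mul_right_cancel₀ hτ0 ?_
    rw [← hfrob, hτp, one_mul]
  exact eq_one χ h2 hpu hψp

end GAux

open GAux DirichletCharacter in
/-- (G) real characters and squares -/
theorem stG (h : StG1) : StG := by
  intro n hn σ
  have : NeZero n := ⟨hn.ne'⟩
  obtain ⟨χ, hχ⟩ : ∃ χ : DirichletCharacter ℤ n, χ = MulChar.ofUnitHom σ := ⟨_, rfl⟩
  have hN0 : χ.conductor ≠ 0 := conductor_ne_zero χ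
  have : NeZero χ.conductor := ⟨hN0⟩
  have hNn : χ.conductor ∣ n := conductor_dvd_level χ
  have hψ := primitiveCharacter_isPrimitive χ
  have hu : χ.primitiveCharacter (-1) = 1 ∨ χ.primitiveCharacter (-1) = -1 :=
    val_unit _ isUnit_one.neg
  have hNZ : ((χ.conductor : ℕ) : ℤ) ≠ 0 := by exact_mod_cast hN0
  refine ⟨χ.primitiveCharacter (-1) * χ.conductor, ?_, ?_, ?_⟩
  · rcases hu with hu | hu <;> rw [hu]
    · simpa using hN0
    · simpa using hN0
  · have h1 : ((χ.conductor : ℕ) : ℤ) ≤ n := by exact_mod_cast Nat.le_of_dvd hn hNn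
    rcases hu with hu | hu <;> rw [hu]
    · rw [one_mul, Nat.abs_cast]
      exact h1
    · rw [neg_one_mul, abs_neg, Nat.abs_cast]
      exact h1
  · intro p hp hpp hp2
    have hpN : p.Coprime χ.conductor := Nat.Coprime.coprime_dvd_right hNn hp
    refine ⟨?_, fun hsq => ?_⟩
    · intro hd
      have h1 : (p : ℤ) ∣ ((χ.conductor : ℕ) : ℤ) := by
        rcases hu with hu | hu <;> rw [hu] at hd
        · rwa [one_mul] at hd
        · rwa [neg_one_mul, dvd_neg] at hd
      have h2 : p ∣ χ.conductor := by exact_mod_cast h1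
      exact hpp.one_lt.ne' (Nat.Coprime.eq_one_of_dvd hpN h2)
    · have h1 := step h hpp hp2 hpN χ.primitiveCharacter hψ hsq
      have h2 : IsCoprime (p : ℤ) (n : ℤ) := Nat.isCoprime_iff_coprime.2 hp
      have h3 := primitiveCharacter_apply_of_isCoprime χ h2
      have h4 : χ (((p : ℕ) : ℤ) : ZMod n) = 1 := by
        rw [← h3, Int.cast_natCast]
        exact h1
      have h5 : (((p : ℕ) : ℤ) : ZMod n) = ((ZMod.unitOfCoprime p hp : (ZMod n)ˣ) : ZMod n) := by
        rw [ZMod.coe_unitOfCoprime, Int.cast_natCast]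
      rw [h5, hχ, MulChar.ofUnitHom_coe] at h4
      exact Units.ext h4

end Pool.Agent.Lib.MP_da4d09_nt.PL
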