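import Pool.Agent.Lib.MP_da4d09_nt.PL.Defs

/-!
Module G1: the square of a real primitive Gauss sum with values in a field.
-/

set_option autoImplicit false

namespace Pool.Agent.Lib.MP_da4d09_nt.PL

theorem stG1 : StG1 := by
  classical
  intro N _ K _ χ e hχ hq he
  have h1 : ∀ b : ZMod N, χ b * gaussSum χ e = ∑ a, χ a * e (b * a) := by
    intro b
    have h := gaussSum_mulShift_of_isPrimitive e hχ b
    rw [MulChar.IsQuadratic.inv hq] at h
    rw [← h]
    unfold gaussSum
    exact Finset.sum_congr rfl fun a _ => by rw [AddChar.mulShift_apply]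
  have h2 : gaussSum χ e ^ 2 = ∑ a, χ a * ∑ b, e (b * (1 + a)) := by
    have h3 : gaussSum χ e ^ 2 = ∑ b, e b * (χ b * gaussSum χ e) := by
      rw [sq]
      conv_lhs => arg 1; unfold gaussSum
      rw [Finset.sum_mul]
      exact Finset.sum_congr rfl fun b _ => by ring
    rw [h3]
    simp only [h1, Finset.mul_sum]
    rw [Finset.sum_comm]
    refine Finset.sum_congr rfl fun a _ => Finset.sum_congr rfl fun b _ => ?_
    rw [mul_add, mul_one, AddChar.map_add_eq_mul]
    ring
  rw [h2]
  have h4 : ∀ a : ZMod N, ∑ b, e (b * (1 + a)) = if a = -1 then (N : K) else 0 := by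
    intro a
    rw [AddChar.sum_mulShift _ he]
    have h5 : (1 + a = 0) ↔ a = -1 := by
      constructor
      · intro h
        linear_combination h
      · rintro rfl
        ring
    by_cases h : a = -1
    · rw [if_pos (h5.2 h), if_pos h, ZMod.card]
    · rw [if_neg (fun hh => h (h5.1 hh)), if_neg h]
      simp
  simp only [h4, mul_ite, mul_zero, Finset.sum_ite_eq', Finset.mem_univ, if_true]

end Pool.Agent.Lib.MP_da4d09_nt.PL
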