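import Pool.Agent.Lib.MP_da4d09_nt.PL.Defs

/-!
The powers of a prime in the values of a quadratic polynomial.
-/

set_option autoImplicit false

namespace Pool.Agent.Lib.MP_da4d09_nt.PL

open Finset

namespace L1Aux

/-- pairwise congruent numbers in `(T, 2 T]` -/
theorem card_class {T q : ℕ} (hq : 0 < q) (S : Finset ℕ) (hS : S ⊆ Finset.Ioc T (2 * T))
    (h : ∀ x ∈ S, ∀ y ∈ S, x ≡ y [MOD q]) : (S.card : ℝ) ≤ T / q + 1 := by
  rcases S.eq_empty_or_nonempty with rfl | ⟨v, hv⟩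
  · simp only [Finset.card_empty, Nat.cast_zero]
    positivity
  have h1 : S ⊆ (Finset.Ioc T (2 * T)).filter fun x => x ≡ v [MOD q] := fun x hx =>
    Finset.mem_filter.2 ⟨hS hx, h x hx v hv⟩
  have h2 := Finset.card_le_card h1
  have h3 := Nat.Ioc_filter_modEq_card T (2 * T) hq v
  have hq' : (0 : ℚ) < q := by exact_mod_cast hq
  have h4 : ((max (⌊(((2 * T : ℕ) : ℚ) - v) / (q : ℚ)⌋ - ⌊((T : ℚ) - v) / (q : ℚ)⌋) 0 : ℤ) : ℚ) ≤
      T / q + 1 := by
    rw [Int.cast_max, Int.cast_sub, Int.cast_zero]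
    refine max_le ?_ (by positivity)
    have h5 := Int.floor_le ((((2 * T : ℕ) : ℚ) - v) / (q : ℚ))
    have h6 := Int.lt_floor_add_one (((T : ℚ) - v) / (q : ℚ))
    have h7 : (((2 * T : ℕ) : ℚ) - v) / (q : ℚ) - ((T : ℚ) - v) / (q : ℚ) = T / q := by
      push_cast
      ring
    linarith
  have h8 : ((S.card : ℕ) : ℚ) ≤ T / q + 1 := by
    have h9 : ((((Finset.Ioc T (2 * T)).filter fun x => x ≡ v [MOD q]).card : ℤ) : ℚ) =
        ((max (⌊(((2 * T : ℕ) : ℚ) - v) / (q : ℚ)⌋ - ⌊((T : ℚ) - v) / (q : ℚ)⌋) 0 : ℤ) : ℚ) := by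
      rw [h3]
    calc ((S.card : ℕ) : ℚ) ≤ ((((Finset.Ioc T (2 * T)).filter fun x => x ≡ v [MOD q]).card : ℤ) : ℚ) := by
          exact_mod_cast h2
      _ ≤ _ := by rw [h9]; exact h4
  have h10 : (((S.card : ℕ) : ℚ) : ℝ) ≤ ((T / q + 1 : ℚ) : ℝ) := Rat.cast_le.2 h8
  push_cast at h10
  exact h10

/-- a power of a prime which divides a product -/
theorem pow_dvd_or {p : ℕ} (hp : p.Prime) {j : ℕ} {a b : ℤ} (h : (p : ℤ) ^ (j + 1) ∣ a * b) :
    (p : ℤ) ^ (j / 2 + 1) ∣ a ∨ (p : ℤ) ^ (j / 2 + 1) ∣ b := by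
  by_cases ha : a = 0
  · left
    rw [ha]
    exact dvd_zero _
  by_cases hb : b = 0
  · right
    rw [hb]
    exact dvd_zero _
  have ha' : a.natAbs ≠ 0 := Int.natAbs_ne_zero.2 ha
  have hb' : b.natAbs ≠ 0 := Int.natAbs_ne_zero.2 hb
  have e : ∀ (i : ℕ) (c : ℤ), (p : ℤ) ^ i ∣ c ↔ p ^ i ∣ c.natAbs := by
    intro i c
    rw [← Int.natAbs_dvd_natAbs, Int.natAbs_pow, Int.natAbs_natCast]
  rw [e, Int.natAbs_mul, hp.pow_dvd_iff_le_factorization (mul_ne_zero ha' hb'),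
    Nat.factorization_mul ha' hb', Finsupp.add_apply] at h
  rw [e, e, hp.pow_dvd_iff_le_factorization ha', hp.pow_dvd_iff_le_factorization hb']
  omega

theorem geom {p : ℝ} (hp : 1 < p) (m : ℕ) :
    ∑ j ∈ Finset.range (2 * m), 1 / p ^ (j / 2 + 1) = 2 * (1 - 1 / p ^ m) / (p - 1) := by
  have hp0 : 0 < p := by linarith
  have hp1 : p - 1 ≠ 0 := by linarith
  induction m with
  | zero => simp
  | succ m ih =>
    rw [show 2 * (m + 1) = 2 * m + 1 + 1 by ring, Finset.sum_range_succ, Finset.sum_range_succ, ih,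
      show 2 * m / 2 = m by omega, show (2 * m + 1) / 2 = m by omega]
    field_simp
    ring

theorem geom_le {p : ℝ} (hp : 1 < p) (J : ℕ) :
    ∑ j ∈ Finset.range J, 1 / p ^ (j / 2 + 1) ≤ 2 / (p - 1) := by
  have hp0 : 0 < p := by linarith
  have hp1 : 0 < p - 1 := by linarith
  calc ∑ j ∈ Finset.range J, 1 / p ^ (j / 2 + 1) ≤
        ∑ j ∈ Finset.range (2 * J), 1 / p ^ (j / 2 + 1) :=
        Finset.sum_le_sum_of_subset_of_nonneg (Finset.range_mono (by omega))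
          fun _ _ _ => by positivity
    _ = 2 * (1 - 1 / p ^ J) / (p - 1) := geom hp J
    _ ≤ 2 / (p - 1) := by
      apply div_le_div_of_nonneg_right _ hp1.le
      have : 0 ≤ 1 / p ^ J := by positivity
      linarith

/-- the values divisible by a power of `p` -/
theorem card_pow {p : ℕ} (hp : p.Prime) (D : ℤ) (T j : ℕ) :
    ((((Finset.Ioc T (2 * T)).filter fun t : ℕ => p ^ (j + 1) ∣ ((t : ℤ) ^ 2 - D).natAbs).card : ℕ)
      : ℝ) ≤ 2 * (T * (1 / (p : ℝ) ^ (j / 2 + 1)) + 1) := by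
  obtain ⟨S, hS⟩ : ∃ S, S = (Finset.Ioc T (2 * T)).filter fun t : ℕ =>
      p ^ (j + 1) ∣ ((t : ℤ) ^ 2 - D).natAbs := ⟨_, rfl⟩
  rw [← hS]
  have hpos : 0 < p ^ (j / 2 + 1) := pow_pos hp.pos _
  rcases S.eq_empty_or_nonempty with h0 | ⟨v, hv⟩
  · rw [h0]
    simp only [Finset.card_empty, Nat.cast_zero]
    positivity
  have e : ∀ t ∈ S, (p : ℤ) ^ (j + 1) ∣ (t : ℤ) ^ 2 - D := by
    intro t ht
    rw [← Int.natAbs_dvd_natAbs, Int.natAbs_pow, Int.natAbs_natCast]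
    rw [hS] at ht
    exact (Finset.mem_filter.1 ht).2
  have hcov : ∀ t ∈ S, (p : ℤ) ^ (j / 2 + 1) ∣ (t : ℤ) - v ∨ (p : ℤ) ^ (j / 2 + 1) ∣ (t : ℤ) + v := by
    intro t ht
    apply pow_dvd_or hp
    have e3 : ((t : ℤ) - v) * ((t : ℤ) + v) = ((t : ℤ) ^ 2 - D) - ((v : ℤ) ^ 2 - D) := by ring
    rw [e3]
    exact dvd_sub (e t ht) (e v hv)
  have hsub : S ⊆ Finset.Ioc T (2 * T) := by
    rw [hS]
    exact Finset.filter_subset _ _
  have hA : (((S.filter fun t : ℕ => (p : ℤ) ^ (j / 2 + 1) ∣ (t : ℤ) - v).card : ℕ) : ℝ) ≤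
      T / ((p ^ (j / 2 + 1) : ℕ) : ℝ) + 1 := by
    refine card_class hpos _ ((Finset.filter_subset _ _).trans hsub) ?_
    intro x hx y hy
    have h1 := dvd_sub (Finset.mem_filter.1 hy).2 (Finset.mem_filter.1 hx).2
    rw [Nat.modEq_iff_dvd]
    push_cast
    rwa [sub_sub_sub_cancel_right] at h1
  have hB : (((S.filter fun t : ℕ => (p : ℤ) ^ (j / 2 + 1) ∣ (t : ℤ) + v).card : ℕ) : ℝ) ≤
      T / ((p ^ (j / 2 + 1) : ℕ) : ℝ) + 1 := by
    refine card_class hpos _ ((Finset.filter_subset _ _).trans hsub) ?_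
    intro x hx y hy
    have h1 := dvd_sub (Finset.mem_filter.1 hy).2 (Finset.mem_filter.1 hx).2
    rw [Nat.modEq_iff_dvd]
    push_cast
    rwa [add_sub_add_right_eq_sub] at h1
  have hU : S ⊆ (S.filter fun t : ℕ => (p : ℤ) ^ (j / 2 + 1) ∣ (t : ℤ) - v) ∪
      (S.filter fun t : ℕ => (p : ℤ) ^ (j / 2 + 1) ∣ (t : ℤ) + v) := by
    intro t ht
    rw [Finset.mem_union, Finset.mem_filter, Finset.mem_filter]
    rcases hcov t ht with h | h
    · exact Or.inl ⟨ht, h⟩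
    · exact Or.inr ⟨ht, h⟩
  have hc : (S.card : ℝ) ≤
      ((S.filter fun t : ℕ => (p : ℤ) ^ (j / 2 + 1) ∣ (t : ℤ) - v).card : ℝ) +
      ((S.filter fun t : ℕ => (p : ℤ) ^ (j / 2 + 1) ∣ (t : ℤ) + v).card : ℝ) := by
    exact_mod_cast (Finset.card_le_card hU).trans (Finset.card_union_le _ _)
  push_cast at hA hB
  have e2 : (T : ℝ) / (p : ℝ) ^ (j / 2 + 1) = T * (1 / (p : ℝ) ^ (j / 2 + 1)) := by ring
  rw [e2] at hA hB
  linarith

/-- the exponent of `p` as a number of powers -/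
theorem fact_le {p : ℕ} (hp : p.Prime) {m M : ℕ} (hm : m ≠ 0) (hM : m ≤ M) :
    m.factorization p ≤ ((Finset.range (Nat.log p M)).filter fun j => p ^ (j + 1) ∣ m).card := by
  have h1 : Finset.range (m.factorization p) ⊆
      (Finset.range (Nat.log p M)).filter fun j => p ^ (j + 1) ∣ m := by
    intro j hj
    rw [Finset.mem_range] at hj
    have h2 : p ^ (j + 1) ∣ m := (hp.pow_dvd_iff_le_factorization hm).2 hj
    rw [Finset.mem_filter, Finset.mem_range]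
    refine ⟨?_, h2⟩
    have h3 : p ^ (j + 1) ≤ M := (Nat.le_of_dvd (Nat.pos_of_ne_zero hm) h2).trans hM
    exact Nat.le_log_of_pow_le hp.one_lt h3
  simpa using Finset.card_le_card h1

end L1Aux

open L1Aux

theorem stL1 : StL1 := by
  intro p D T M hp h
  have hp1 : (1 : ℝ) < p := by exact_mod_cast hp.one_lt
  have hlog : 0 < Real.log p := Real.log_pos hp1
  set J := Nat.log p M with hJ
  have hJM : (J : ℝ) * Real.log p ≤ Real.log M := by
    rcases Nat.eq_zero_or_pos M with h0 | h0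
    · rw [hJ, h0]
      simp
    · have h1 := Nat.pow_log_le_self p h0.ne'
      rw [← Real.log_pow]
      apply Real.log_le_log (by positivity)
      exact_mod_cast h1
  have h1 : ∑ t ∈ Finset.Ioc T (2 * T), (((t : ℤ) ^ 2 - D).natAbs.factorization p : ℝ) ≤
      ∑ t ∈ Finset.Ioc T (2 * T), ∑ j ∈ Finset.range J,
        if p ^ (j + 1) ∣ ((t : ℤ) ^ 2 - D).natAbs then (1 : ℝ) else 0 := by
    refine Finset.sum_le_sum fun t ht => ?_
    obtain ⟨h2, h3⟩ := h t ht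
    have h4 := fact_le hp (Int.natAbs_ne_zero.2 h2) h3
    rw [Finset.sum_boole]
    exact_mod_cast h4
  have h5 : ∑ t ∈ Finset.Ioc T (2 * T), ∑ j ∈ Finset.range J,
        (if p ^ (j + 1) ∣ ((t : ℤ) ^ 2 - D).natAbs then (1 : ℝ) else 0) ≤
      ∑ j ∈ Finset.range J, 2 * (T * (1 / (p : ℝ) ^ (j / 2 + 1)) + 1) := by
    rw [Finset.sum_comm]
    refine Finset.sum_le_sum fun j _ => ?_
    rw [Finset.sum_boole]
    exact card_pow hp D T j
  have h6 : ∑ j ∈ Finset.range J, 2 * ((T : ℝ) * (1 / (p : ℝ) ^ (j / 2 + 1)) + 1) =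
      2 * T * ∑ j ∈ Finset.range J, 1 / (p : ℝ) ^ (j / 2 + 1) + 2 * J := by
    rw [← Finset.mul_sum, Finset.sum_add_distrib, ← Finset.mul_sum, Finset.sum_const,
      Finset.card_range, nsmul_eq_mul]
    ring
  have h7 := geom_le hp1 J
  have h8 : ∑ t ∈ Finset.Ioc T (2 * T), (((t : ℤ) ^ 2 - D).natAbs.factorization p : ℝ) ≤
      2 * T * (2 / ((p : ℝ) - 1)) + 2 * J := by
    refine (h1.trans h5).trans ?_
    rw [h6]
    have : 2 * (T : ℝ) * ∑ j ∈ Finset.range J, 1 / (p : ℝ) ^ (j / 2 + 1) ≤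
        2 * T * (2 / ((p : ℝ) - 1)) := mul_le_mul_of_nonneg_left h7 (by positivity)
    linarith
  rw [← Finset.sum_mul]
  calc (∑ t ∈ Finset.Ioc T (2 * T), (((t : ℤ) ^ 2 - D).natAbs.factorization p : ℝ)) * Real.log p ≤
        (2 * T * (2 / ((p : ℝ) - 1)) + 2 * J) * Real.log p :=
        mul_le_mul_of_nonneg_right h8 hlog.le
    _ = 4 * T * (Real.log p / ((p : ℝ) - 1)) + 2 * (J * Real.log p) := by ring
    _ ≤ _ := by linarith

end Pool.Agent.Lib.MP_da4d09_nt.PL
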