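import Pool.Agent.Lib.MP_da4d09_nt.PL.Defs

/-!
(R) every reduced residue class contains a small rough number.
-/

set_option autoImplicit false

namespace Pool.Agent.Lib.MP_da4d09_nt.PL

open Finset

namespace RAux

/-- the number of multiples of `d` in an arithmetic progression -/
theorem count_dvd {d n : ℕ} (r s : ℕ) (hd : 0 < d) (h : d.Coprime n) :
    |((((Finset.range s).filter fun i => d ∣ r + i * n).card : ℕ) : ℝ) - s / d| ≤ 1 := by
  haveI : NeZero d := ⟨hd.ne'⟩
  obtain ⟨c, hc⟩ : ∃ c : ℕ, ∀ i, d ∣ r + i * n ↔ i ≡ c [MOD d] := by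
    refine ⟨(-(r : ZMod d) * ((ZMod.unitOfCoprime n h.symm)⁻¹ : (ZMod d)ˣ)).val, fun i => ?_⟩
    rw [← ZMod.natCast_eq_natCast_iff, ZMod.natCast_zmod_val, ← ZMod.natCast_eq_zero_iff]
    push_cast
    have hu : (n : ZMod d) = (ZMod.unitOfCoprime n h.symm : (ZMod d)ˣ) :=
      (ZMod.coe_unitOfCoprime n h.symm).symm
    rw [hu, Units.eq_mul_inv_iff_mul_eq, add_comm, add_eq_zero_iff_eq_neg]
  rw [Finset.filter_congr fun i _ => hc i, ← Nat.count_eq_card_filter_range,
    Nat.count_modEq_card _ hd]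
  have h1 : (s : ℝ) = d * ((s / d : ℕ) : ℝ) + ((s % d : ℕ) : ℝ) := by
    exact_mod_cast (Nat.div_add_mod s d).symm
  have hd' : (0 : ℝ) < d := by exact_mod_cast hd
  have h2 : (s : ℝ) / d = ((s / d : ℕ) : ℝ) + ((s % d : ℕ) : ℝ) / d := by
    conv_lhs => rw [h1]
    field_simp
  have h3 : ((s % d : ℕ) : ℝ) / d ≤ 1 := by
    rw [div_le_one hd']
    exact_mod_cast (Nat.mod_lt s hd).le
  have h4 : 0 ≤ ((s % d : ℕ) : ℝ) / d := by positivity
  rw [h2, abs_le]
  push_cast
  split_ifs <;> constructor <;> push_cast <;> linarith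

/-- sets of primes with the same product are equal -/
theorem prod_inj {D D' : Finset ℕ} (hD : ∀ q ∈ D, q.Prime) (hD' : ∀ q ∈ D', q.Prime)
    (h : ∏ q ∈ D, q = ∏ q ∈ D', q) : D = D' := by
  have key : ∀ S : Finset ℕ, (∀ q ∈ S, q.Prime) → ∀ p : ℕ, p.Prime → (p ∈ S ↔ p ∣ ∏ q ∈ S, q) := by
    intro S hS p hp
    constructor
    · intro h
      exact Finset.dvd_prod_of_mem _ h
    · intro h
      obtain ⟨q, hq, hpq⟩ := (hp.prime.dvd_finset_prod_iff _).1 h
      rwa [(Nat.prime_dvd_prime_iff_eq hp (hS q hq)).1 hpq]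
  ext p
  constructor
  · intro hp
    rw [key D' hD' p (hD p hp), ← h]
    exact (key D hD p (hD p hp)).1 hp
  · intro hp
    rw [key D hD p (hD' p hp), h]
    exact (key D' hD' p (hD' p hp)).1 hp

end RAux

open RAux in
/-- (R) every reduced residue class contains a small rough number -/
theorem stR (h : StW) : StR := by
  classical
  obtain ⟨k0, hk0⟩ := h
  refine ⟨max k0 4, fun k hk n g hn hg => ?_⟩
  obtain ⟨w, hw1, hw2, hw3, hw4⟩ := hk0 k (le_of_max_le_left hk)
  have hk4 : 4 ≤ k := le_of_max_le_right hk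
  -- the representative
  obtain ⟨r, hr1, hrn, hrg⟩ : ∃ r : ℕ, 1 ≤ r ∧ r ≤ n ∧ r ≡ g [MOD n] := by
    refine ⟨(g + (n - 1)) % n + 1, by omega, ?_, ?_⟩
    · have := Nat.mod_lt (g + (n - 1)) hn
      omega
    · have h1 : (g + (n - 1)) % n + 1 ≡ g + (n - 1) + 1 [MOD n] :=
        (Nat.mod_modEq _ _).add_right 1
      have h2 : g + (n - 1) + 1 = g + n := by omega
      rw [h2] at h1
      exact h1.trans (by unfold Nat.ModEq; rw [Nat.add_mod_right])
  have hrc : r.Coprime n := by
    have h1 := hrg.gcd_eq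
    unfold Nat.Coprime
    rw [h1]
    exact hg
  by_contra hcon
  push Not at hcon
  have hss : ss k = zz k ^ 16 := rfl
  have hz0 : 0 < zz k := by
    unfold zz
    positivity
  -- every member of the progression has a small prime factor
  have hbad : ∀ i < ss k, ∃ p ∈ PP k, p ∣ r + i * n := by
    intro i hi
    by_contra h1
    push Not at h1
    have h2 : Rough (zz k) (r + i * n) := by
      refine ⟨by omega, fun p hp hpd => ?_⟩
      by_contra h3
      refine h1 p ?_ hpd
      rw [PP, Finset.mem_filter, Finset.mem_range]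
      exact ⟨by omega, hp⟩
    have h3 : r + i * n ≡ g [MOD n] := by
      refine Nat.ModEq.trans ?_ hrg
      unfold Nat.ModEq
      rw [Nat.add_mul_mod_self_right]
    have h4 := hcon (r + i * n) h2 h3
    have h5 : r + i * n ≤ n * ss k := by
      calc r + i * n ≤ n + i * n := by omega
        _ = n * (i + 1) := by ring
        _ ≤ n * ss k := Nat.mul_le_mul_left _ hi
    omega
  -- the sum over the progression
  have hsum0 : ∑ D ∈ (PP k).powerset, w D *
      ((((Finset.range (ss k)).filter fun i => ∀ q ∈ D, q ∣ r + i * n).card : ℕ) : ℝ) ≤ 0 := by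
    have h1 : ∀ i ∈ Finset.range (ss k), ∑ D ∈ (PP k).powerset, w D *
        ∏ q ∈ D, (if q ∣ r + i * n then (1 : ℝ) else 0) ≤ 0 := by
      intro i hi
      obtain ⟨p, hp, hpd⟩ := hbad i (Finset.mem_range.1 hi)
      refine (hw3 (fun q => if q ∣ r + i * n then (1 : ℝ) else 0) ?_ ?_).trans ?_
      · intro q
        split_ifs <;> norm_num
      · intro q
        split_ifs <;> norm_num
      · refine (Finset.prod_eq_zero hp ?_).le
        rw [if_pos hpd, sub_self]
    have h2 := Finset.sum_nonpos h1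
    rw [Finset.sum_comm] at h2
    refine le_trans (le_of_eq (Finset.sum_congr rfl fun D _ => ?_)) h2
    rw [← Finset.mul_sum]
    congr 1
    rw [Finset.card_filter]
    push_cast
    refine Finset.sum_congr rfl fun i _ => ?_
    rw [Finset.prod_ite_zero, Finset.prod_const_one]
  -- the densities
  obtain ⟨h', hh'⟩ : ∃ h' : ℕ → ℝ, h' = fun q => if q ∣ n then (0 : ℝ) else 1 / q := ⟨_, rfl⟩
  have hcount : ∀ D ∈ (PP k).powerset,
      |((((Finset.range (ss k)).filter fun i => ∀ q ∈ D, q ∣ r + i * n).card : ℕ) : ℝ) -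
        ss k * ∏ q ∈ D, h' q| ≤ 1 := by
    intro D hD
    have hDp : ∀ q ∈ D, q.Prime := fun q hq =>
      (Finset.mem_filter.1 (Finset.mem_powerset.1 hD hq)).2
    by_cases hex : ∃ q ∈ D, q ∣ n
    · obtain ⟨q, hq, hqn⟩ := hex
      have h1 : ((Finset.range (ss k)).filter fun i => ∀ q ∈ D, q ∣ r + i * n) = ∅ := by
        rw [Finset.filter_eq_empty_iff]
        intro i _ h2
        have h3 : q ∣ r := (Nat.dvd_add_left (dvd_mul_of_dvd_right hqn i)).1 (h2 q hq)
        have h4 := Nat.dvd_gcd h3 hqn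
        rw [hrc] at h4
        exact (hDp q hq).one_lt.ne' (Nat.dvd_one.1 h4)
      have h5 : ∏ q ∈ D, h' q = 0 := Finset.prod_eq_zero hq (by rw [hh']; exact if_pos hqn)
      rw [h1, h5]
      norm_num
    · push Not at hex
      have hcop : (∏ q ∈ D, q).Coprime n := Nat.Coprime.prod_left fun q hq =>
        (Nat.Prime.coprime_iff_not_dvd (hDp q hq)).2 (hex q hq)
      have hpos : 0 < ∏ q ∈ D, q := Finset.prod_pos fun q hq => (hDp q hq).pos
      have h1 : ((Finset.range (ss k)).filter fun i => ∀ q ∈ D, q ∣ r + i * n) =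
          (Finset.range (ss k)).filter fun i => (∏ q ∈ D, q) ∣ r + i * n := by
        refine Finset.filter_congr fun i _ => ?_
        constructor
        · intro h2
          exact Finset.prod_primes_dvd _ (fun q hq => (hDp q hq).prime) h2
        · intro h2 q hq
          exact (Finset.dvd_prod_of_mem _ hq).trans h2
      have h2 : ∏ q ∈ D, h' q = 1 / ((∏ q ∈ D, q : ℕ) : ℝ) := by
        rw [hh']
        push_cast
        rw [one_div, ← Finset.prod_inv_distrib]
        refine Finset.prod_congr rfl fun q hq => ?_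
        rw [if_neg (hex q hq), one_div]
      rw [h1, h2, mul_one_div]
      exact count_dvd r (ss k) hpos hcop
  -- the number of sets with a weight
  have hcard : ((((PP k).powerset.filter fun D => w D ≠ 0).card : ℕ) : ℝ) ≤ (zz k : ℝ) ^ 15 := by
    have h1 : ((PP k).powerset.filter fun D => w D ≠ 0).card ≤
        (Finset.Icc 1 (zz k ^ 15)).card := by
      refine Finset.card_le_card_of_injOn (fun D => ∏ q ∈ D, q) ?_ ?_
      · intro D hD
        obtain ⟨hD1, hD2⟩ := Finset.mem_filter.1 hD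
        have hDp : ∀ q ∈ D, q.Prime := fun q hq =>
          (Finset.mem_filter.1 (Finset.mem_powerset.1 hD1 hq)).2
        exact Finset.mem_coe.2 (Finset.mem_Icc.2
          ⟨Finset.prod_pos fun q hq => (hDp q hq).pos, hw2 D hD1 hD2⟩)
      · intro D hD D' hD' he
        have hD1 := (Finset.mem_filter.1 hD).1
        have hD1' := (Finset.mem_filter.1 hD').1
        exact prod_inj
          (fun q hq => (Finset.mem_filter.1 (Finset.mem_powerset.1 hD1 hq)).2)
          (fun q hq => (Finset.mem_filter.1 (Finset.mem_powerset.1 hD1' hq)).2) he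
    rw [Nat.card_Icc, Nat.add_sub_cancel] at h1
    exact_mod_cast h1
  -- the error
  have herr : |∑ D ∈ (PP k).powerset, w D *
      (((((Finset.range (ss k)).filter fun i => ∀ q ∈ D, q ∣ r + i * n).card : ℕ) : ℝ) -
        ss k * ∏ q ∈ D, h' q)| ≤ (zz k : ℝ) ^ 15 := by
    refine (Finset.abs_sum_le_sum_abs _ _).trans ?_
    refine le_trans ?_ hcard
    rw [Finset.card_filter]
    push_cast
    refine Finset.sum_le_sum fun D hD => ?_
    rw [abs_mul]
    by_cases h1 : w D = 0
    · rw [h1, abs_zero, zero_mul]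
      split_ifs <;> norm_num
    · rw [if_pos h1]
      exact mul_le_one₀ (hw1 D) (abs_nonneg _) (hcount D hD)
  -- the main term
  have hmain := hw4 h' (fun q => by rw [hh']; dsimp only; split_ifs <;> positivity) (fun q _ => by
    rw [hh']; dsimp only; split_ifs
    · positivity
    · exact le_rfl)
  have hsplit : ∑ D ∈ (PP k).powerset, w D *
      ((((Finset.range (ss k)).filter fun i => ∀ q ∈ D, q ∣ r + i * n).card : ℕ) : ℝ) =
      ss k * ∑ D ∈ (PP k).powerset, w D * ∏ q ∈ D, h' q + ∑ D ∈ (PP k).powerset, w D *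
      (((((Finset.range (ss k)).filter fun i => ∀ q ∈ D, q ∣ r + i * n).card : ℕ) : ℝ) -
        ss k * ∏ q ∈ D, h' q) := by
    rw [Finset.mul_sum, ← Finset.sum_add_distrib]
    refine Finset.sum_congr rfl fun D _ => ?_
    ring
  have hz : (2 : ℝ) ^ (3 * k) < zz k := by
    have h1 : 3 * k < 2 ^ k := by
      clear * - hk4
      induction k, hk4 using Nat.le_induction with
      | base => norm_num
      | succ k hk ih =>
        rw [pow_succ]
        omega
    have h2 : 2 ^ (3 * k) < zz k := by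
      unfold zz
      exact Nat.pow_lt_pow_right (by norm_num) h1
    exact_mod_cast h2
  have hs : ((ss k : ℕ) : ℝ) = (zz k : ℝ) ^ 16 := by
    rw [hss]
    push_cast
    rfl
  have hzpos : (0 : ℝ) < zz k := by exact_mod_cast hz0
  have h2pos : (0 : ℝ) < 2 ^ (3 * k) := by positivity
  have hfin : (zz k : ℝ) ^ 15 < (ss k : ℝ) * (1 / 2 ^ (3 * k)) := by
    rw [hs, mul_one_div, lt_div_iff₀ h2pos, pow_succ (zz k : ℝ) 15]
    exact mul_lt_mul_of_pos_left hz (pow_pos hzpos 15)
  have hfin2 : (ss k : ℝ) * (1 / 2 ^ (3 * k)) ≤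
      ss k * ∑ D ∈ (PP k).powerset, w D * ∏ q ∈ D, h' q :=
    mul_le_mul_of_nonneg_left hmain (Nat.cast_nonneg _)
  rw [hsplit] at hsum0
  have := (abs_le.1 herr).1
  linarith

end Pool.Agent.Lib.MP_da4d09_nt.PL
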