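import Mathlib
import Pool.Agent.Lib.MP_da4d09_nt.PL.Defs
import Pool.Agent.Lib.MP_a17b09_nt.Divisor

/-!
(S) sets which are invariant under the group `H` contain small rough numbers.
-/

set_option autoImplicit false

namespace Pool.Agent.Lib.MP_da4d09_nt.PL

open Finset

namespace SAux

theorem mem_PP {k q : ℕ} : q ∈ PP k ↔ q ≤ zz k ∧ q.Prime := by
  unfold PP
  rw [mem_filter, mem_range, Nat.lt_succ_iff]

theorem prime_of_mem {k q : ℕ} {D : Finset ℕ} (hD : D ∈ (PP k).powerset) (hq : q ∈ D) :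
    q.Prime := (mem_PP.1 (mem_powerset.1 hD hq)).2

theorem card_supp {k : ℕ} {w : Finset ℕ → ℝ}
    (h : ∀ D ∈ (PP k).powerset, w D ≠ 0 → ∏ q ∈ D, q ≤ zz k ^ 15) :
    (((PP k).powerset.filter fun D => w D ≠ 0).card : ℝ) ≤ (zz k : ℝ) ^ 15 := by
  have h1 : ((PP k).powerset.filter fun D => w D ≠ 0).card ≤
      (Finset.Icc 1 (zz k ^ 15)).card := by
    apply Finset.card_le_card_of_injOn (fun D => ∏ q ∈ D, q)
    · intro D hD
      have hD' := mem_filter.1 hD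
      exact mem_Icc.2 ⟨Finset.prod_pos fun q hq => (prime_of_mem hD'.1 hq).pos,
        h D hD'.1 hD'.2⟩
    · intro D hD D' hD' e
      have h1 := (mem_filter.1 hD).1
      have h2 := (mem_filter.1 hD').1
      have e1 := Nat.primeFactors_prod (s := D) fun q hq => prime_of_mem h1 hq
      have e2 := Nat.primeFactors_prod (s := D') fun q hq => prime_of_mem h2 hq
      simp only at e
      rw [← e1, ← e2, e]
  rw [Nat.card_Icc, Nat.add_sub_cancel] at h1
  exact_mod_cast h1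

theorem prod_ind {k v : ℕ} {D : Finset ℕ} (hD : D ∈ (PP k).powerset) :
    ∏ q ∈ D, (if q ∣ v then (1 : ℝ) else 0) = if (∏ q ∈ D, q) ∣ v then 1 else 0 := by
  rw [Finset.prod_ite_zero, Finset.prod_const_one]
  have h : (∀ q ∈ D, q ∣ v) ↔ (∏ q ∈ D, q) ∣ v := by
    constructor
    · intro h
      exact Finset.prod_primes_dvd v (fun q hq => (prime_of_mem hD hq).prime) h
    · intro h q hq
      exact (Finset.dvd_prod_of_mem (fun q => q) hq).trans h
  by_cases h1 : ∀ q ∈ D, q ∣ v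
  · rw [if_pos h1, if_pos (h.1 h1)]
  · rw [if_neg h1, if_neg fun h2 => h1 (h.2 h2)]

theorem sieve {k : ℕ} {w : Finset ℕ → ℝ}
    (h3 : ∀ h : ℕ → ℝ, (∀ q, 0 ≤ h q) → (∀ q, h q ≤ 1) →
      ∑ D ∈ (PP k).powerset, w D * ∏ q ∈ D, h q ≤ ∏ q ∈ PP k, (1 - h q))
    (V : Finset ℕ) (hV : ∀ v ∈ V, 0 < v ∧ ¬ Rough (zz k) v) :
    ∑ D ∈ (PP k).powerset, w D * ((V.filter fun v => (∏ q ∈ D, q) ∣ v).card : ℝ) ≤ 0 := by
  have h1 : ∀ v ∈ V, ∑ D ∈ (PP k).powerset,
      w D * (if (∏ q ∈ D, q) ∣ v then (1 : ℝ) else 0) ≤ 0 := by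
    intro v hv
    have h2 := h3 (fun q => if q ∣ v then 1 else 0) (fun q => by split_ifs <;> norm_num)
      (fun q => by split_ifs <;> norm_num)
    have h4 : ∏ q ∈ PP k, (1 - (if q ∣ v then (1 : ℝ) else 0)) = 0 := by
      obtain ⟨hv0, hr⟩ := hV v hv
      unfold Rough at hr
      push Not at hr
      obtain ⟨p, hp, hpv, hpz⟩ := hr hv0
      apply Finset.prod_eq_zero (mem_PP.2 ⟨hpz, hp⟩)
      rw [if_pos hpv, sub_self]
    rw [h4] at h2
    refine (Finset.sum_congr rfl fun D hD => ?_).trans_le h2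
    rw [prod_ind hD]
  have h2 := Finset.sum_nonpos h1
  rw [Finset.sum_comm] at h2
  refine (Finset.sum_congr rfl fun D _ => ?_).trans_le h2
  rw [← Finset.mul_sum, Finset.sum_boole]

theorem count_eq (n : ℕ) (B0 : Finset (ZMod n)) (Y d : ℕ) (hd : 0 < d) (u : (ZMod n)ˣ)
    (hu : (u : ZMod n) = (d : ZMod n)) :
    (((Finset.Icc 1 Y).filter fun v : ℕ => (v : ZMod n) ∈ B0).filter fun v => d ∣ v).card =
    ((Finset.Icc 1 (Y / d)).filter fun v : ℕ =>
      (v : ZMod n) ∈ B0.image fun x => ((u⁻¹ : (ZMod n)ˣ) : ZMod n) * x).card := by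
  symm
  apply Finset.card_bij (fun v _ => d * v)
  · intro v hv
    rw [mem_filter, mem_Icc, mem_image] at hv
    obtain ⟨⟨h1, h2⟩, x, hx, hxv⟩ := hv
    rw [mem_filter, mem_filter, mem_Icc]
    refine ⟨⟨⟨Nat.mul_pos hd h1, ?_⟩, ?_⟩, dvd_mul_right _ _⟩
    · rw [Nat.le_div_iff_mul_le hd] at h2
      rwa [mul_comm]
    · have : ((d * v : ℕ) : ZMod n) = x := by
        rw [Nat.cast_mul, ← hxv, ← hu, ← mul_assoc, Units.mul_inv, one_mul]
      rwa [this]
  · intro v _ v' _ e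
    exact Nat.eq_of_mul_eq_mul_left hd e
  · intro v hv
    rw [mem_filter, mem_filter, mem_Icc] at hv
    obtain ⟨⟨⟨h1, h2⟩, h3⟩, v', rfl⟩ := hv
    refine ⟨v', ?_, rfl⟩
    rw [mem_filter, mem_Icc, mem_image]
    refine ⟨⟨Nat.pos_of_mul_pos_left h1, ?_⟩, _, h3, ?_⟩
    · rw [Nat.le_div_iff_mul_le hd, mul_comm]
      exact h2
    · rw [Nat.cast_mul, ← hu, ← mul_assoc, Units.inv_mul, one_mul]

/-- the density -/
noncomputable def dens (n : ℕ) (q : ℕ) : ℝ := if q ∣ n then 0 else 1 / (q : ℝ)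

theorem count_bound (hF : StF) {k n : ℕ} (hn : NeZero n) {D : Finset ℕ}
    (hD : D ∈ (PP k).powerset) (B0 : Finset (ZMod n)) (hB0 : ∀ x ∈ B0, IsUnit x)
    (H : Subgroup (ZMod n)ˣ) (hH : ∀ h ∈ H, ∀ x ∈ B0, (h : ZMod n) * x ∈ B0) (Y : ℕ) :
    |((((Finset.Icc 1 Y).filter fun v : ℕ => (v : ZMod n) ∈ B0).filter
        fun v => (∏ q ∈ D, q) ∣ v).card : ℝ) - (B0.card * Y / n : ℝ) * ∏ q ∈ D, dens n q| ≤
      (B0.card : ℝ) / n +
        √((n : ℝ) * B0.card / Nat.card H) * (n.divisors.card * (1 + Real.log n)) := by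
  have hn0 : 0 < n := Nat.pos_of_ne_zero hn.out
  have hn1 : (1 : ℝ) ≤ n := by exact_mod_cast hn0
  have hE : 0 ≤ √((n : ℝ) * B0.card / Nat.card H) * (n.divisors.card * (1 + Real.log n)) := by
    have := Real.log_nonneg hn1
    positivity
  by_cases h : ∃ q ∈ D, q ∣ n
  · obtain ⟨q, hq, hqn⟩ := h
    have h1 : ∏ q ∈ D, dens n q = 0 := by
      apply Finset.prod_eq_zero hq
      unfold dens
      rw [if_pos hqn]
    have h2 : (((Finset.Icc 1 Y).filter fun v : ℕ => (v : ZMod n) ∈ B0).filter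
        fun v => (∏ q ∈ D, q) ∣ v) = ∅ := by
      rw [Finset.eq_empty_iff_forall_notMem]
      intro v hv
      rw [mem_filter, mem_filter] at hv
      have h3 := hB0 _ hv.1.2
      rw [ZMod.isUnit_iff_coprime] at h3
      have h4 : q ∣ v := (Finset.dvd_prod_of_mem (fun q => q) hq).trans hv.2
      have h5 := Nat.dvd_gcd h4 hqn
      rw [h3] at h5
      exact (prime_of_mem hD hq).one_lt.ne' (Nat.dvd_one.1 h5)
    rw [h1, h2, mul_zero, Finset.card_empty, Nat.cast_zero, sub_zero, abs_zero]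
    positivity
  · push Not at h
    set d := ∏ q ∈ D, q with hd
    have hd0 : 0 < d := Finset.prod_pos fun q hq => (prime_of_mem hD hq).pos
    have hcop : d.Coprime n := Nat.Coprime.prod_left fun q hq =>
      ((prime_of_mem hD hq).coprime_iff_not_dvd).2 (h q hq)
    set u := ZMod.unitOfCoprime d hcop with hu
    have hud : (u : ZMod n) = (d : ZMod n) := ZMod.coe_unitOfCoprime d hcop
    rw [count_eq n B0 Y d hd0 u hud]
    set B1 := B0.image fun x => ((u⁻¹ : (ZMod n)ˣ) : ZMod n) * x with hB1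
    have hcard : B1.card = B0.card := by
      apply Finset.card_image_of_injective
      intro x y e
      exact (Units.mul_right_inj u⁻¹).1 e
    have hinv : ∀ h ∈ H, ∀ x ∈ B1, (h : ZMod n) * x ∈ B1 := by
      intro g hg x hx
      rw [hB1, mem_image] at hx ⊢
      obtain ⟨y, hy, rfl⟩ := hx
      exact ⟨(g : ZMod n) * y, hH g hg y hy, by ring⟩
    have key := hF n hn B1 H hinv (Y / d)
    rw [hcard] at key
    have h1 : ∏ q ∈ D, dens n q = 1 / (d : ℝ) := by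
      rw [hd, Nat.cast_prod, one_div, ← Finset.prod_inv_distrib]
      refine Finset.prod_congr rfl fun q hq => ?_
      unfold dens
      rw [if_neg (h q hq), one_div]
    rw [h1]
    have hdR : (0 : ℝ) < d := by exact_mod_cast hd0
    have f1 : ((Y / d : ℕ) : ℝ) ≤ (Y : ℝ) / d := Nat.cast_div_le
    have f2 : (Y : ℝ) / d ≤ ((Y / d : ℕ) : ℝ) + 1 := by
      rw [div_le_iff₀ hdR]
      have := Nat.lt_div_mul_add hd0 (a := Y)
      have h2 : (Y : ℝ) ≤ ((Y / d : ℕ) : ℝ) * d + d := by exact_mod_cast this.le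
      linarith
    have f3 : |(B0.card : ℝ) * ((Y / d : ℕ) : ℝ) / n - (B0.card * Y / n : ℝ) * (1 / (d : ℝ))| ≤
        (B0.card : ℝ) / n := by
      have e : (B0.card : ℝ) * ((Y / d : ℕ) : ℝ) / n - (B0.card * Y / n : ℝ) * (1 / (d : ℝ)) =
          -((B0.card : ℝ) / n * ((Y : ℝ) / d - ((Y / d : ℕ) : ℝ))) := by
        ring
      have h0 : (0 : ℝ) ≤ (B0.card : ℝ) / n := by positivity
      rw [e, abs_neg, abs_of_nonneg (mul_nonneg h0 (by linarith))]
      calc (B0.card : ℝ) / n * ((Y : ℝ) / d - ((Y / d : ℕ) : ℝ)) ≤ (B0.card : ℝ) / n * 1 :=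
            mul_le_mul_of_nonneg_left (by linarith) h0
        _ = _ := mul_one _
    refine (abs_sub_le _ ((B0.card : ℝ) * ((Y / d : ℕ) : ℝ) / n) _).trans ?_
    linarith

theorem main_ineq {k n : ℕ} {w : Finset ℕ → ℝ} (hw1 : ∀ D, |w D| ≤ 1)
    (hw2 : ∀ D ∈ (PP k).powerset, w D ≠ 0 → ∏ q ∈ D, q ≤ zz k ^ 15)
    (hw4 : ∀ h : ℕ → ℝ, (∀ q, 0 ≤ h q) → (∀ q ∈ PP k, h q ≤ 1 / (q : ℝ)) →
      1 / (2 : ℝ) ^ (3 * k) ≤ ∑ D ∈ (PP k).powerset, w D * ∏ q ∈ D, h q)
    (c : Finset ℕ → ℝ) (X R : ℝ) (hX : 0 ≤ X)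
    (hc : ∀ D ∈ (PP k).powerset, |c D - X * ∏ q ∈ D, dens n q| ≤ R)
    (hs : ∑ D ∈ (PP k).powerset, w D * c D ≤ 0) :
    X / (2 : ℝ) ^ (3 * k) ≤ (zz k : ℝ) ^ 15 * R := by
  have hR : 0 ≤ R := (abs_nonneg _).trans (hc ∅ (Finset.empty_mem_powerset _))
  have h1 : X / (2 : ℝ) ^ (3 * k) ≤
      ∑ D ∈ (PP k).powerset, w D * (X * ∏ q ∈ D, dens n q) := by
    have h2 := hw4 (dens n) (fun q => by unfold dens; split_ifs <;> positivity) (fun q _ => by
      unfold dens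
      split_ifs
      · positivity
      · exact le_rfl)
    calc X / (2 : ℝ) ^ (3 * k) = X * (1 / (2 : ℝ) ^ (3 * k)) := by ring
      _ ≤ X * ∑ D ∈ (PP k).powerset, w D * ∏ q ∈ D, dens n q :=
        mul_le_mul_of_nonneg_left h2 hX
      _ = _ := by
        rw [Finset.mul_sum]
        exact Finset.sum_congr rfl fun D _ => by ring
  have h2 : ∑ D ∈ (PP k).powerset, w D * (X * ∏ q ∈ D, dens n q) ≤
      ∑ D ∈ (PP k).powerset, (w D * c D + if w D ≠ 0 then R else 0) := by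
    refine Finset.sum_le_sum fun D hD => ?_
    by_cases h : w D = 0
    · rw [h, if_neg (not_not.2 rfl)]
      simp
    · rw [if_pos h]
      have h3 : w D * (X * ∏ q ∈ D, dens n q) - w D * c D ≤ R := by
        rw [← mul_sub]
        refine (le_abs_self _).trans ?_
        rw [abs_mul, abs_sub_comm]
        calc |w D| * |c D - X * ∏ q ∈ D, dens n q| ≤ 1 * R :=
              mul_le_mul (hw1 D) (hc D hD) (abs_nonneg _) zero_le_one
          _ = R := one_mul R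
      linarith
  rw [Finset.sum_add_distrib, ← Finset.sum_filter, Finset.sum_const, nsmul_eq_mul] at h2
  have h3 := card_supp hw2
  have h4 : ((((PP k).powerset.filter fun D => w D ≠ 0).card : ℕ) : ℝ) * R ≤
      (zz k : ℝ) ^ 15 * R := mul_le_mul_of_nonneg_right h3 hR
  linarith

/-- the numerical part -/
theorem numeric (A : ℕ) (C : ℝ) : ∃ k0 : ℕ, ∀ k ≥ k0,
    2 * (2 : ℝ) ^ (3 * k) * ((zz k : ℝ) ^ 15 *
      (C * (zz k : ℝ) * (1 + 2 * ((A : ℝ) + 1) * 2 ^ k))) ≤ (zz k : ℝ) ^ 48 ∧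
    2 * (2 : ℝ) ^ (3 * k) < (zz k : ℝ) := by
  obtain ⟨k1, hk1⟩ := pow_unbounded_of_one_lt (max C (2 * ((A : ℝ) + 1) + 1)) one_lt_two
  refine ⟨max k1 5, fun k hk => ?_⟩
  have hk1' : (2 : ℝ) ^ k1 ≤ 2 ^ k :=
    pow_le_pow_right₀ one_le_two ((le_max_left _ _).trans hk)
  have hk5 : 5 ≤ k := (le_max_right _ _).trans hk
  have hC : C ≤ 2 ^ k := (le_max_left _ _).trans (hk1.le.trans hk1')
  have hA : 2 * ((A : ℝ) + 1) + 1 ≤ 2 ^ k := (le_max_right _ _).trans (hk1.le.trans hk1')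
  have h0 : (1 : ℝ) ≤ 2 ^ k := one_le_pow₀ one_le_two
  have hz : (zz k : ℝ) = 2 ^ (2 ^ k) := by
    unfold zz
    push_cast
    rfl
  have hkk : 3 * k + 1 < 2 ^ k := by
    have : ∀ m : ℕ, 3 * (m + 5) + 1 < 2 ^ (m + 5) := by
      intro m
      induction m with
      | zero => norm_num
      | succ m ih => rw [show m + 1 + 5 = (m + 5) + 1 by ring, pow_succ]; omega
    obtain ⟨m, rfl⟩ := Nat.exists_eq_add_of_le hk5
    have h1 := this m
    rw [add_comm m 5] at h1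
    exact h1
  have hzk : 2 * (2 : ℝ) ^ (3 * k) < (zz k : ℝ) := by
    rw [hz, ← pow_succ']
    exact pow_lt_pow_right₀ one_lt_two hkk
  have hz0 : (0 : ℝ) < zz k := by rw [hz]; positivity
  have hz1 : (1 : ℝ) ≤ zz k := by rw [hz]; exact one_le_pow₀ one_le_two
  refine ⟨?_, hzk⟩
  have h2k : (2 : ℝ) ^ k ≤ zz k := by
    rw [hz]
    exact pow_le_pow_right₀ one_le_two Nat.lt_two_pow_self.le
  have h3 : 1 + 2 * ((A : ℝ) + 1) * 2 ^ k ≤ (zz k : ℝ) * zz k := by
    calc 1 + 2 * ((A : ℝ) + 1) * 2 ^ k ≤ (2 * ((A : ℝ) + 1) + 1) * 2 ^ k := by linarith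
      _ ≤ 2 ^ k * 2 ^ k := by gcongr
      _ ≤ (zz k : ℝ) * zz k := by gcongr
  have h4 : 0 ≤ 1 + 2 * ((A : ℝ) + 1) * 2 ^ k := by positivity
  calc 2 * (2 : ℝ) ^ (3 * k) * ((zz k : ℝ) ^ 15 *
      (C * (zz k : ℝ) * (1 + 2 * ((A : ℝ) + 1) * 2 ^ k)))
      ≤ zz k * ((zz k : ℝ) ^ 15 * (zz k * (zz k : ℝ) * (zz k * zz k))) := by
        have h5 : C * (zz k : ℝ) * (1 + 2 * ((A : ℝ) + 1) * 2 ^ k) ≤
            zz k * (zz k : ℝ) * (zz k * zz k) := by
          calc C * (zz k : ℝ) * (1 + 2 * ((A : ℝ) + 1) * 2 ^ k) ≤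
              zz k * (zz k : ℝ) * (1 + 2 * ((A : ℝ) + 1) * 2 ^ k) := by
                gcongr
                exact hC.trans h2k
            _ ≤ _ := by gcongr
        have h6 : (zz k : ℝ) ^ 15 * (C * (zz k : ℝ) * (1 + 2 * ((A : ℝ) + 1) * 2 ^ k)) ≤
            (zz k : ℝ) ^ 15 * (zz k * (zz k : ℝ) * (zz k * zz k)) := by gcongr
        calc _ ≤ 2 * (2 : ℝ) ^ (3 * k) * ((zz k : ℝ) ^ 15 * (zz k * (zz k : ℝ) *
              (zz k * zz k))) := mul_le_mul_of_nonneg_left h6 (by positivity)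
          _ ≤ _ := mul_le_mul_of_nonneg_right hzk.le (by positivity)
    _ = (zz k : ℝ) ^ 20 := by ring
    _ ≤ (zz k : ℝ) ^ 48 := pow_le_pow_right₀ hz1 (by norm_num)

/-- the last step: real numbers -/
theorem final {z n b h s Y G P : ℝ} (hz : 1 ≤ z) (hs : s = z ^ 16) (hn : 0 < n) (hh : 0 < h)
    (hb : h ≤ b) (hns : n ≤ h * s ^ 2) (hY : √n * s ^ 5 ≤ Y) (hY' : s ^ 5 ≤ Y) (hG : 0 ≤ G)
    (hP : 0 < P) (h1 : 2 * P * (z ^ 15 * G) ≤ z ^ 48) (h2 : 2 * P < z) :
    z ^ 15 * (b / n + √(n * b / h) * G) < b * Y / n / P := by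
  have hb0 : 0 < b := hh.trans_le hb
  have hz0 : 0 < z := by linarith
  have hs0 : 0 < s := by rw [hs]; positivity
  have hs1 : 1 ≤ s := by rw [hs]; exact one_le_pow₀ hz
  -- first half
  have a1 : z ^ 15 * (b / n) < b * Y / n / P / 2 := by
    have e1 : 2 * P * z ^ 15 < Y := by
      calc 2 * P * z ^ 15 < z * z ^ 15 := by gcongr
        _ = s ^ 1 := by rw [hs]; ring
        _ ≤ s ^ 5 := pow_le_pow_right₀ hs1 (by norm_num)
        _ ≤ Y := hY'
    rw [lt_div_iff₀ (by norm_num), lt_div_iff₀ hP]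
    calc z ^ 15 * (b / n) * 2 * P = (b / n) * (2 * P * z ^ 15) := by ring
      _ < (b / n) * Y := by gcongr
      _ = b * Y / n := by ring
  -- second half
  have e0 : √(b * s ^ 2) = √b * s := by rw [Real.sqrt_mul hb0.le, Real.sqrt_sq hs0.le]
  have a2 : z ^ 15 * (√(n * b / h) * G) ≤ b * Y / n / P / 2 := by
    have e1 : √(n * b / h) ≤ √b * s := by
      rw [← e0]
      apply Real.sqrt_le_sqrt
      rw [div_le_iff₀ hh]
      calc n * b ≤ (h * s ^ 2) * b := by gcongr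
        _ = b * s ^ 2 * h := by ring
    have e2 : √n ≤ √b * s := by
      rw [← e0]
      apply Real.sqrt_le_sqrt
      calc n ≤ h * s ^ 2 := hns
        _ ≤ b * s ^ 2 := by gcongr
    have hsn : 0 < √n := Real.sqrt_pos.2 hn
    have hsb : 0 < √b := Real.sqrt_pos.2 hb0
    have hnn : √n * √n = n := Real.mul_self_sqrt hn.le
    have hbb : √b * √b = b := Real.mul_self_sqrt hb0.le
    rw [le_div_iff₀ (by norm_num), le_div_iff₀ hP]
    calc z ^ 15 * (√(n * b / h) * G) * 2 * P = √(n * b / h) * (2 * P * (z ^ 15 * G)) := by ring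
      _ ≤ (√b * s) * z ^ 48 := by gcongr
      _ = √b * s ^ 4 := by rw [hs]; ring
      _ = √b * (√n * (√n * s ^ 4)) / n := by
        rw [← mul_assoc (√n), hnn]
        field_simp
      _ ≤ √b * ((√b * s) * (√n * s ^ 4)) / n := by gcongr
      _ = (√b * √b) * (√n * s ^ 5) / n := by ring
      _ ≤ b * Y / n := by rw [hbb]; gcongr
  calc z ^ 15 * (b / n + √(n * b / h) * G) = z ^ 15 * (b / n) + z ^ 15 * (√(n * b / h) * G) := by
        ring
    _ < b * Y / n / P / 2 + b * Y / n / P / 2 := add_lt_add_of_lt_of_le a1 a2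
    _ = _ := by ring

end SAux

open SAux

theorem stS (hW : StW) (hF : StF) (hC : StC) : StS := by
  classical
  intro A
  obtain ⟨k1, hk1⟩ := hW
  obtain ⟨k2, hk2⟩ := hC A
  obtain ⟨C, hC1, hCd⟩ := Pool.Agent.Lib.MP_a17b09_nt.card_divisors_le
    (1 / (2 * ((A : ℝ) + 1))) (by positivity)
  obtain ⟨k3, hk3⟩ := numeric A C
  refine ⟨max k1 (max k2 k3), fun k hk n hn hnz B hB hinv => ?_⟩
  have hkk1 : k1 ≤ k := (le_max_left _ _).trans hk
  have hkk2 : k2 ≤ k := (le_max_left _ _).trans ((le_max_right _ _).trans hk)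
  have hkk3 : k3 ≤ k := (le_max_right _ _).trans ((le_max_right _ _).trans hk)
  obtain ⟨w, hw1, hw2, hw3, hw4⟩ := hk1 k hkk1
  have hH := hk2 k hkk2 n hn hnz
  obtain ⟨hnum1, hnum2⟩ := hk3 k hkk3
  by_contra hcon
  push Not at hcon
  have hne : NeZero n := ⟨hn.ne'⟩
  set Bf : Finset (ZMod n)ˣ := Finset.univ.filter fun g => g ∈ B with hBf
  set B0 : Finset (ZMod n) := Bf.image fun g : (ZMod n)ˣ => (g : ZMod n) with hB0
  have hunit : ∀ x ∈ B0, IsUnit x := by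
    intro x hx
    rw [hB0, mem_image] at hx
    obtain ⟨g, _, rfl⟩ := hx
    exact g.isUnit
  have hB0inv : ∀ h ∈ HH k n, ∀ x ∈ B0, (h : ZMod n) * x ∈ B0 := by
    intro h hh x hx
    rw [hB0, mem_image] at hx ⊢
    obtain ⟨g, hg, rfl⟩ := hx
    rw [hBf, mem_filter] at hg
    exact ⟨h * g, by rw [hBf, mem_filter]; exact ⟨mem_univ _, hinv h hh g hg.2⟩,
      Units.val_mul _ _⟩
  have hcard : B0.card = Bf.card :=
    Finset.card_image_of_injective _ Units.val_injective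
  have hHcard : Nat.card (HH k n) ≤ B0.card := by
    obtain ⟨g, hg⟩ := hB
    rw [hcard, Nat.card_eq_fintype_card, ← Finset.card_univ]
    apply Finset.card_le_card_of_injOn (fun h : HH k n => (h : (ZMod n)ˣ) * g)
    · intro h _
      rw [Finset.mem_coe, hBf, mem_filter]
      exact ⟨mem_univ _, hinv h.1 h.2 g hg⟩
    · intro h _ h' _ e
      exact Subtype.ext (mul_right_cancel e)
  set Y : ℕ := (Nat.sqrt n + 1) * ss k ^ 5 with hY
  set V : Finset ℕ := (Finset.Icc 1 Y).filter fun v : ℕ => (v : ZMod n) ∈ B0 with hV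
  have hVr : ∀ v ∈ V, 0 < v ∧ ¬ Rough (zz k) v := by
    intro v hv
    rw [hV, mem_filter, mem_Icc] at hv
    refine ⟨hv.1.1, fun hr => ?_⟩
    have h1 := hv.2
    rw [hB0, mem_image] at h1
    obtain ⟨g, hg, hgv⟩ := h1
    rw [hBf, mem_filter] at hg
    exact hcon v hr hv.1.2 g hg.2 hgv
  have hs := sieve hw3 V hVr
  set G : ℝ := (n.divisors.card : ℝ) * (1 + Real.log n) with hG
  have hb := fun D (hD : D ∈ (PP k).powerset) =>
    count_bound hF hne hD B0 hunit (HH k n) hB0inv Y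
  have hm := main_ineq hw1 hw2 hw4 _ ((B0.card : ℝ) * Y / n) _ (by positivity) hb hs
  refine absurd hm (not_le.2 ?_)
  have hnR : (0 : ℝ) < n := by exact_mod_cast hn
  have hn1 : (1 : ℝ) ≤ n := by exact_mod_cast hn
  have hzN : 0 < zz k := by unfold zz; positivity
  have hz1 : (1 : ℝ) ≤ zz k := by exact_mod_cast hzN
  have hG0 : 0 ≤ G := by
    have := Real.log_nonneg hn1
    positivity
  have hnz' : (n : ℝ) ≤ (zz k : ℝ) ^ (2 * (A + 1)) := by
    calc (n : ℝ) ≤ (zz k : ℝ) ^ (2 * A) := by exact_mod_cast hnz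
      _ ≤ _ := pow_le_pow_right₀ hz1 (by omega)
  have hG1 : G ≤ C * (zz k : ℝ) * (1 + 2 * ((A : ℝ) + 1) * 2 ^ k) := by
    have h1 : (n : ℝ) ^ (1 / (2 * ((A : ℝ) + 1))) ≤ zz k := by
      calc (n : ℝ) ^ (1 / (2 * ((A : ℝ) + 1))) ≤
          ((zz k : ℝ) ^ (2 * (A + 1))) ^ (1 / (2 * ((A : ℝ) + 1))) := by
            gcongr
        _ = (zz k : ℝ) := by
            rw [← Real.rpow_natCast, ← Real.rpow_mul (by positivity)]
            have : ((2 * (A + 1) : ℕ) : ℝ) * (1 / (2 * ((A : ℝ) + 1))) = 1 := by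
              push_cast
              field_simp
            rw [this, Real.rpow_one]
    have h2 : Real.log n ≤ 2 * ((A : ℝ) + 1) * 2 ^ k := by
      calc Real.log n ≤ Real.log ((zz k : ℝ) ^ (2 * (A + 1))) := Real.log_le_log hnR hnz'
        _ = 2 * ((A : ℝ) + 1) * (2 ^ k * Real.log 2) := by
            unfold zz
            rw [Real.log_pow]
            push_cast
            rw [Real.log_pow]
            push_cast
            ring
        _ ≤ 2 * ((A : ℝ) + 1) * (2 ^ k * 1) := by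
            have := Real.log_two_lt_d9
            gcongr
            linarith
        _ = _ := by ring
    have h3 : (n.divisors.card : ℝ) ≤ C * (zz k : ℝ) := by
      refine (hCd n hn).trans ?_
      gcongr
    have h4 := Real.log_nonneg hn1
    rw [hG]
    gcongr
  refine final (s := (ss k : ℝ)) hz1 ?_ hnR ?_ ?_ ?_ ?_ ?_ hG0 (by positivity) ?_ hnum2
  · unfold ss
    push_cast
    rfl
  · exact_mod_cast (Nat.card_pos : 0 < Nat.card (HH k n))
  · exact_mod_cast hHcard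
  · exact_mod_cast hH
  · have h1 : √(n : ℝ) ≤ (Nat.sqrt n : ℝ) + 1 := Real.sqrt_le_iff.2 ⟨by positivity, by
      have := Nat.lt_succ_sqrt' n
      have h2 : n ≤ (Nat.sqrt n + 1) ^ 2 := this.le
      exact_mod_cast h2⟩
    rw [hY]
    push_cast
    gcongr
  · have h1 : (1 : ℝ) ≤ (Nat.sqrt n : ℝ) + 1 := by
      have : (0 : ℝ) ≤ (Nat.sqrt n : ℝ) := by positivity
      linarith
    rw [hY]
    push_cast
    exact le_mul_of_one_le_left (by positivity) h1
  · refine le_trans ?_ hnum1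
    gcongr

end Pool.Agent.Lib.MP_da4d09_nt.PL
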