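import Mathlib
import Pool.Agent.Lib.MP_da4d09_nt.PL.Defs
import Pool.Agent.Lib.QuadThree.Ranges

/-!
(W) the weights of the lower bound sieve of dimension one.
-/

set_option autoImplicit false

namespace Pool.Agent.Lib.MP_da4d09_nt.PL

open Finset Pool.Agent.Lib.MP_369a91_nt Pool.Agent.Lib.QuadParity Pool.Agent.Lib.QuadThree

theorem PP_eq (T : ℕ) : PiU (Pr 1 14) (T + 1) = PP (14 + T) := by
  rw [PiU_Pr 1 14 le_rfl (by norm_num)]
  unfold PP zz Bd
  ext q
  simp only [mem_filter, mem_Ioc, mem_range]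
  constructor
  · rintro ⟨⟨_, h1⟩, h2⟩
    exact ⟨by omega, h2⟩
  · rintro ⟨h1, h2⟩
    exact ⟨⟨h2.one_lt, by omega⟩, h2⟩

theorem rr_even (n0 T t : ℕ) : Even (rr 1 n0 T t) := by
  cases t with
  | zero => exact even_two_mul _
  | succ t =>
    simp only [rr]
    exact Even.add ⟨2 * 1, by ring⟩ (even_two_mul _)

theorem rr_zero (n0 T : ℕ) : rr 1 n0 T 0 + 1 = 2 * Bd n0 0 + 1 := by simp only [rr]

theorem Bd_zero (n0 : ℕ) : Bd n0 0 = 2 ^ (2 ^ n0) := by unfold Bd; rw [Nat.add_zero]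

theorem supp_bound (n0 T : ℕ) (hT : 2 * Bd n0 0 + 1 ≤ 2 ^ T) :
    ∏ i ∈ Finset.range (T + 1), Bd n0 i ^ (rr 1 n0 T i + 1) ≤ zz (n0 + T) ^ 15 := by
  rw [Finset.prod_range_succ']
  have h1 : ∏ i ∈ Finset.range T, Bd n0 (i + 1) ^ (rr 1 n0 T (i + 1) + 1) =
      2 ^ (∑ i ∈ Finset.range T, 2 ^ (n0 + (i + 1)) * (4 * 1 + 1 + 2 * (T - 1 - i))) := by
    rw [← Finset.prod_pow_eq_pow_sum]
    apply Finset.prod_congr rfl
    intro i _
    have e : rr 1 n0 T (i + 1) + 1 = 4 * 1 + 1 + 2 * (T - 1 - i) := by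
      simp only [rr]; omega
    rw [e]
    unfold Bd
    rw [← pow_mul]
  have h2 : ∑ i ∈ Finset.range T, 2 ^ (n0 + (i + 1)) * (4 * 1 + 1 + 2 * (T - 1 - i)) ≤
      14 * 2 ^ (n0 + T) := by
    have h3 : ∑ i ∈ Finset.range T, 2 ^ (n0 + (i + 1)) * (4 * 1 + 1 + 2 * (T - 1 - i)) =
        2 ^ n0 * ∑ i ∈ Finset.range T, 2 ^ (i + 1) * (4 * 1 + 1 + 2 * (T - 1 - i)) := by
      rw [Finset.mul_sum]
      apply Finset.sum_congr rfl
      intro i _
      rw [pow_add]; ring
    rw [h3]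
    have h4 := Nat.mul_le_mul_left (2 ^ n0) (F_sum 1 T)
    calc _ ≤ 2 ^ n0 * ((8 * 1 + 6) * 2 ^ T) := h4
      _ = 14 * 2 ^ (n0 + T) := by rw [pow_add]; ring
  have h5 : Bd n0 0 ^ (rr 1 n0 T 0 + 1) ≤ 2 ^ (2 ^ (n0 + T)) := by
    rw [rr_zero]
    calc Bd n0 0 ^ (2 * Bd n0 0 + 1) = 2 ^ (2 ^ n0 * (2 * Bd n0 0 + 1)) := by
          rw [pow_mul, ← Bd_zero]
      _ ≤ 2 ^ (2 ^ (n0 + T)) := by
          apply Nat.pow_le_pow_right (by norm_num)
          rw [pow_add]
          exact Nat.mul_le_mul_left _ hT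
  rw [h1]
  calc 2 ^ (∑ i ∈ Finset.range T, 2 ^ (n0 + (i + 1)) * (4 * 1 + 1 + 2 * (T - 1 - i))) *
        Bd n0 0 ^ (rr 1 n0 T 0 + 1) ≤ 2 ^ (14 * 2 ^ (n0 + T)) * 2 ^ (2 ^ (n0 + T)) :=
        Nat.mul_le_mul (Nat.pow_le_pow_right (by norm_num) h2) h5
    _ = zz (n0 + T) ^ 15 := by
        unfold zz
        rw [← pow_add, ← pow_mul]
        congr 1
        ring

theorem mean_one (T : ℕ) (h : ℕ → ℝ) (h0 : ∀ q, 0 ≤ h q)
    (h1 : ∀ q ∈ PP (14 + T), h q ≤ 1 / (q : ℝ)) :
    (1 / 2 : ℝ) ^ (Bd 14 0) * (1 / 3) ^ T * 0.1 ≤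
      ev (Lw (Pr 1 14) (rr 1 14 T) (T + 1)) (PiU (Pr 1 14) (T + 1)) h := by
  classical
  set g : ℕ → ℝ := fun q => if q ∈ PP (14 + T) then h q else 0 with hg
  have hev : ev (Lw (Pr 1 14) (rr 1 14 T) (T + 1)) (PiU (Pr 1 14) (T + 1)) h =
      ev (Lw (Pr 1 14) (rr 1 14 T) (T + 1)) (PiU (Pr 1 14) (T + 1)) g := by
    unfold ev
    apply Finset.sum_congr rfl
    intro D hD
    congr 1
    apply Finset.prod_congr rfl
    intro q hq
    have := Finset.mem_powerset.1 hD hq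
    rw [PP_eq] at this
    simp only [hg, if_pos this]
  rw [hev]
  have g0 : ∀ q, 0 ≤ g q := by
    intro q
    simp only [hg]
    split_ifs
    · exact h0 q
    · exact le_rfl
  have hdec : ∀ q : ℕ, q.Prime → (1 : ℝ) / q ≤ 1 / 2 := by
    intro q hq
    have : (2 : ℝ) ≤ q := by exact_mod_cast hq.two_le
    exact one_div_le_one_div_of_le (by norm_num) this
  have gle : ∀ q : ℕ, q.Prime → g q ≤ 1 / (q : ℝ) := by
    intro q hq
    simp only [hg]
    split_ifs with hm
    · exact h1 q hm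
    · positivity
  have g1 : ∀ q, g q ≤ 1 := by
    intro q
    simp only [hg]
    split_ifs with hm
    · have h2 := h1 q hm
      have h3 := hdec q (mem_filter.1 hm).2
      linarith
    · norm_num
  set v : ℕ → ℝ := fun i => if i = 0 then (1 / 2 : ℝ) ^ (Bd 14 0) else 1 / 3 with hv
  set ε : ℕ → ℝ := fun i => if i = 0 then 0 else 0.2 * 0.04 ^ (T - i) with hε
  have hsum : ∑ i ∈ Finset.range (T + 1), ε i ≤ 0.9 := by
    rw [Finset.sum_range_succ']
    simp only [hε, if_true, add_zero, Nat.add_eq_zero_iff, one_ne_zero, and_false, if_false]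
    refine le_trans (le_of_eq ?_) (eps_sum T)
    apply Finset.sum_congr rfl
    intro i _
    congr 2
    omega
  have hprodv : ∏ i ∈ Finset.range (T + 1), v i = (1 / 2 : ℝ) ^ (Bd 14 0) * (1 / 3) ^ T := by
    rw [Finset.prod_range_succ']
    simp only [hv, if_true, Nat.add_eq_zero_iff, one_ne_zero, and_false, if_false,
      Finset.prod_const, Finset.card_range]
    ring
  have hprime : ∀ t, ∀ q ∈ Pr 1 14 t, q.Prime := Pr_prime 1 14 le_rfl (by norm_num)
  have hmono : ∀ t, ∏ q ∈ Pr 1 14 t, (1 - ((1 : ℕ) : ℝ) / (q : ℝ)) ≤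
      ∏ q ∈ Pr 1 14 t, (1 - g q) := by
    intro t
    apply Finset.prod_le_prod
    · intro q hq
      have := hdec q (hprime t q hq)
      push_cast
      linarith
    · intro q hq
      have := gle q (hprime t q hq)
      push_cast
      linarith
  have hmain := (mean_lower' (Pr 1 14) (rr 1 14 T) (Pr_disjoint 1 14 le_rfl (by norm_num))
    (rr_even 14 T) g g0 g1 v (by
      intro t
      simp only [hv]
      split_ifs <;> positivity) (by
      intro t
      simp only [hv]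
      cases t with
      | zero =>
        rw [if_pos rfl]
        refine le_trans (le_of_eq ?_) ((prod_Pr0_ge 1 14 le_rfl (by norm_num)).trans (hmono 0))
        norm_num
      | succ t =>
        rw [if_neg (by omega)]
        refine le_trans (le_of_eq ?_) ((prod_Pr_ge 1 14 le_rfl (by norm_num) t).trans
          (hmono (t + 1)))
        norm_num) (T + 1) ε (by
      intro t ht
      cases t with
      | zero =>
        simp only [hε, if_true, zero_mul]
        apply le_of_eq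
        apply es_eq_zero
        have := Pr_card 1 14 le_rfl (by norm_num) 0
        simp only [rr]
        omega
      | succ t =>
        simp only [hε, hv]
        rw [if_neg (by omega), if_neg (by omega)]
        have h1 := es_le (Pr 1 14 (t + 1)) g g0 (rr 1 14 T (t + 1) + 1)
        have h2 := sum_Pr_le 1 14 le_rfl t
        have hr : rr 1 14 T (t + 1) + 1 = 4 * 1 + 1 + 2 * (T - 1 - t) := by
          simp only [rr]; omega
        rw [hr] at h1 ⊢
        refine h1.trans ?_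
        have h2' : ∑ q ∈ Pr 1 14 (t + 1), g q ≤ 0.73 * ((1 : ℕ) : ℝ) := by
          refine le_trans ?_ h2
          apply Finset.sum_le_sum
          intro q hq
          have := gle q (hprime (t + 1) q hq)
          push_cast
          exact this
        have h3 : (∑ q ∈ Pr 1 14 (t + 1), g q) ^ (4 * 1 + 1 + 2 * (T - 1 - t)) ≤
            (0.73 * ((1 : ℕ) : ℝ)) ^ (4 * 1 + 1 + 2 * (T - 1 - t)) := by
          apply pow_le_pow_left₀ _ h2'
          exact Finset.sum_nonneg (fun q _ => g0 q)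
        have h4 := fact_bound 1 (T - 1 - t)
        have h5 : T - (t + 1) = T - 1 - t := by omega
        rw [h5]
        rw [pow_one] at h4
        refine le_trans ?_ h4
        exact div_le_div_of_nonneg_right h3 (by positivity)) (T + 1) le_rfl)
  obtain ⟨hu, hl⟩ := hmain
  rw [hprodv] at hu
  have hpos : (0 : ℝ) ≤ (1 / 2 : ℝ) ^ (Bd 14 0) * (1 / 3) ^ T := by positivity
  refine le_trans ?_ hl
  apply mul_le_mul hu (by linarith) (by norm_num)
  exact hpos.trans hu

theorem stW : StW := by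
  classical
  refine ⟨14 + 2 * Bd 14 0 + 20, ?_⟩
  intro k hk
  obtain ⟨T, rfl⟩ : ∃ T, k = 14 + T := ⟨k - 14, by omega⟩
  have hT : 2 * Bd 14 0 + 20 ≤ T := by omega
  refine ⟨Lw (Pr 1 14) (rr 1 14 T) (T + 1), fun D => abs_Lw_le _ _ _ _, ?_, ?_, ?_⟩
  · intro D hD hne
    rw [← PP_eq, Finset.mem_powerset] at hD
    have h1 := support_Lw (Pr 1 14) (rr 1 14 T) (Bd 14) (by
      intro t q hq
      have := Pr_sub 1 14 le_rfl (by norm_num) t hq
      rw [mem_filter, mem_Ioc] at this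
      exact this.1.2) (one_le_Bd 14) (T + 1) D hD hne
    refine h1.trans (supp_bound 14 T ?_)
    have : T < 2 ^ T := Nat.lt_two_pow_self
    omega
  · intro h h0 h1
    have := (sieve_ineq (Pr 1 14) (rr 1 14 T) (Pr_disjoint 1 14 le_rfl (by norm_num))
      (rr_even 14 T) h h0 h1 (T + 1)).1
    rw [PP_eq] at this
    exact this
  · intro h h0 h1
    have h2 := mean_one T h h0 h1
    rw [PP_eq] at h2
    refine le_trans ?_ h2
    have h3 : (1 : ℝ) / 2 ^ (3 * (14 + T)) ≤ (1 / 2 : ℝ) ^ (Bd 14 0) * (1 / 3) ^ T * 0.1 := by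
      have e1 : (1 : ℝ) / 2 ^ (3 * (14 + T)) = (1 / 2) ^ (3 * (14 + T)) := by
        rw [one_div_pow]
      have h4 : (1 / 4 : ℝ) ^ T ≤ (1 / 3) ^ T := pow_le_pow_left₀ (by norm_num) (by norm_num) T
      have e2 : (1 / 2 : ℝ) ^ (3 * (14 + T)) = (1 / 2) ^ (42 + T) * (1 / 4) ^ T := by
        have : (1 / 4 : ℝ) = (1 / 2) ^ 2 := by norm_num
        rw [this, ← pow_mul, ← pow_add]
        congr 1
        ring
      have h5 : (1 / 2 : ℝ) ^ (42 + T) ≤ (1 / 2) ^ (Bd 14 0) * 0.1 := by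
        have h6 : (1 / 2 : ℝ) ^ (42 + T) ≤ (1 / 2) ^ (Bd 14 0 + 4) :=
          pow_le_pow_of_le_one (by norm_num) (by norm_num) (by omega)
        have h7 : (1 / 2 : ℝ) ^ (Bd 14 0 + 4) = (1 / 2) ^ (Bd 14 0) * (1 / 16) := by
          rw [pow_add]; norm_num
        have h8 : (0 : ℝ) ≤ (1 / 2) ^ (Bd 14 0) := by positivity
        rw [h7] at h6
        refine h6.trans ?_
        exact mul_le_mul_of_nonneg_left (by norm_num) h8
      rw [e1, e2]
      calc (1 / 2 : ℝ) ^ (42 + T) * (1 / 4) ^ T ≤ ((1 / 2) ^ (Bd 14 0) * 0.1) * (1 / 3) ^ T :=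
            mul_le_mul h5 h4 (by positivity) (by positivity)
        _ = _ := by ring
    exact h3

end Pool.Agent.Lib.MP_da4d09_nt.PL
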