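import Pool.Agent.Lib.MP_da4d09_nt.PL.Defs

/-!
If the parity is constant on a residue class, then the Liouville function is a character on the
small rough numbers.
-/

set_option autoImplicit false

namespace Pool.Agent.Lib.MP_da4d09_nt.PL

open Finset

namespace XAux

open ArithmeticFunction (liouville)

theorem lam_one_or {v : ℕ} (hv : v ≠ 0) : liouville v = 1 ∨ liouville v = -1 := by
  rw [ArithmeticFunction.liouville_apply hv]
  exact neg_one_pow_eq_or ℤ _

theorem lam_prime {q : ℕ} (hq : q.Prime) : liouville q = -1 := by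
  rw [ArithmeticFunction.liouville_apply hq.ne_zero,
    ArithmeticFunction.cardFactors_apply_prime hq, pow_one]

theorem rough_mul {z u v : ℕ} (hu : Rough z u) (hv : Rough z v) : Rough z (u * v) :=
  ⟨Nat.mul_pos hu.1 hv.1, fun p hp h => (hp.dvd_mul.1 h).elim (hu.2 p hp) (hv.2 p hp)⟩

theorem rough_one (z : ℕ) : Rough z 1 :=
  ⟨one_pos, fun _ hp h => absurd (Nat.dvd_one.1 h) hp.ne_one⟩

theorem rough_prime {z q : ℕ} (hq : q.Prime) (h : z < q) : Rough z q :=
  ⟨hq.pos, fun p hp h' => by rwa [(Nat.prime_dvd_prime_iff_eq hp hq).1 h']⟩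

/-- the argument with the two groups -/
theorem main {n z s y : ℕ} (hn : 0 < n) (hs : 0 < s) (hy : y * y ≤ n * s ^ 11)
    (H : Subgroup (ZMod n)ˣ)
    (hH : H = Subgroup.closure
      {u : (ZMod n)ˣ | ∃ q : ℕ, q.Prime ∧ z < q ∧ q ≤ s ∧ (u : ZMod n) = (q : ZMod n)})
    (F : (ZMod n)ˣ → ℤ)
    (hFv : ∀ (v : ℕ) (g : (ZMod n)ˣ), Rough z v → v ≤ n * s ^ 11 → (g : ZMod n) = v →
      F g = liouville v)
    (hrep : ∀ g : (ZMod n)ˣ, ∃ v : ℕ, Rough z v ∧ v ≤ n * s ∧ (g : ZMod n) = v)
    (hS : ∀ B : Set (ZMod n)ˣ, B.Nonempty → (∀ h ∈ H, ∀ g ∈ B, h * g ∈ B) →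
      ∃ v : ℕ, Rough z v ∧ v ≤ y ∧ ∃ g ∈ B, (g : ZMod n) = v) :
    ∀ u g, F (u * g) = F u * F g := by
  -- the group of all classes which act by a sign
  let M : Subgroup (ZMod n)ˣ :=
    { carrier := {u | ∃ e : ℤ, (e = 1 ∨ e = -1) ∧ ∀ g, F (u * g) = e * F g}
      mul_mem' := by
        rintro u v ⟨e, he, h⟩ ⟨e', he', h'⟩
        refine ⟨e * e', ?_, fun g => ?_⟩
        · rcases he with rfl | rfl <;> rcases he' with rfl | rfl <;> simp
        · rw [mul_assoc, h, h', mul_assoc]
      one_mem' := ⟨1, Or.inl rfl, fun g => by rw [one_mul, one_mul]⟩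
      inv_mem' := by
        rintro u ⟨e, he, h⟩
        refine ⟨e, he, fun g => ?_⟩
        have e1 := h (u⁻¹ * g)
        rw [mul_inv_cancel_left] at e1
        rw [e1, ← mul_assoc]
        rcases he with rfl | rfl <;> simp }
  have hs1 : ∀ x : ℕ, x ≤ n * s → x ≤ n * s ^ 11 := fun x hx =>
    hx.trans (Nat.mul_le_mul_left n (Nat.le_self_pow (by norm_num) s))
  -- primes up to `s`
  have hHM : H ≤ M := by
    rw [hH, Subgroup.closure_le]
    rintro u ⟨q, hq, hz, hqs, hu⟩
    refine ⟨-1, Or.inr rfl, fun g => ?_⟩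
    obtain ⟨v, hv, hvs, hg⟩ := hrep g
    have hb : q * v ≤ n * s ^ 11 := by
      calc q * v ≤ s * (n * s) := Nat.mul_le_mul hqs hvs
        _ = n * s ^ 2 := by ring
        _ ≤ n * s ^ 11 := Nat.mul_le_mul_left n (Nat.pow_le_pow_right hs (by norm_num))
    rw [hFv (q * v) (u * g) (rough_mul (rough_prime hq hz) hv) hb
        (by push_cast; rw [hu, hg]), hFv v g hv (hs1 v hvs) hg,
      ArithmeticFunction.liouville_apply_mul, lam_prime hq]
  -- primes up to `y`
  have hP : ∀ (q : ℕ) (u : (ZMod n)ˣ), q.Prime → z < q → q ≤ y → (u : ZMod n) = q → u ∈ M := by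
    intro q u hq hz hqy hu
    refine ⟨-1, Or.inr rfl, ?_⟩
    by_contra hcon
    rw [not_forall] at hcon
    obtain ⟨v, hv, hvy, g, hg, hgv⟩ := hS {g | ¬ F (u * g) = -1 * F g} hcon (by
      intro h hh g hg hcon'
      apply hg
      obtain ⟨e, he, h'⟩ := hHM hh
      rw [mul_left_comm, h', h'] at hcon'
      rcases he with rfl | rfl <;> linarith)
    apply hg
    have hy1 : v ≤ n * s ^ 11 := by
      refine le_trans ?_ hy
      exact hvy.trans (Nat.le_mul_self y)
    rw [hFv (q * v) (u * g) (rough_mul (rough_prime hq hz) hv)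
        ((Nat.mul_le_mul hqy hvy).trans hy) (by push_cast; rw [hu, hgv]), hFv v g hv hy1 hgv,
      ArithmeticFunction.liouville_apply_mul, lam_prime hq]
  -- rough numbers up to `y`
  have hprod : ∀ v : ℕ, Rough z v → v ≤ y → ∀ g : (ZMod n)ˣ, (g : ZMod n) = v → g ∈ M := by
    intro v
    induction v using Nat.strong_induction_on with
    | _ v ih =>
      intro hv hvy g hg
      by_cases hv1 : v = 1
      · have e1 : g = 1 := by
          apply Units.ext
          rw [hg, hv1]
          simp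
        rw [e1]
        exact M.one_mem
      · have hq : (Nat.minFac v).Prime := Nat.minFac_prime hv1
        obtain ⟨w, hw⟩ := Nat.minFac_dvd v
        set q := Nat.minFac v with hqdef
        have hcop : v.Coprime n := by
          have h1 : IsUnit ((v : ℕ) : ZMod n) := by
            rw [← hg]
            exact g.isUnit
          exact (ZMod.isUnit_iff_coprime v n).1 h1
        have hqv : q ∣ v := ⟨w, hw⟩
        have hwv : w ∣ v := ⟨q, by rw [mul_comm]; exact hw⟩
        have hqn : q.Coprime n := Nat.Coprime.coprime_dvd_left hqv hcop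
        have hwn : w.Coprime n := Nat.Coprime.coprime_dvd_left hwv hcop
        have hw0 : 0 < w := Nat.pos_of_ne_zero (by
          rintro rfl
          exact hv.1.ne' (by rw [hw, mul_zero]))
        have hwlt : w < v := by
          rw [hw]
          exact lt_mul_of_one_lt_left hw0 hq.one_lt
        have hwr : Rough z w := ⟨hw0, fun p hp h => hv.2 p hp (h.trans hwv)⟩
        have e1 : g = ZMod.unitOfCoprime q hqn * ZMod.unitOfCoprime w hwn := by
          apply Units.ext
          rw [hg, Units.val_mul, ZMod.coe_unitOfCoprime, ZMod.coe_unitOfCoprime, ← Nat.cast_mul,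
            ← hw]
        rw [e1]
        refine M.mul_mem ?_ ?_
        · exact hP q _ hq (hv.2 q hq hqv) ((Nat.le_of_dvd hv.1 hqv).trans hvy)
            (ZMod.coe_unitOfCoprime q hqn)
        · exact ih w hwlt hwr (hwlt.le.trans hvy) _ (ZMod.coe_unitOfCoprime w hwn)
  have hall : ∀ u, u ∈ M := by
    by_contra hcon
    rw [not_forall] at hcon
    obtain ⟨v, hv, hvy, g, hg, hgv⟩ := hS {g | g ∉ M} hcon
      (fun h hh g hg hcon => hg ((M.mul_mem_cancel_left (hHM hh)).1 hcon))
    exact hg (hprod v hv hvy g hgv)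
  intro u g
  obtain ⟨e, -, h⟩ := hall u
  have h1 : F 1 = 1 := by
    rw [hFv 1 1 (rough_one z) (Nat.mul_pos hn (pow_pos hs 11)) (by simp),
      ArithmeticFunction.liouville_apply_one]
  have h2 := h 1
  rw [mul_one, h1, mul_one] at h2
  rw [h, h2]

end XAux

open XAux in
/-- (X) if the parity is constant on a residue class, then the Liouville function is a character
on the small rough numbers -/
theorem stX (hR : StR) (hS : StS) : StX := by
  intro A
  obtain ⟨k1, hk1⟩ := hR
  obtain ⟨k2, hk2⟩ := hS A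
  refine ⟨max k1 k2, fun k hk n hn hnA a κ ha hκ => ?_⟩
  have : NeZero n := ⟨hn.ne'⟩
  have hr := hk1 k (le_trans (le_max_left _ _) hk)
  have hs := hk2 k (le_trans (le_max_right _ _) hk) n hn hnA
  have hzz : 2 ≤ zz k := by
    unfold zz
    exact Nat.le_self_pow (by positivity) 2
  have hss : 4 ≤ ss k := by
    unfold ss
    calc 4 ≤ 2 ^ 16 := by norm_num
      _ ≤ zz k ^ 16 := Nat.pow_le_pow_left hzz 16
  have hs0 : 0 < ss k := by omega
  have hrep : ∀ g : (ZMod n)ˣ, ∃ v : ℕ, Rough (zz k) v ∧ v ≤ n * ss k ∧ (g : ZMod n) = v := by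
    intro g
    obtain ⟨v, h1, h2, h3⟩ := hr n (g : ZMod n).val hn (ZMod.val_coe_unit_coprime g)
    refine ⟨v, h1, h3, ?_⟩
    have e := (ZMod.natCast_eq_natCast_iff _ _ _).2 h2
    rw [e, ZMod.natCast_zmod_val]
  have hrep' := hrep
  choose V hV1 hV2 hV3 using hrep
  have hs1 : ∀ x : ℕ, x ≤ n * ss k → x ≤ n * ss k ^ 11 := fun x hx =>
    hx.trans (Nat.mul_le_mul_left n (Nat.le_self_pow (by norm_num) _))
  have hFv : ∀ (v : ℕ) (g : (ZMod n)ˣ), Rough (zz k) v → v ≤ n * ss k ^ 11 →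
      (g : ZMod n) = v → ArithmeticFunction.liouville (V g) = ArithmeticFunction.liouville v := by
    intro v g hv hvs hg
    have e1 : ∀ x : ℕ, Rough (zz k) x → x ≤ n * ss k ^ 11 → (g : ZMod n) = x →
        ArithmeticFunction.liouville x *
          ArithmeticFunction.liouville (V (ZMod.unitOfCoprime a ha * g⁻¹)) = κ := by
      intro x hx hxs hgx
      rw [← ArithmeticFunction.liouville_apply_mul]
      refine hκ _ (rough_mul hx (hV1 _)) ?_ ?_
      · rw [← ZMod.natCast_eq_natCast_iff, Nat.cast_mul, ← hV3, ← hgx, ← Units.val_mul,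
          mul_comm, inv_mul_cancel_right, ZMod.coe_unitOfCoprime]
      · calc x * V (ZMod.unitOfCoprime a ha * g⁻¹) ≤ (n * ss k ^ 11) * (n * ss k) :=
              Nat.mul_le_mul hxs (hV2 _)
          _ = n ^ 2 * ss k ^ 12 := by ring
    have e2 := e1 v hv hvs hg
    have e3 := e1 (V g) (hV1 g) (hs1 _ (hV2 g)) (hV3 g)
    exact mul_right_cancel₀ (ArithmeticFunction.liouville_ne_zero (hV1 _).1.ne')
      (e3.trans e2.symm)
  have hy : (Nat.sqrt n + 1) * ss k ^ 5 * ((Nat.sqrt n + 1) * ss k ^ 5) ≤ n * ss k ^ 11 := by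
    have h1 : (Nat.sqrt n + 1) * (Nat.sqrt n + 1) ≤ 4 * n := by
      have e1 : Nat.sqrt n * Nat.sqrt n ≤ n := Nat.sqrt_le n
      have e2 : 0 < Nat.sqrt n := Nat.sqrt_pos.2 hn
      nlinarith
    calc (Nat.sqrt n + 1) * ss k ^ 5 * ((Nat.sqrt n + 1) * ss k ^ 5)
        = ((Nat.sqrt n + 1) * (Nat.sqrt n + 1)) * ss k ^ 10 := by ring
      _ ≤ (4 * n) * ss k ^ 10 := Nat.mul_le_mul_right _ h1
      _ = n * (4 * ss k ^ 10) := by ring
      _ ≤ n * (ss k * ss k ^ 10) := Nat.mul_le_mul_left _ (Nat.mul_le_mul_right _ hss)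
      _ = n * ss k ^ 11 := by ring
  have hmul := XAux.main hn hs0 hy (HH k n) rfl
    (fun g => ArithmeticFunction.liouville (V g)) hFv hrep' hs
  let f : (ZMod n)ˣ → ℤˣ := fun g => (Int.isUnit_iff.2 (lam_one_or (hV1 g).1.ne')).unit
  have hf : ∀ g, (f g : ℤ) = ArithmeticFunction.liouville (V g) := fun g => rfl
  refine ⟨MonoidHom.mk' f (fun u g => Units.ext (by
    rw [Units.val_mul, hf, hf, hf]
    exact hmul u g)), fun v hv hv1 hv2 => ?_⟩
  change ((f (ZMod.unitOfCoprime v hv) : ℤˣ) : ℤ) = _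
  rw [hf]
  exact hFv v _ hv1 (hs1 v hv2) (ZMod.coe_unitOfCoprime v hv)

end Pool.Agent.Lib.MP_da4d09_nt.PL
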