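import Mathlib
import Pool.Agent.Lib.MP_da4d09_nt.PL.W
import Pool.Agent.Lib.MP_da4d09_nt.PL.R
import Pool.Agent.Lib.MP_da4d09_nt.PL.F
import Pool.Agent.Lib.MP_da4d09_nt.PL.F1
import Pool.Agent.Lib.MP_da4d09_nt.PL.F2
import Pool.Agent.Lib.MP_da4d09_nt.PL.F3
import Pool.Agent.Lib.MP_da4d09_nt.PL.C
import Pool.Agent.Lib.MP_da4d09_nt.PL.S
import Pool.Agent.Lib.MP_da4d09_nt.PL.G
import Pool.Agent.Lib.MP_da4d09_nt.PL.G1
import Pool.Agent.Lib.MP_da4d09_nt.PL.L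
import Pool.Agent.Lib.MP_da4d09_nt.PL.L1
import Pool.Agent.Lib.MP_da4d09_nt.PL.X
import Pool.Agent.Lib.MP_da4d09_nt.PL.B

/-!
The assembly.
-/

set_option autoImplicit false

namespace Pool.Agent.Lib.MP_da4d09_nt.PL

theorem all_B : StB :=
  stB (stX (stR stW) (stS stW (stF stF1 stF2 stF3) stC)) (stG stG1) (stL stL1)

end Pool.Agent.Lib.MP_da4d09_nt.PL
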