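import Pool.Agent.Lib.MP_da4d09_nt.PL.Defs
import Pool.Agent.Lib.MP_bdd9a3_nt.Mertens

/-!
(L) `t ^ 2 - D` has a big prime factor for some `t`
-/

set_option autoImplicit false

namespace Pool.Agent.Lib.MP_da4d09_nt.PL

open Finset

namespace LAux

/-- the number of prime factors exceeding `z` -/
lemma card_big {z n a : ℕ} (hz : 1 < z) (hn : 0 < n) (h : n ≤ z ^ a) :
    (n.primeFactors.filter (fun p => z < p)).card ≤ a := by
  set S := n.primeFactors.filter (fun p => z < p) with hS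
  have h1 : z ^ S.card ≤ ∏ p ∈ S, p := by
    rw [← Finset.prod_const]
    exact Finset.prod_le_prod (fun _ _ => Nat.zero_le _)
      (fun p hp => (Finset.mem_filter.1 hp).2.le)
  have h2 : ∏ p ∈ S, p ≤ n := by
    refine Nat.le_of_dvd hn ?_
    exact (Finset.prod_dvd_prod_of_subset _ _ _ (Finset.filter_subset _ _)).trans
      (Nat.prod_primeFactors_dvd n)
  exact (Nat.pow_le_pow_iff_right hz).1 (h1.trans (h2.trans h))

/-- the logarithms of the values of the polynomial -/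
lemma sum_log_le (h : StL1) (D : ℤ) (T M : ℕ) (S : Finset ℕ) (hS : ∀ p ∈ S, p.Prime)
    (hM : ∀ t ∈ Finset.Ioc T (2 * T), (t : ℤ) ^ 2 - D ≠ 0 ∧ ((t : ℤ) ^ 2 - D).natAbs ≤ M)
    (hT : ∀ t ∈ Finset.Ioc T (2 * T), (((t : ℤ) ^ 2 - D).natAbs).primeFactors ⊆ S) :
    ∑ t ∈ Finset.Ioc T (2 * T), Real.log ((((t : ℤ) ^ 2 - D).natAbs : ℕ) : ℝ) ≤
      ∑ p ∈ S, (4 * T * (Real.log p / ((p : ℝ) - 1)) + 2 * Real.log M) := by
  have h1 : ∑ t ∈ Finset.Ioc T (2 * T), Real.log ((((t : ℤ) ^ 2 - D).natAbs : ℕ) : ℝ) =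
      ∑ t ∈ Finset.Ioc T (2 * T), ∑ p ∈ S,
        (((t : ℤ) ^ 2 - D).natAbs.factorization p : ℝ) * Real.log p := by
    refine Finset.sum_congr rfl fun t ht => ?_
    rw [Real.log_nat_eq_sum_factorization]
    refine Finsupp.sum_of_support_subset _ ?_ _ ?_
    · rw [Nat.support_factorization]
      exact hT t ht
    · intro i _
      rw [Nat.cast_zero, zero_mul]
  rw [h1, Finset.sum_comm]
  exact Finset.sum_le_sum fun p hp => h p D T M (hS p hp) hM

lemma log_div_le_one {p : ℕ} (hp : p.Prime) : Real.log p / ((p : ℝ) - 1) ≤ 1 := by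
  have h2 : (2 : ℝ) ≤ p := by exact_mod_cast hp.two_le
  rw [div_le_one (by linarith)]
  exact Real.log_le_sub_one_of_pos (by linarith)

lemma log_div_le_two {p : ℕ} (hp : p.Prime) :
    Real.log p / ((p : ℝ) - 1) ≤ 2 * (Real.log p / (p : ℝ)) := by
  have h2 : (2 : ℝ) ≤ p := by exact_mod_cast hp.two_le
  have h3 : 0 ≤ Real.log p := Real.log_nonneg (by linarith)
  rw [← mul_div_assoc, div_le_div_iff₀ (by linarith) (by linarith)]
  nlinarith

/-- the sum over the primes up to `z` and the big prime factors of `n` -/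
lemma sum_S_le (z n a T : ℕ) (hz : 1 < z) (hn : 0 < n) (h : n ≤ z ^ a) (LM : ℝ) (hLM : 0 ≤ LM) :
    ∑ p ∈ (Finset.Icc 1 z).filter Nat.Prime ∪ n.primeFactors.filter (fun p => z < p),
      (4 * (T : ℝ) * (Real.log p / ((p : ℝ) - 1)) + 2 * LM) ≤
      8 * T * (Real.log z + Real.log 4) + 4 * T * a + 2 * (z + a) * LM := by
  have hpos : ∀ p : ℕ, p.Prime →
      0 ≤ 4 * (T : ℝ) * (Real.log p / ((p : ℝ) - 1)) + 2 * LM := by
    intro p hp
    have h2 : (2 : ℝ) ≤ p := by exact_mod_cast hp.two_le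
    have h3 : 0 ≤ Real.log p := Real.log_nonneg (by linarith)
    have h4 : 0 ≤ Real.log p / ((p : ℝ) - 1) := div_nonneg h3 (by linarith)
    positivity
  have hdis : Disjoint ((Finset.Icc 1 z).filter Nat.Prime)
      (n.primeFactors.filter (fun p => z < p)) := by
    rw [Finset.disjoint_left]
    intro p h1 h2
    have h3 := (Finset.mem_Icc.1 (Finset.mem_filter.1 h1).1).2
    have h4 := (Finset.mem_filter.1 h2).2
    omega
  rw [Finset.sum_union hdis]
  have h1 : ∑ p ∈ (Finset.Icc 1 z).filter Nat.Prime,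
      (4 * (T : ℝ) * (Real.log p / ((p : ℝ) - 1)) + 2 * LM) ≤
      8 * T * (Real.log z + Real.log 4) + 2 * z * LM := by
    rw [Finset.sum_add_distrib, Finset.sum_const, nsmul_eq_mul]
    have h2 : ∑ p ∈ (Finset.Icc 1 z).filter Nat.Prime,
        4 * (T : ℝ) * (Real.log p / ((p : ℝ) - 1)) ≤ 8 * T * (Real.log z + Real.log 4) := by
      have h3 := MP_bdd9a3_nt.mertens_upper z hz.le
      calc ∑ p ∈ (Finset.Icc 1 z).filter Nat.Prime, 4 * (T : ℝ) * (Real.log p / ((p : ℝ) - 1))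
          ≤ ∑ p ∈ (Finset.Icc 1 z).filter Nat.Prime, 4 * (T : ℝ) * (2 * (Real.log p / (p : ℝ))) :=
            Finset.sum_le_sum fun p hp => mul_le_mul_of_nonneg_left
              (log_div_le_two (Finset.mem_filter.1 hp).2) (by positivity)
        _ = 8 * T * ∑ p ∈ (Finset.Icc 1 z).filter Nat.Prime, Real.log p / (p : ℝ) := by
            rw [Finset.mul_sum]
            refine Finset.sum_congr rfl fun p _ => ?_
            ring
        _ ≤ 8 * T * (Real.log z + Real.log 4) := mul_le_mul_of_nonneg_left h3 (by positivity)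
    have h4 : (((Finset.Icc 1 z).filter Nat.Prime).card : ℝ) ≤ z := by
      have := Finset.card_filter_le (Finset.Icc 1 z) Nat.Prime
      rw [Nat.card_Icc, Nat.add_sub_cancel] at this
      exact_mod_cast this
    have h5 : (((Finset.Icc 1 z).filter Nat.Prime).card : ℝ) * (2 * LM) ≤ z * (2 * LM) :=
      mul_le_mul_of_nonneg_right h4 (by positivity)
    linarith
  have h2 : ∑ p ∈ n.primeFactors.filter (fun p => z < p),
      (4 * (T : ℝ) * (Real.log p / ((p : ℝ) - 1)) + 2 * LM) ≤ a * (4 * T + 2 * LM) := by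
    have h3 : ∑ p ∈ n.primeFactors.filter (fun p => z < p),
        (4 * (T : ℝ) * (Real.log p / ((p : ℝ) - 1)) + 2 * LM) ≤
        ∑ p ∈ n.primeFactors.filter (fun p => z < p), (4 * (T : ℝ) + 2 * LM) := by
      refine Finset.sum_le_sum fun p hp => ?_
      have h4 := log_div_le_one (Nat.prime_of_mem_primeFactors (Finset.mem_filter.1 hp).1)
      have h5 : 4 * (T : ℝ) * (Real.log p / ((p : ℝ) - 1)) ≤ 4 * T * 1 :=
        mul_le_mul_of_nonneg_left h4 (by positivity)
      linarith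
    refine h3.trans ?_
    rw [Finset.sum_const, nsmul_eq_mul]
    have h4 : ((n.primeFactors.filter (fun p => z < p)).card : ℝ) ≤ a := by
      exact_mod_cast card_big hz hn h
    exact mul_le_mul_of_nonneg_right h4 (by positivity)
  linarith

end LAux

open LAux in
/-- (L) `t ^ 2 - D` has a big prime factor for some `t` -/
theorem stL (h : StL1) : StL := by
  intro A hA
  refine ⟨24 + 16 * A, fun k hk n D hn1 hn2 hD0 hD => ?_⟩
  by_contra hcon
  push Not at hcon
  set z : ℕ := zz k with hz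
  have hzdef : z = 2 ^ (2 ^ k) := rfl
  have hk2 : k < 2 ^ k := Nat.lt_two_pow_self
  have hk3 : 2 ^ k < z := by
    rw [hzdef]
    exact Nat.lt_two_pow_self
  have hzA : 24 + 16 * A < z := by omega
  have hz1 : 1 < z := by omega
  have hn0 : 0 < n := lt_of_lt_of_le (by positivity) hn1
  set r : ℕ := Nat.sqrt n with hr
  have hr1 : r * r ≤ n := Nat.sqrt_le n
  have hr2 : n < (r + 1) * (r + 1) := Nat.lt_succ_sqrt n
  have hr10 : z ^ 10 ≤ r := by
    rw [hr, Nat.le_sqrt, ← pow_add]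
    exact (Nat.pow_le_pow_right (by omega) (by omega)).trans hn1
  have hrpos : 1 ≤ r := le_trans (Nat.one_le_pow _ _ (by omega)) hr10
  have hn3 : n ≤ 3 * (r * r) := by nlinarith
  set T : ℕ := r * z with hT
  have hTz : z ^ 3 ≤ T := by
    calc z ^ 3 ≤ z ^ 10 := Nat.pow_le_pow_right (by omega) (by norm_num)
      _ ≤ r := hr10
      _ ≤ r * z := Nat.le_mul_of_pos_right _ (by omega)
  have hTT : 2 * n ≤ T * T ∧ T * T ≤ n * z ^ 2 := by
    constructor
    · have h1 : T * T = (r * r) * (z * z) := by rw [hT]; ring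
      have h2 : 6 ≤ z * z := by nlinarith
      calc 2 * n ≤ (r * r) * 6 := by linarith
        _ ≤ (r * r) * (z * z) := Nat.mul_le_mul_left _ h2
        _ = T * T := h1.symm
    · have h1 : T * T = (r * r) * z ^ 2 := by rw [hT]; ring
      rw [h1]
      exact Nat.mul_le_mul_right _ hr1
  -- the size of the values
  have hsize : ∀ t ∈ Finset.Ioc T (2 * T), n ≤ ((t : ℤ) ^ 2 - D).natAbs ∧
      ((t : ℤ) ^ 2 - D).natAbs ≤ 5 * n * z ^ 2 := by
    intro t ht
    rw [Finset.mem_Ioc] at ht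
    have h1 : (T : ℤ) * T ≤ (t : ℤ) ^ 2 := by
      have : T * T ≤ t ^ 2 := by nlinarith [ht.1]
      exact_mod_cast this
    have h2 : (t : ℤ) ^ 2 ≤ 4 * (T * T) := by
      have : t ^ 2 ≤ 4 * (T * T) := by nlinarith [ht.2]
      exact_mod_cast this
    have h3 : (2 * n : ℤ) ≤ T * T := by exact_mod_cast hTT.1
    have h4 : (T * T : ℤ) ≤ n * z ^ 2 := by exact_mod_cast hTT.2
    have h5 := abs_le.1 hD
    have h6 : (n : ℤ) ≤ n * z ^ 2 := by
      have : n ≤ n * z ^ 2 := Nat.le_mul_of_pos_right _ (by positivity)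
      exact_mod_cast this
    have h7 : (n : ℤ) ≤ (t : ℤ) ^ 2 - D := by linarith [h5.2]
    have h8 : (t : ℤ) ^ 2 - D ≤ ((5 * n * z ^ 2 : ℕ) : ℤ) := by
      push_cast
      nlinarith [h5.1]
    omega
  have hne : ∀ t ∈ Finset.Ioc T (2 * T), (t : ℤ) ^ 2 - D ≠ 0 := by
    intro t ht h0
    have h1 := (hsize t ht).1
    rw [h0, Int.natAbs_zero] at h1
    omega
  -- the primes
  have hpr : ∀ t ∈ Finset.Ioc T (2 * T), (((t : ℤ) ^ 2 - D).natAbs).primeFactors ⊆
      (Finset.Icc 1 z).filter Nat.Prime ∪ n.primeFactors.filter (fun p => z < p) := by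
    intro t ht p hp
    have hpp := Nat.prime_of_mem_primeFactors hp
    have hpd := Nat.dvd_of_mem_primeFactors hp
    rw [Finset.mem_union, Finset.mem_filter, Finset.mem_filter, Finset.mem_Icc,
      Nat.mem_primeFactors]
    rcases Nat.lt_or_ge z p with h1 | h1
    · right
      refine ⟨⟨hpp, ?_, hn0.ne'⟩, h1⟩
      by_contra hnd
      have h2 := hcon t p hpp h1 hnd (Int.natCast_dvd.2 hpd)
      have h3 : p ≤ ((t : ℤ) ^ 2 - D).natAbs :=
        Nat.le_of_dvd (Nat.pos_of_ne_zero (Int.natAbs_ne_zero.2 (hne t ht))) hpd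
      have h4 := (hsize t ht).2
      have h5 : 5 * n * z ^ 2 ≤ n * ss k := by
        unfold ss
        rw [← hz]
        have h6 : 5 * z ^ 2 ≤ z ^ 16 := by
          calc 5 * z ^ 2 ≤ z * z ^ 2 := Nat.mul_le_mul_right _ (by omega)
            _ = z ^ 3 := by ring
            _ ≤ z ^ 16 := Nat.pow_le_pow_right (by omega) (by norm_num)
        calc 5 * n * z ^ 2 = n * (5 * z ^ 2) := by ring
          _ ≤ n * z ^ 16 := Nat.mul_le_mul_left _ h6
      omega
    · left
      exact ⟨⟨hpp.one_le, h1⟩, hpp⟩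
  have hSp : ∀ p ∈ (Finset.Icc 1 z).filter Nat.Prime ∪ n.primeFactors.filter (fun p => z < p),
      p.Prime := by
    intro p hp
    rcases Finset.mem_union.1 hp with h1 | h1
    · exact (Finset.mem_filter.1 h1).2
    · exact Nat.prime_of_mem_primeFactors (Finset.mem_filter.1 h1).1
  have hsum := sum_log_le h D T (5 * n * z ^ 2) _ hSp (fun t ht => ⟨hne t ht, (hsize t ht).2⟩) hpr
  -- real numbers
  have hzr : (1 : ℝ) < z := by exact_mod_cast hz1
  have hnr : (0 : ℝ) < n := by exact_mod_cast hn0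
  set L : ℝ := Real.log z with hL
  have hLk : L = 2 ^ k * Real.log 2 := by
    rw [hL, hzdef]
    push_cast
    rw [Real.log_pow]
    push_cast
    ring
  have hlog2 : (1 : ℝ) / 2 ≤ Real.log 2 := by linarith [Real.log_two_gt_d9]
  have hL1 : 12 + 8 * (A : ℝ) ≤ L := by
    have h1 : (24 + 16 * A : ℝ) ≤ 2 ^ k := by
      have : 24 + 16 * A ≤ 2 ^ k := by omega
      exact_mod_cast this
    rw [hLk]
    nlinarith
  have hlog4 : Real.log 4 ≤ 3 / 2 := by
    have h1 : Real.log 4 = 2 * Real.log 2 := by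
      rw [show (4 : ℝ) = 2 ^ 2 by norm_num, Real.log_pow]
      norm_num
    rw [h1]
    linarith [Real.log_two_lt_d9]
  have hlogn1 : (A : ℝ) * L ≤ Real.log n := by
    rw [hL, ← Real.log_pow]
    exact Real.log_le_log (by positivity) (by exact_mod_cast hn1)
  have hlogn2 : Real.log n ≤ 2 * A * L := by
    have h1 : Real.log n ≤ Real.log ((z : ℝ) ^ (2 * A)) :=
      Real.log_le_log hnr (by exact_mod_cast hn2)
    rw [Real.log_pow] at h1
    push_cast at h1
    exact h1
  have hA20 : (20 : ℝ) ≤ A := by exact_mod_cast hA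
  have hlogM : Real.log ((5 * n * z ^ 2 : ℕ) : ℝ) ≤ (2 * A + 3) * L := by
    push_cast
    rw [Real.log_mul (by positivity) (by positivity), Real.log_mul (by norm_num) (by positivity),
      Real.log_pow]
    have h5 : Real.log 5 ≤ L := Real.log_le_log (by norm_num) (by
      have : 5 ≤ z := by omega
      exact_mod_cast this)
    push_cast
    linarith
  have hlogM0 : 0 ≤ Real.log ((5 * n * z ^ 2 : ℕ) : ℝ) := Real.log_natCast_nonneg _
  have hlow : (T : ℝ) * Real.log n ≤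
      ∑ t ∈ Finset.Ioc T (2 * T), Real.log ((((t : ℤ) ^ 2 - D).natAbs : ℕ) : ℝ) := by
    have h1 : ∑ t ∈ Finset.Ioc T (2 * T), Real.log n ≤
        ∑ t ∈ Finset.Ioc T (2 * T), Real.log ((((t : ℤ) ^ 2 - D).natAbs : ℕ) : ℝ) :=
      Finset.sum_le_sum fun t ht => Real.log_le_log hnr (by exact_mod_cast (hsize t ht).1)
    rw [Finset.sum_const, Nat.card_Ioc, nsmul_eq_mul] at h1
    have h2 : 2 * T - T = T := by omega
    rwa [h2] at h1
  have hup := sum_S_le z n (2 * A) T hz1 hn0 hn2 _ hlogM0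
  rw [← hL] at hup
  have hTr : (z : ℝ) ^ 3 ≤ T := by exact_mod_cast hTz
  have hzAr : (24 + 16 * A : ℝ) < z := by exact_mod_cast hzA
  have hT2 : 2 * ((z : ℝ) + 2 * A) * (2 * A + 3) ≤ T := by
    have h1 : 2 * ((z : ℝ) + 2 * A) * (2 * A + 3) ≤ 2 * (2 * z) * z := by
      have h2 : (z : ℝ) + 2 * A ≤ 2 * z := by linarith
      have h3 : 2 * (A : ℝ) + 3 ≤ z := by linarith
      have h4 : (0 : ℝ) ≤ 2 * A + 3 := by positivity
      have h5 : 2 * ((z : ℝ) + 2 * A) ≤ 2 * (2 * z) := by linarith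
      calc 2 * ((z : ℝ) + 2 * A) * (2 * A + 3) ≤ 2 * (2 * z) * (2 * A + 3) :=
            mul_le_mul_of_nonneg_right h5 h4
        _ ≤ 2 * (2 * z) * z := mul_le_mul_of_nonneg_left h3 (by positivity)
    have h2 : 2 * (2 * (z : ℝ)) * z ≤ z ^ 3 := by nlinarith [sq_nonneg (z : ℝ)]
    linarith
  have hL0 : 0 < L := by linarith
  have hT0 : (0 : ℝ) < T := lt_of_lt_of_le (by positivity) hTr
  have e1 : 2 * ((z : ℝ) + ((2 * A : ℕ) : ℝ)) * Real.log ((5 * n * z ^ 2 : ℕ) : ℝ) ≤ T * L := by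
    calc 2 * ((z : ℝ) + ((2 * A : ℕ) : ℝ)) * Real.log ((5 * n * z ^ 2 : ℕ) : ℝ)
        ≤ 2 * ((z : ℝ) + ((2 * A : ℕ) : ℝ)) * ((2 * A + 3) * L) :=
          mul_le_mul_of_nonneg_left hlogM (by positivity)
      _ = (2 * ((z : ℝ) + 2 * A) * (2 * A + 3)) * L := by push_cast; ring
      _ ≤ T * L := mul_le_mul_of_nonneg_right hT2 hL0.le
  have e2 : (T : ℝ) * (8 * Real.log 4 + 8 * A) ≤ T * L :=
    mul_le_mul_of_nonneg_left (by linarith) hT0.le
  have e3 : 20 * (T * L) ≤ T * Real.log n := by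
    have h1 : 20 * L ≤ Real.log n := by
      have := mul_le_mul_of_nonneg_right hA20 hL0.le
      linarith
    calc 20 * (T * L) = T * (20 * L) := by ring
      _ ≤ T * Real.log n := mul_le_mul_of_nonneg_left h1 hT0.le
  have e4 : 0 < T * L := mul_pos hT0 hL0
  have e5 := (hlow.trans hsum).trans hup
  push_cast at e1 e5
  nlinarith

end Pool.Agent.Lib.MP_da4d09_nt.PL
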